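import Pool.Agent.Lib.MP_2ca583_ag.JDefs

set_option autoImplicit false

open CategoryTheory AlgebraicGeometry Polynomial

universe u

namespace Pool.Agent.Lib.MP_2ca583_ag.Jac

/-- `Y` is the hyperelliptic curve branched at `B ⊆ ℙ¹(k)`: it is integral, smooth and proper over
`k` and contains as an open subscheme the affine curve `y ^ 2 = ∏ (x - l)`, `l ∈ Λ`, where a
Moebius transformation `γ` takes `Λ ∪ {∞}` onto `B`. -/
def IsModel {k : Type u} [Field k] [DecidableEq k] (B : Set (OnePoint k)) {Y : Scheme.{u}}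
    (s : Y ⟶ Spec (CommRingCat.of k)) : Prop :=
  IsIntegral Y ∧ Smooth s ∧ IsProper s ∧ ∃ (γ : GL (Fin 2) k) (Λ : Finset k)
    (j : Spec (CommRingCat.of
      (AdjoinRoot (X ^ 2 - C (∏ l ∈ Λ, (X - C l)) : Polynomial (Polynomial k)))) ⟶ Y),
    (∀ z : OnePoint k, γ • z ∈ B ↔ z = OnePoint.infty ∨ ∃ l ∈ Λ, z = OnePoint.some l) ∧
      IsOpenImmersion j ∧ j ≫ s = str k _

end Pool.Agent.Lib.MP_2ca583_ag.Jac
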