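import Mathlib

set_option autoImplicit false

open Polynomial

universe u

namespace Pool.Agent.Lib.MP_2ca583_ag.AnyPt

variable {k : Type u} [Field k]

lemma mono_exact {a b c d : k} (hdet : a * d - b * c ≠ 0) {i l : ℕ}
    (h1 : ((i + l + 2 : ℕ) : k) = 0) (h2 : ((i + 1 : ℕ) : k) ≠ 0) :
    (C a * X + C b) ^ i * (C c * X + C d) ^ l ∈ LinearMap.range (derivative (R := k)) := by
  have hA : derivative (C a * X + C b : k[X]) = C a := by simp
  have hD : derivative (C c * X + C d : k[X]) = C c := by simp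
  have h3 : (C ((i : k) + 1) : k[X]) + C ((l : k) + 1) = 0 := by
    rw [← C_add, ← C_0]; congr 1
    push_cast at h1
    linear_combination h1
  have h4 : (C ((((i : k) + 1) * (a * d - b * c))⁻¹) : k[X]) *
      (C ((i : k) + 1) * (C a * C d - C b * C c)) = 1 := by
    rw [← C_mul, ← C_mul, ← C_sub, ← C_mul, ← C_mul, inv_mul_cancel₀, C_1]
    push_cast at h2
    exact mul_ne_zero h2 hdet
  refine ⟨C ((((i : k) + 1) * (a * d - b * c))⁻¹) *
    ((C a * X + C b) ^ (i + 1) * (C c * X + C d) ^ (l + 1)), ?_⟩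
  rw [derivative_C_mul, derivative_mul, derivative_pow_succ, derivative_pow_succ, hA, hD]
  linear_combination (C a * X + C b) ^ i * (C c * X + C d) ^ l * h4 +
    C ((((i : k) + 1) * (a * d - b * c))⁻¹) * (C a * X + C b) ^ (i + 1) * (C c * X + C d) ^ l *
      C c * h3

lemma form_exact {a b c d : k} (hdet : a * d - b * c ≠ 0) {e l ε ν m : ℕ}
    (h1 : ((e + l + m * (ε + ν + 1) + 2 : ℕ) : k) = 0)
    (h2 : ∀ j ≤ m, ((e + ε * m + ν * j + 1 : ℕ) : k) ≠ 0) :
    (C a * X + C b) ^ e * (C c * X + C d) ^ l *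
      ((C a * X + C b) ^ ε * (C c * X + C d) * ((C a * X + C b) ^ ν + (C c * X + C d) ^ ν)) ^ m
      ∈ LinearMap.range (derivative (R := k)) := by
  rw [mul_pow, add_pow ((C a * X + C b) ^ ν), Finset.mul_sum, Finset.mul_sum]
  refine Submodule.sum_mem _ fun j hj => ?_
  have hj' : j ≤ m := Nat.lt_succ_iff.1 (Finset.mem_range.1 hj)
  obtain ⟨t, rfl⟩ := Nat.exists_eq_add_of_le hj'
  have h := mono_exact hdet (i := e + ε * (j + t) + ν * j) (l := l + (j + t) + ν * t)
    (by rw [← h1]; congr 1; ring) (h2 j hj')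
  have h' := Submodule.smul_mem _ (((j + t).choose j : ℕ) : k) h
  convert h' using 1
  rw [Nat.add_sub_cancel_left, smul_eq_C_mul, map_natCast]
  generalize (C a * X + C b : k[X]) = A
  generalize (C c * X + C d : k[X]) = D
  ring

lemma exists_e {p m : ℕ} (hpm : p = 2 * m + 1) (hm : 0 < m) (x ν : ℕ) :
    ∃ e ≤ m + 1, ∀ j ≤ m, ¬ p ∣ e + x + ν * j + 1 := by
  by_contra h
  push Not at h
  choose! f hf hd using h
  obtain ⟨e, he, e', he', hne, hee⟩ := Finset.exists_ne_map_eq_of_card_lt_of_maps_to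
    (s := Finset.range (m + 2)) (t := Finset.range (m + 1)) (by simp) (f := f)
    (fun e he => by
      have := hf e (by simpa [Nat.lt_succ_iff] using he)
      simpa [Nat.lt_succ_iff] using this)
  have he1 : e ≤ m + 1 := by simpa [Nat.lt_succ_iff] using he
  have he2 : e' ≤ m + 1 := by simpa [Nat.lt_succ_iff] using he'
  have d1 := hd e he1
  have d2 := hd e' he2
  rw [hee] at d1
  rcases lt_or_gt_of_ne hne with hlt | hlt
  · have := Nat.le_of_dvd (by omega) (Nat.dvd_sub d2 d1)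
    omega
  · have := Nat.le_of_dvd (by omega) (Nat.dvd_sub d1 d2)
    omega

/-- The branch set before any move: the roots of `x ^ ε (x ^ ν + 1)`. -/
lemma exists_base (p : ℕ) [hp : Fact p.Prime] [IsAlgClosed k] [CharP k p] (n : ℕ) (hn : 2 ≤ n) :
    ∃ (ε ν : ℕ) (S : Finset k), ε + ν = n ∧ 0 < ν ∧ S.card = n ∧
      ∀ t ∈ S, t ^ ε * (t ^ ν + 1) = 0 := by
  classical
  have key : ∀ ν : ℕ, ¬ p ∣ ν → ∃ T : Finset k, T.card = ν ∧ ∀ t ∈ T, t ^ ν + 1 = 0 := by
    intro ν hν
    have hsep : (X ^ ν - C (-1) : k[X]).Separable :=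
      separable_X_pow_sub_C' p ν (-1) hν (by simp)
    refine ⟨(X ^ ν - C (-1) : k[X]).roots.toFinset, ?_, fun t ht => ?_⟩
    · rw [Multiset.toFinset_card_of_nodup (nodup_roots hsep),
        ← (IsAlgClosed.splits _).natDegree_eq_card_roots, natDegree_X_pow_sub_C]
    · have := isRoot_of_mem_roots (Multiset.mem_toFinset.1 ht)
      simpa using this
  by_cases h : p ∣ n
  · have h' : ¬ p ∣ n - 1 := fun h1 => by
      have := Nat.dvd_sub h h1
      rw [show n - (n - 1) = 1 by omega] at this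
      exact hp.out.not_dvd_one this
    obtain ⟨T, hT, hT'⟩ := key _ h'
    have h0 : (0 : k) ∉ T := fun h0 => by
      have := hT' 0 h0
      rw [zero_pow (by omega)] at this
      simp at this
    refine ⟨1, n - 1, insert 0 T, by omega, by omega, ?_, fun t ht => ?_⟩
    · rw [Finset.card_insert_of_notMem h0, hT]; omega
    · rcases Finset.mem_insert.1 ht with rfl | ht
      · simp
      · rw [hT' t ht, mul_zero]
  · obtain ⟨T, hT, hT'⟩ := key _ h
    exact ⟨0, n, T, by omega, by omega, hT, fun t ht => by rw [hT' t ht, mul_zero]⟩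

lemma lin_deg (a b : k) : (C a * X + C b : k[X]).natDegree ≤ 1 := natDegree_linear_le

lemma lin_coeff (a b : k) : (C a * X + C b : k[X]).coeff 1 = a := by simp

lemma lin_ne {a b : k} (h : a ≠ 0 ∨ b ≠ 0) : (C a * X + C b : k[X]) ≠ 0 := fun h0 => by
  have h1 := congrArg (fun q => coeff q 1) h0
  have h2 := congrArg (fun q => coeff q 0) h0
  simp at h1 h2
  tauto

lemma form_ne {a b c d : k} (hdet : a * d - b * c ≠ 0) (ε : ℕ) {ν : ℕ} (hν : 0 < ν) :
    (C a * X + C b) ^ ε * (C c * X + C d) * ((C a * X + C b) ^ ν + (C c * X + C d) ^ ν) ≠ 0 := by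
  have hA : (C a * X + C b : k[X]) ≠ 0 := lin_ne (by
    by_contra h; push Not at h; exact hdet (by rw [h.1, h.2]; ring))
  have hD : (C c * X + C d : k[X]) ≠ 0 := lin_ne (by
    by_contra h; push Not at h; exact hdet (by rw [h.1, h.2]; ring))
  refine mul_ne_zero (mul_ne_zero (pow_ne_zero _ hA) hD) fun h0 => ?_
  have hev : ∀ t : k, (a * t + b) ^ ν + (c * t + d) ^ ν = 0 := fun t => by
    simpa using congrArg (eval t) h0
  by_cases hc : c = 0
  · have ha : a ≠ 0 := fun ha => hdet (by rw [ha, hc]; ring)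
    have := hev (-b / a)
    rw [show a * (-b / a) + b = 0 by field_simp; ring, zero_pow hν.ne', zero_add, hc, zero_mul,
      zero_add] at this
    exact hdet (by rw [eq_zero_of_pow_eq_zero this, hc]; ring)
  · have := hev (-d / c)
    rw [show c * (-d / c) + d = 0 by field_simp; ring, zero_pow hν.ne', add_zero] at this
    have h1 := eq_zero_of_pow_eq_zero this
    field_simp at h1
    exact hdet (by linear_combination -h1)

lemma form_deg (a b c d : k) (ε ν : ℕ) :
    ((C a * X + C b) ^ ε * (C c * X + C d) *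
      ((C a * X + C b) ^ ν + (C c * X + C d) ^ ν)).natDegree ≤ ε + 1 + ν ∧
    ((C a * X + C b) ^ ε * (C c * X + C d) *
      ((C a * X + C b) ^ ν + (C c * X + C d) ^ ν)).coeff (ε + 1 + ν)
      = a ^ ε * c * (a ^ ν + c ^ ν) := by
  have hp : ∀ (x y : k) (n : ℕ), ((C x * X + C y : k[X]) ^ n).natDegree ≤ n := fun x y n => by
    simpa using natDegree_pow_le_of_le n (lin_deg x y)
  have hc : ∀ (x y : k) (n : ℕ), ((C x * X + C y : k[X]) ^ n).coeff n = x ^ n := fun x y n => by
    have := coeff_pow_of_natDegree_le (m := n) (lin_deg x y)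
    rwa [mul_one, lin_coeff] at this
  have h1 : ((C a * X + C b) ^ ε * (C c * X + C d) : k[X]).natDegree ≤ ε + 1 :=
    natDegree_mul_le_of_le (hp a b ε) (lin_deg c d)
  have h2 : ((C a * X + C b) ^ ν + (C c * X + C d) ^ ν : k[X]).natDegree ≤ ν :=
    natDegree_add_le_of_degree_le (hp a b ν) (hp c d ν)
  refine ⟨natDegree_mul_le_of_le h1 h2, ?_⟩
  rw [coeff_mul_add_eq_of_natDegree_le h1 h2,
    coeff_mul_add_eq_of_natDegree_le (hp a b ε) (lin_deg c d), hc, lin_coeff, coeff_add, hc, hc]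

/-- From an exact differential for `F` to one for a polynomial that shares most roots with `F`. -/
lemma transfer {p m : ℕ} [CharP k p] (hpm : p = 2 * m + 1) {F u : k[X]} (hF : F ≠ 0) (hu : u ≠ 0)
    (hex : u * F ^ m ∈ LinearMap.range (derivative (R := k))) (Λ₁ Λ₂ : Finset k)
    [DecidableEq k] (hd : Disjoint Λ₁ Λ₂) (h1 : ∀ l ∈ Λ₁, F.eval l = 0) :
    ∃ u₀ G : k[X], u₀ ≠ 0 ∧
      u₀.natDegree + m * Λ₁.card ≤ u.natDegree + (m + 1) * Λ₂.card + m * F.natDegree ∧
      u₀ * (∏ l ∈ Λ₁ ∪ Λ₂, (X - C l)) ^ m = derivative G := by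
  obtain ⟨G, hG⟩ := hex
  have hnat : ∀ T : Finset k, (∏ l ∈ T, (X - C l) : k[X]).natDegree = T.card := by
    intro T
    rw [natDegree_prod_of_monic _ _ (fun l _ => monic_X_sub_C l)]
    simp
  have hmonic : ∀ T : Finset k, (∏ l ∈ T, (X - C l) : k[X]).Monic :=
    fun T => monic_prod_of_monic _ _ (fun l _ => monic_X_sub_C l)
  have hdvd : (∏ l ∈ Λ₁, (X - C l) : k[X]) ∣ F := by
    rw [Finset.prod_eq_multiset_prod, Multiset.prod_X_sub_C_dvd_iff_le_roots hF]
    exact (Multiset.le_iff_subset Λ₁.nodup).2 fun l hl => (mem_roots hF).2 (h1 l hl)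
  obtain ⟨Q, hQ⟩ := hdvd
  have hQ0 : Q ≠ 0 := fun h => hF (by rw [hQ, h, mul_zero])
  have hQd : F.natDegree = Λ₁.card + Q.natDegree := by
    rw [hQ, natDegree_mul (hmonic _).ne_zero hQ0, hnat]
  have hE : derivative ((∏ l ∈ Λ₂, (X - C l) : k[X]) ^ p) = 0 := by
    rw [derivative_pow, CharP.cast_eq_zero]; simp
  refine ⟨u * (∏ l ∈ Λ₂, (X - C l)) ^ (m + 1) * Q ^ m, (∏ l ∈ Λ₂, (X - C l)) ^ p * G,
    mul_ne_zero (mul_ne_zero hu (pow_ne_zero _ (hmonic _).ne_zero)) (pow_ne_zero _ hQ0), ?_, ?_⟩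
  · rw [natDegree_mul (mul_ne_zero hu (pow_ne_zero _ (hmonic _).ne_zero)) (pow_ne_zero _ hQ0),
      natDegree_mul hu (pow_ne_zero _ (hmonic _).ne_zero), natDegree_pow, natDegree_pow, hnat, hQd]
    exact le_of_eq (by ring)
  · rw [derivative_mul, hE, zero_mul, zero_add, hG, Finset.prod_union hd, hQ, hpm, mul_pow, mul_pow]
    ring

end Pool.Agent.Lib.MP_2ca583_ag.AnyPt
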