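import Mathlib

set_option autoImplicit false

open Polynomial

namespace Pool.Agent.Lib.MP_2ca583_ag

variable {k : Type*} [Field k]

/-- Cartier's identity for a logarithmic derivative, at the origin. -/
lemma logDeriv_coeff [IsAlgClosed k] (p : ℕ) [hp : Fact p.Prime] [CharP k p] (n : ℕ) :
    ∀ Q β : k[X], Q.natDegree = n → Q.eval 0 ≠ 0 → X ^ p ∣ derivative Q - β * Q →
      β.coeff (p - 1) = (β.coeff 0) ^ p := by
  have hp0 : 0 < p := hp.out.pos
  induction n with
  | zero =>
    intro Q β hQ h0 hd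
    rw [natDegree_eq_zero] at hQ
    obtain ⟨c, rfl⟩ := hQ
    have hc : c ≠ 0 := by simpa using h0
    rw [derivative_C, zero_sub, dvd_neg] at hd
    have hd' : X ^ p ∣ β :=
      (IsUnit.dvd_mul_right (isUnit_C.2 (isUnit_iff_ne_zero.2 hc))).1 hd
    rw [X_pow_dvd_iff] at hd'
    rw [hd' _ (by omega), hd' _ hp0, zero_pow hp0.ne']
  | succ n ih =>
    intro Q β hQ h0 hd
    have hQ0 : Q ≠ 0 := by rintro rfl; simp at h0
    have hdeg : Q.degree ≠ 0 := by
      rw [degree_eq_natDegree hQ0, hQ]; exact_mod_cast Nat.succ_ne_zero n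
    obtain ⟨r, hr⟩ := IsAlgClosed.exists_root Q hdeg
    have hr0 : r ≠ 0 := by rintro rfl; exact h0 hr
    obtain ⟨Q₀, hQ₀⟩ := dvd_iff_isRoot.2 hr
    set α := r⁻¹ with hα
    have hαr : α * r = 1 := inv_mul_cancel₀ hr0
    set Q₁ : k[X] := C (-r) * Q₀ with hQ₁
    have hfac : Q = (1 - C α * X) * Q₁ := by
      rw [hQ₀, hQ₁]
      have : (C α * C r : k[X]) = 1 := by rw [← C_mul, hαr, C_1]
      rw [C_neg]
      linear_combination (-X * Q₀) * this
    have hQ₀0 : Q₀ ≠ 0 := by rintro rfl; simp at hQ₀; exact hQ0 hQ₀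
    have hdeg1 : Q₁.natDegree = n := by
      rw [hQ₁, natDegree_C_mul (neg_ne_zero.2 hr0)]
      rw [hQ₀, natDegree_mul (X_sub_C_ne_zero r) hQ₀0, natDegree_X_sub_C] at hQ
      omega
    have h01 : Q₁.eval 0 ≠ 0 := by
      rw [hfac] at h0; simpa using h0
    set S : k[X] := ∑ i ∈ Finset.range p, (C α * X) ^ i with hS
    have hgeom : S * (C α * X - 1) = (C α * X) ^ p - 1 := geom_sum_mul _ _
    set γ : k[X] := -C α * S with hγ
    have hcop : IsCoprime (X ^ p : k[X]) (1 - C α * X) :=
      IsCoprime.pow_left ⟨C α, 1, by ring⟩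
    have hd1 : X ^ p ∣ derivative Q₁ - (β - γ) * Q₁ := by
      refine hcop.dvd_of_dvd_mul_left ?_
      have e : (1 - C α * X) * (derivative Q₁ - (β - γ) * Q₁)
          = (derivative Q - β * Q) + X ^ p * (C α * (C α) ^ p * Q₁) := by
        rw [hfac, hγ]
        simp only [derivative_mul, derivative_sub, derivative_one, derivative_C, derivative_X]
        rw [mul_pow] at hgeom
        linear_combination (C α * Q₁) * hgeom
      rw [e]
      exact dvd_add hd (dvd_mul_right _ _)
    have hcoef : ∀ j < p, γ.coeff j = -α ^ (j + 1) := by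
      intro j hj
      rw [hγ, neg_mul, coeff_neg, coeff_C_mul, hS, finsetSum_coeff]
      simp only [mul_pow, ← C_pow, coeff_C_mul, coeff_X_pow]
      rw [Finset.sum_eq_single j]
      · simp [pow_succ']
      · intro i _ hij; simp [Ne.symm hij]
      · intro h; exact absurd (Finset.mem_range.2 hj) h
    have := ih Q₁ (β - γ) hdeg1 h01 hd1
    rw [coeff_sub, coeff_sub, hcoef _ (by omega), hcoef _ hp0, Nat.sub_add_cancel hp0, zero_add,
      pow_one, sub_neg_eq_add, sub_neg_eq_add, add_pow_char] at this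
    exact add_right_cancel this

/-- Cartier's identity for a logarithmic derivative, at a point `x₀`. -/
lemma logDeriv_eval [IsAlgClosed k] (p : ℕ) [hp : Fact p.Prime] [CharP k p] (x₀ : k)
    (Q β : k[X]) (h0 : Q.eval x₀ ≠ 0) (hd : (X - C x₀) ^ p ∣ derivative Q - β * Q) :
    (hasseDeriv (p - 1) β).eval x₀ = (β.eval x₀) ^ p := by
  rw [← taylor_coeff, ← taylor_coeff_zero]
  refine logDeriv_coeff p _ (taylor x₀ Q) (taylor x₀ β) rfl ?_ ?_
  · rw [taylor_eval, zero_add]; exact h0
  · have h1 := map_dvd (taylorAlgHom x₀) hd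
    have h2 : derivative (taylor x₀ Q) = taylor x₀ (derivative Q) := by
      rw [taylor_apply, taylor_apply, derivative_comp]; simp
    rw [h2]
    simpa using h1

/-- Over an algebraically closed field of characteristic `p` a polynomial with zero derivative is a
`p`-th power. -/
lemma exists_pow_of_derivative_eq_zero [IsAlgClosed k] (p : ℕ) [hp : Fact p.Prime] [CharP k p]
    {f : k[X]} (hf : derivative f = 0) : ∃ g : k[X], f = g ^ p := by
  refine ⟨(contract p f).map (frobeniusEquiv k p).symm, ?_⟩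
  rw [← map_frobenius_expand, ← map_expand, Polynomial.map_map]
  have : (frobenius k p).comp ((frobeniusEquiv k p).symm : k →+* k) = RingHom.id k := by
    ext x; simp
  rw [this, Polynomial.map_id, expand_contract p hf hp.out.ne_zero]

lemma dvd_of_pow_dvd_pow_mul {f n B : k[X]} (hf : Squarefree f) {p m : ℕ} (hmp : m < p)
    (hn : n ≠ 0) (h : n ^ p ∣ B ^ p * f ^ m) : n ∣ B := by
  classical
  obtain ⟨n₁, B₁, hn₁, hB₁, hcop⟩ : ∃ n₁ B₁ : k[X], n = EuclideanDomain.gcd n B * n₁ ∧
      B = EuclideanDomain.gcd n B * B₁ ∧ IsCoprime n₁ B₁ := by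
    obtain ⟨n₁, h1⟩ := EuclideanDomain.gcd_dvd_left n B
    obtain ⟨B₁, h2⟩ := EuclideanDomain.gcd_dvd_right n B
    refine ⟨n₁, B₁, h1, h2, EuclideanDomain.gcdA n B, EuclideanDomain.gcdB n B, ?_⟩
    have h3 := EuclideanDomain.gcd_eq_gcd_ab n B
    have h4 : EuclideanDomain.gcd n B ≠ 0 := by
      intro h0; rw [h0, zero_mul] at h1; exact hn h1
    apply mul_left_cancel₀ h4
    set d := EuclideanDomain.gcd n B
    set u := EuclideanDomain.gcdA n B
    set v := EuclideanDomain.gcdB n B
    linear_combination -h3 - u * h1 - v * h2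
  set d := EuclideanDomain.gcd n B
  have hd : d ≠ 0 := by
    intro h0; rw [h0, zero_mul] at hn₁; exact hn hn₁
  have h1 : n₁ ^ p ∣ B₁ ^ p * f ^ m := by
    have : d ^ p * n₁ ^ p ∣ d ^ p * (B₁ ^ p * f ^ m) := by
      rw [← mul_assoc, ← mul_pow, ← mul_pow, ← hn₁, ← hB₁]; exact h
    exact (mul_dvd_mul_iff_left (pow_ne_zero p hd)).1 this
  have h2 : n₁ ^ p ∣ f ^ m := (hcop.pow (m := p) (n := p)).dvd_of_dvd_mul_left h1
  have hunit : IsUnit n₁ := by
    by_contra hu
    have hn₁0 : n₁ ≠ 0 := by rintro rfl; rw [mul_zero] at hn₁; exact hn hn₁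
    obtain ⟨q, hq, hqn⟩ := WfDvdMonoid.exists_irreducible_factor hu hn₁0
    have hqp : Prime q := hq.prime
    have key : ∀ j : ℕ, ¬ q ^ (j + 1) ∣ f ^ j := by
      intro j
      induction j with
      | zero => simpa using hqp.not_dvd_one
      | succ j ih =>
        intro hj
        rw [pow_succ' f] at hj
        exact ih (hf.pow_dvd_of_squarefree_of_pow_succ_dvd_mul_right hqp hj)
    exact key m ((pow_dvd_pow q hmp).trans ((pow_dvd_pow_of_dvd hqn p).trans h2))
  rw [hn₁, hB₁]
  exact mul_dvd_mul_left d hunit.dvd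

/-- Counting the fixed points of a `p⁻¹`-linear operator with a nonzero kernel. -/
lemma card_fixed [IsAlgClosed k] (p : ℕ) [hp : Fact p.Prime] [CharP k p] (g : ℕ)
    (Ψ : k[X] →ₗ[k] k[X]) (u₀ : k[X]) (hu₀ : u₀ ≠ 0) (hdeg : u₀.degree < g) (hΨ : Ψ u₀ = 0) :
    {u : k[X] | u.degree < g ∧ Ψ u = u ^ p}.encard ≤ (p : ℕ∞) ^ (g - 1) := by
  classical
  set L : Set k[X] := {u : k[X] | u.degree < g ∧ Ψ u = u ^ p} with hL
  obtain ⟨b, hbL, hspan, hli⟩ := exists_linearIndependent k L
  have hfin : Module.Finite k (degreeLT k g) := Module.Finite.equiv (degreeLTEquiv k g).symm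
  have hrank : Module.finrank k (degreeLT k g) = g := by
    rw [(degreeLTEquiv k g).finrank_eq]; simp
  have hbfin : b.Finite := by
    have h1 : LinearIndependent k
        (fun x : b => (⟨x.1, mem_degreeLT.2 (hbL x.2).1⟩ : degreeLT k g)) :=
      LinearIndependent.of_comp (degreeLT k g).subtype hli
    exact Set.finite_coe_iff.1 h1.finite
  have : Fintype b := hbfin.fintype
  -- the `p`-th powers stay linearly independent
  have hpow : ∀ c : b → k, ∑ i : b, c i • (i : k[X]) ^ p = 0 → ∀ i, c i = 0 := by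
    intro c hc
    have h1 : (∑ i : b, (frobeniusEquiv k p).symm (c i) • (i : k[X])) ^ p = 0 := by
      rw [sum_pow_char, ← hc]
      refine Finset.sum_congr rfl fun i _ => ?_
      rw [_root_.smul_pow, frobeniusEquiv_symm_pow_p]
    have h2 := Fintype.linearIndependent_iff.1 hli _ (pow_eq_zero_iff hp.out.ne_zero |>.1 h1)
    intro i
    simpa using h2 i
  have hΨsum : ∀ c : b → k, Ψ (∑ i : b, c i • (i : k[X])) = ∑ i : b, c i • (i : k[X]) ^ p := by
    intro c
    rw [map_sum]
    refine Finset.sum_congr rfl fun i _ => ?_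
    rw [map_smul, (hbL i.2).2]
  have hcard : Fintype.card b + 1 ≤ g := by
    have h1 : LinearIndependent k (fun x : Option b => (Option.casesOn' x u₀ (fun i : b => (i : k[X])) : k[X])) := by
      refine hli.option ?_
      intro hmem
      obtain ⟨c, hc⟩ := (Submodule.mem_span_range_iff_exists_fun k).1 hmem
      have h2 := hΨsum c
      rw [hc, hΨ] at h2
      have h3 := hpow c h2.symm
      apply hu₀
      rw [← hc]; simp [h3]
    have h2 : LinearIndependent k (fun x : Option b =>
        (⟨Option.casesOn' x u₀ (fun i : b => (i : k[X])), by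
          cases x with
          | none => exact mem_degreeLT.2 hdeg
          | some i => exact mem_degreeLT.2 (hbL i.2).1⟩ : degreeLT k g)) :=
      LinearIndependent.of_comp (degreeLT k g).subtype h1
    have h3 := h2.fintype_card_le_finrank
    rwa [hrank, Fintype.card_option] at h3
  set F : Finset k := (X ^ p - X : k[X]).roots.toFinset with hF
  have hne : (X ^ p - X : k[X]) ≠ 0 := FiniteField.X_pow_card_sub_X_ne_zero k hp.out.one_lt
  have hFcard : F.card ≤ p := by
    refine (Multiset.toFinset_card_le _).trans ((card_roots' _).trans ?_)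
    exact (FiniteField.X_pow_card_sub_X_natDegree_eq k hp.out.one_lt).le
  have hsub : L ⊆ ((Fintype.piFinset (fun _ : b => F)).image
      (fun c : b → k => ∑ i : b, c i • (i : k[X])) : Finset k[X]) := by
    intro u hu
    have hmem : u ∈ Submodule.span k (Set.range (fun i : b => (i : k[X]))) := by
      rw [Subtype.range_coe, hspan]; exact Submodule.subset_span hu
    obtain ⟨c, hc⟩ := (Submodule.mem_span_range_iff_exists_fun k).1 hmem
    have h1 := hΨsum c
    rw [hc, hu.2, ← hc, sum_pow_char] at h1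
    have h2 := hpow (fun i => c i ^ p - c i) (by
      simp only [sub_smul, Finset.sum_sub_distrib]
      rw [← h1]
      simp only [_root_.smul_pow, sub_self])
    simp only [Finset.coe_image, Set.mem_image, Finset.mem_coe, Fintype.mem_piFinset]
    refine ⟨c, fun i => ?_, hc⟩
    rw [hF, Multiset.mem_toFinset, mem_roots hne]
    simpa using h2 i
  refine (Set.encard_le_encard hsub).trans ?_
  rw [Set.encard_coe_eq_coe_finsetCard]
  have h4 : ((Fintype.piFinset (fun _ : b => F)).image
      (fun c : b → k => ∑ i : b, c i • (i : k[X]))).card ≤ p ^ (g - 1) := by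
    refine Finset.card_image_le.trans ?_
    rw [Fintype.card_piFinset, Finset.prod_const, Finset.card_univ]
    exact (Nat.pow_le_pow_left hFcard _).trans (Nat.pow_le_pow_right hp.out.pos (by omega))
  exact_mod_cast h4

end Pool.Agent.Lib.MP_2ca583_ag
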