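import Pool.Agent.Lib.MP_2ca583_ag.JBase
import Pool.Agent.Lib.MP_2ca583_ag.Poly

set_option autoImplicit false

open Polynomial TensorProduct

universe u

namespace Pool.Agent.Lib.MP_2ca583_ag.Jac

variable {k : Type u} [Field k]

lemma alg_cartier {K : Type*} [Field K] (p : ℕ) [hp : Fact p.Prime] [CharP K p]
    (Q β : K[X]) (h0 : Q.eval 0 ≠ 0) (hd : X ^ p ∣ derivative Q - β * Q) :
    β.coeff (p - 1) = (β.coeff 0) ^ p := by
  let L := AlgebraicClosure K
  have : CharP L p := charP_of_injective_algebraMap (algebraMap K L).injective p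
  have h := logDeriv_coeff (k := L) p _ (Q.map (algebraMap K L)) (β.map (algebraMap K L)) rfl
    (by
      rw [← coeff_zero_eq_eval_zero, coeff_map, coeff_zero_eq_eval_zero]
      exact (map_ne_zero_iff _ (algebraMap K L).injective).2 h0)
    (by
      have := Polynomial.map_dvd (algebraMap K L) hd
      simpa [derivative_map] using this)
  rw [coeff_map, coeff_map, ← map_pow] at h
  exact (algebraMap K L).injective h

lemma alg_solve {K : Type*} [Field K] (p : ℕ) [CharP K p] (H : K[X]) (c₀ : K) (n : ℕ)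
    (hn : n < p) : ∃ W : K[X], W.coeff 0 = c₀ ∧ X ^ n ∣ derivative W + H * W := by
  induction n with
  | zero => exact ⟨C c₀, coeff_C_zero, by simp⟩
  | succ n ih =>
    obtain ⟨W, hW, E, hE⟩ := ih (by omega)
    have hne : ((n + 1 : ℕ) : K) ≠ 0 := fun h =>
      absurd (Nat.le_of_dvd (Nat.succ_pos n) ((CharP.cast_eq_zero_iff K p _).1 h)) (by omega)
    set c : K := -E.coeff 0 / ((n + 1 : ℕ) : K) with hc
    have hc' : C c * ((n : K[X]) + 1) = -C (E.coeff 0) := by
      have : c * ((n + 1 : ℕ) : K) = -E.coeff 0 := by rw [hc]; field_simp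
      have h2 := congrArg (C : K → K[X]) this
      simpa using h2
    refine ⟨W + C c * X ^ (n + 1), by simp [hW], divX E + C c * H, ?_⟩
    have h1 := X_mul_divX_add E
    rw [derivative_add, derivative_C_mul, derivative_X_pow_succ]
    simp only [map_add, map_natCast, map_one]
    linear_combination hE + X ^ n * hc' - X ^ n * h1

lemma alg_coeff_mem {K : Type u} [Field K] [Algebra k K] (p : ℕ) [CharP k p] (O : Subalgebra k K)
    (S Z : K[X]) (hS : ∀ i, S.coeff i ∈ O) (h0 : Z.coeff 0 ∈ O)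
    (hd : X ^ (p - 1) ∣ derivative Z - S * Z) (i : ℕ) : i < p → Z.coeff i ∈ O := by
  induction i using Nat.strong_induction_on with
  | _ i ih =>
  intro hi
  rcases i with _ | i
  · exact h0
  have h1 := X_pow_dvd_iff.1 hd i (by omega)
  rw [coeff_sub, coeff_derivative, sub_eq_zero, coeff_mul] at h1
  have hne : ((i + 1 : ℕ) : k) ≠ 0 := fun h =>
    absurd (Nat.le_of_dvd (Nat.succ_pos i) ((CharP.cast_eq_zero_iff k p _).1 h)) (by omega)
  have h2 : Z.coeff (i + 1) * ((i : K) + 1) ∈ O := by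
    rw [h1]
    refine O.sum_mem fun x hx => O.mul_mem (hS _) (ih _ ?_ ?_)
    · have := Finset.HasAntidiagonal.mem_antidiagonal.1 hx
      omega
    · have := Finset.HasAntidiagonal.mem_antidiagonal.1 hx
      omega
  have h3 : algebraMap k K (((i + 1 : ℕ) : k)⁻¹) * ((i : K) + 1) = 1 := by
    have : ((i : K) + 1) = algebraMap k K ((i + 1 : ℕ) : k) := by simp
    rw [this, ← map_mul, inv_mul_cancel₀ hne, map_one]
  have h4 := O.mul_mem (O.algebraMap_mem (((i + 1 : ℕ) : k)⁻¹)) h2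
  rwa [mul_left_comm, h3, mul_one] at h4

lemma alg_t_pow (p : ℕ) : (AdjoinRoot.root (X ^ p - 1 : k[X])) ^ p = 1 := by
  have := AdjoinRoot.eval₂_root (X ^ p - 1 : k[X])
  simpa [sub_eq_zero] using this

/-- The map `t ↦ c`. -/
noncomputable def algA {p : ℕ} {C : Type u} [CommRing C] [Algebra k C] (c : C) (hc : c ^ p = 1) :
    Mu k p →ₐ[k] C :=
  AdjoinRoot.liftAlgHom _ (Algebra.ofId k C) c (by simp [hc])

lemma algA_root {p : ℕ} {C : Type u} [CommRing C] [Algebra k C] (c : C) (hc : c ^ p = 1) :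
    algA (k := k) c hc (AdjoinRoot.root _) = c := by
  simp [algA]

lemma alg_mu_mem {p : ℕ} {C : Type u} [CommRing C] [Algebra k C] (f : Mu k p →ₐ[k] C)
    (S : Subalgebra k C) (h : f (AdjoinRoot.root _) ∈ S) (a : Mu k p) : f a ∈ S := by
  have h1 : (⊤ : Subalgebra k (Mu k p)) ≤ S.comap f := by
    rw [← AdjoinRoot.adjoinRoot_eq_top]
    exact Algebra.adjoin_le (Set.singleton_subset_iff.2 h)
  exact h1 Algebra.mem_top

section Lift

variable {K : Type u} [Field K] [Algebra k K]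

/-- Extension to `K ⊗ A` of a map to a `K`-algebra. -/
noncomputable def algO (K : Type u) [Field K] [Algebra k K] {C : Type u} [CommRing C]
    [Algebra k C] [Algebra K C] [IsScalarTower k K C] {A : Type u} [CommRing A] [Algebra k A]
    (f : A →ₐ[k] C) : K ⊗[k] A →ₐ[K] C :=
  Algebra.TensorProduct.lift (Algebra.ofId K C) f fun _ _ => Commute.all _ _

variable {C : Type u} [CommRing C] [Algebra k C] [Algebra K C] [IsScalarTower k K C]
  {A : Type u} [CommRing A] [Algebra k A]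

lemma algO_tmul (f : A →ₐ[k] C) (x : K) (a : A) :
    algO K f (x ⊗ₜ a) = algebraMap K C x * f a := by
  simp [algO, Algebra.ofId_apply]

lemma algO_ext {B : Type u} [CommRing B] [Algebra k B] (f : B →ₐ[k] C) (φ : A →ₐ[k] B)
    (z : K ⊗[k] A) : algO K f (ext K φ z) = algO K (f.comp φ) z := by
  induction z using TensorProduct.induction_on with
  | zero => simp
  | tmul x a => simp [ext, algO_tmul]
  | add a b ha hb => rw [map_add, map_add, map_add, ha, hb]

lemma algO_mem (f : A →ₐ[k] C) (O : Subalgebra k K) (S : Subalgebra k C)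
    (h1 : ∀ o ∈ O, algebraMap K C o ∈ S) (h2 : ∀ a, f a ∈ S) {z : K ⊗[k] A}
    (hz : z ∈ Sub O A) : algO K f z ∈ S := by
  obtain ⟨w, rfl⟩ := hz
  induction w using TensorProduct.induction_on with
  | zero => simp
  | tmul o a =>
    have : (Algebra.TensorProduct.map O.val (AlgHom.id k A)).toRingHom (o ⊗ₜ a)
        = (o : K) ⊗ₜ a := rfl
    rw [this, algO_tmul]
    exact S.mul_mem (h1 _ o.2) (h2 a)
  | add a b ha hb => rw [map_add, map_add]; exact S.add_mem ha hb

lemma alg_tmul_mem (O : Subalgebra k K) {o : K} (ho : o ∈ O) (a : A) : o ⊗ₜ a ∈ Sub O A :=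
  ⟨(⟨o, ho⟩ : O) ⊗ₜ a, rfl⟩

lemma alg_algebraMap_mem (O : Subalgebra k K) {o : K} (ho : o ∈ O) :
    algebraMap K (K ⊗[k] A) o ∈ Sub O A := alg_tmul_mem O ho 1

lemma algO_id (z : K ⊗[k] A) : algO K Algebra.TensorProduct.includeRight z = z := by
  induction z using TensorProduct.induction_on with
  | zero => simp
  | tmul x a => simp [algO_tmul]
  | add a b ha hb => rw [map_add, ha, hb]

end Lift

section Dual

open TrivSqZeroExt

variable {C : Type u} [CommRing C]

lemma alg_dual_pow (p : ℕ) (hp : (p : C) = 0) (c d : C) (hc : c ^ p = 1) :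
    (inl c + inr d : DualNumber C) ^ p = 1 := by
  refine TrivSqZeroExt.ext ?_ ?_
  · simp [hc]
  · rw [snd_pow, nsmul_eq_mul, hp, zero_mul]
    rfl

lemma alg_dual_aeval {K : Type u} [Field K] [Algebra K C] (x y : C) (Q : K[X]) :
    (aeval (inl x + inr y : DualNumber C) Q).fst = aeval x Q ∧
      (aeval (inl x + inr y : DualNumber C) Q).snd = aeval x (derivative Q) * y := by
  have h1 : ∀ P : K[X], aeval (inl x : DualNumber C) P = inl (aeval x P) := fun P =>
    aeval_algHom_apply (inlAlgHom K C C) x P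
  rw [aeval_add_of_sq_eq_zero _ _ _ (by rw [pow_two, inr_mul_inr]), h1, h1]
  constructor <;> simp [mul_comm]

/-- Dual numbers with both components in a subalgebra. -/
def algPair [Algebra k C] (S : Subalgebra k C) : Subalgebra k (DualNumber C) where
  carrier := {z | z.fst ∈ S ∧ z.snd ∈ S}
  mul_mem' := fun {a b} ha hb => ⟨by rw [fst_mul]; exact S.mul_mem ha.1 hb.1, by
    rw [DualNumber.snd_mul]; exact S.add_mem (S.mul_mem ha.1 hb.2) (S.mul_mem ha.2 hb.1)⟩
  add_mem' := fun {a b} ha hb => ⟨S.add_mem ha.1 hb.1, S.add_mem ha.2 hb.2⟩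
  algebraMap_mem' := fun r => ⟨S.algebraMap_mem r, S.zero_mem⟩

end Dual

section Main

open TrivSqZeroExt

variable (p : ℕ) [hp : Fact p.Prime] [CharP k p] (K : Type u) [Field K] [Algebra k K]

/-- The nilpotent parameter `t - 1`. -/
noncomputable def algTau : K ⊗[k] Mu k p := (1 : K) ⊗ₜ AdjoinRoot.root _ - 1

omit hp [CharP k p] in
lemma algO_aeval {C : Type u} [CommRing C] [Algebra k C] [Algebra K C] [IsScalarTower k K C]
    (c : C) (hc : c ^ p = 1) (Q : K[X]) :
    algO K (algA (k := k) c hc) (aeval (algTau (k := k) p K) Q) = aeval (c - 1) Q := by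
  rw [← aeval_algHom_apply, algTau, map_sub, algO_tmul, algA_root, map_one, map_one, one_mul]

omit hp in
lemma alg_cast (C : Type u) [CommRing C] [Algebra k C] : (p : C) = 0 := by
  rw [← map_natCast (algebraMap k C), CharP.cast_eq_zero, map_zero]

lemma alg_add_pow {C : Type u} [CommRing C] [Algebra k C] (x y : C) :
    (x + y) ^ p = x ^ p + y ^ p := by
  obtain ⟨r, hr⟩ := exists_add_pow_prime_eq hp.out x y
  rw [hr, alg_cast (k := k) p C]
  ring

lemma algTau_pow : algTau (k := k) p K ^ p = 0 := by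
  have h := alg_add_pow (k := k) p (algTau (k := k) p K) 1
  rw [algTau, sub_add_cancel, Algebra.TensorProduct.tmul_pow, alg_t_pow, one_pow, one_pow,
    ← Algebra.TensorProduct.one_def] at h
  rw [algTau]
  linear_combination -h

lemma alg_dvd {Q : K[X]} (h : aeval (algTau (k := k) p K) Q = 0) : X ^ p ∣ Q := by
  have hr : (AdjoinRoot.root (X ^ p : K[X])) ^ p = 0 := by
    simpa using AdjoinRoot.eval₂_root (X ^ p : K[X])
  have hc : (AdjoinRoot.root (X ^ p : K[X]) + 1) ^ p = 1 := by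
    rw [alg_add_pow (k := k) p, hr, one_pow, zero_add]
  have h1 := algO_aeval (k := k) p K _ hc Q
  rw [h, map_zero, add_sub_cancel_right, AdjoinRoot.aeval_eq] at h1
  exact AdjoinRoot.mk_eq_zero.1 h1.symm

omit hp [CharP k p] in
lemma alg_sub_rep (O : Subalgebra k K) {z : K ⊗[k] Mu k p} (hz : z ∈ Sub O (Mu k p)) :
    ∃ Q : O[X], aeval (algTau (k := k) p K) (Q.map (O.val : O →+* K)) = z := by
  have h := algO_mem (K := K) Algebra.TensorProduct.includeRight O
    (((aeval (algTau (k := k) p K)).restrictScalars k).comp (mapAlgHom O.val)).range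
    (fun o ho => ⟨C ⟨o, ho⟩, by simp⟩)
    (alg_mu_mem _ _ ⟨X + 1, by simp [algTau]⟩) hz
  rw [algO_id] at h
  obtain ⟨Q, hQ⟩ := h
  exact ⟨Q, hQ⟩

omit hp [CharP k p] in
lemma alg_rep (z : K ⊗[k] Mu k p) : ∃ Q : K[X], aeval (algTau (k := k) p K) Q = z := by
  have hz : z ∈ Sub (⊤ : Subalgebra k K) (Mu k p) := by
    induction z using TensorProduct.induction_on with
    | zero => exact Subalgebra.zero_mem _
    | tmul x a => exact alg_tmul_mem _ Algebra.mem_top a
    | add a b ha hb => exact Subalgebra.add_mem _ ha hb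
  obtain ⟨Q, hQ⟩ := alg_sub_rep p K ⊤ hz
  exact ⟨_, hQ⟩

lemma alg_aeval_mem (O : Subalgebra k K) (Z : K[X]) (h : ∀ i < p, Z.coeff i ∈ O) :
    aeval (algTau (k := k) p K) Z ∈ Sub O (Mu k p) := by
  rw [aeval_eq_sum_range]
  refine Subalgebra.sum_mem _ fun i _ => ?_
  rw [Algebra.smul_def]
  by_cases hi : i < p
  · refine Subalgebra.mul_mem _ (alg_algebraMap_mem O (h i hi)) (Subalgebra.pow_mem _ ?_ i)
    exact Subalgebra.sub_mem _ (alg_tmul_mem O O.one_mem _) (Subalgebra.one_mem _)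
  · rw [pow_eq_zero_of_le (not_lt.1 hi) (algTau_pow p K), mul_zero]
    exact Subalgebra.zero_mem _

lemma alg_aeval_pow (Z : K[X]) :
    aeval (algTau (k := k) p K) Z ^ p = algebraMap K _ (Z.coeff 0 ^ p) := by
  conv_lhs => rw [← X_mul_divX_add Z]
  rw [map_add, alg_add_pow (k := k) p, map_mul, mul_pow, aeval_X, algTau_pow, zero_mul, zero_add,
    aeval_C, map_pow]

/-- The first order jet at `t = 1`. -/
noncomputable def algDel : K ⊗[k] Mu k p →ₐ[K] DualNumber K :=
  algO K (algA (k := k) (inl 1 + inr 1) (alg_dual_pow p (alg_cast (k := k) p K) 1 1 (one_pow p)))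

omit hp in
lemma algDel_aeval (Q : K[X]) :
    (algDel p K (aeval (algTau (k := k) p K) Q)).fst = Q.coeff 0 ∧
      (algDel p K (aeval (algTau (k := k) p K) Q)).snd = Q.coeff 1 := by
  have e : (inl 1 + inr 1 - 1 : DualNumber K) = inl 0 + inr 1 := by
    rw [inl_one, inl_zero]; ring
  rw [algDel, algO_aeval, e]
  obtain ⟨h1, h2⟩ := alg_dual_aeval (K := K) (0 : K) 1 Q
  rw [h1, h2, ← coeff_zero_eq_aeval_zero, ← coeff_zero_eq_aeval_zero, coeff_derivative]
  simp

omit hp in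
lemma algDel_mem (O : Subalgebra k K) {z : K ⊗[k] Mu k p} (hz : z ∈ Sub O (Mu k p)) :
    algDel p K z ∈ algPair O :=
  algO_mem _ O (algPair O) (fun _ ho => ⟨ho, O.zero_mem⟩)
    (alg_mu_mem _ _ (by
      rw [algA_root]
      exact ⟨by simp, by simp⟩)) hz

omit hp in
lemma algDel_unit (v : (K ⊗[k] Mu k p)ˣ) :
    (algDel p K (v : K ⊗[k] Mu k p)).fst
      * (algDel p K ((v⁻¹ : (K ⊗[k] Mu k p)ˣ) : K ⊗[k] Mu k p)).fst = 1 := by
  rw [← fst_mul, ← map_mul, Units.mul_inv, map_one, fst_one]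

/-- The tangent invariant. -/
noncomputable def algInv (v : (K ⊗[k] Mu k p)ˣ) : K :=
  (algDel p K (v : K ⊗[k] Mu k p)).snd / (algDel p K (v : K ⊗[k] Mu k p)).fst

omit hp in
lemma algInv_mul (v w : (K ⊗[k] Mu k p)ˣ) : algInv p K (v * w) = algInv p K v + algInv p K w := by
  have h1 := left_ne_zero_of_mul_eq_one (algDel_unit p K v)
  have h2 := left_ne_zero_of_mul_eq_one (algDel_unit p K w)
  simp only [algInv, Units.val_mul, map_mul, fst_mul, DualNumber.snd_mul]
  field_simp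
  ring

lemma alg_ring {C : Type u} [CommRing C] (g0 g1 s0 s1 g' s' q0 a w : C) (h4 : g0 * s0 * q0 = 1)
    (hs : s0 * s' = 1) (hg : g0 * g' = 1) :
    g0 * s0 * w * (a * q0) + (g0 * s1 + g1 * s0) * w * q0 = (g1 * g' + s1 * s' + a) * w := by
  linear_combination (w * a + w * s1 * s' + w * g1 * g') * h4
    - (w * g0 * s1 * q0) * hs - (w * g1 * s0 * q0) * hg

omit hp in
lemma alg_key {I : Type u} {O : I → Subalgebra k K} {v : I → (K ⊗[k] Mu k p)ˣ} (h : Mult O v) :
    ∃ (G : K ⊗[k] Mu k p) (g₀ : K), ∀ x, ∀ Q : K[X], aeval (algTau (k := k) p K) Q = v x →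
      (∃ s ∈ Sub (O x) (Mu k p), aeval (algTau (k := k) p K) ((1 + X) * derivative Q)
        = (G + s + algebraMap K _ (algInv p K (v x))) * v x) ∧
      g₀ * Q.coeff 0 ∈ O x ∧ ∃ s₀ ∈ O x, g₀ * Q.coeff 0 * s₀ = 1 := by
  obtain ⟨γ, hγ⟩ := h
  set T : K ⊗[k] Mu k p := (1 : K) ⊗ₜ AdjoinRoot.root _ with hT
  have hTp : T ^ p = 1 := by
    rw [hT, Algebra.TensorProduct.tmul_pow, alg_t_pow, one_pow, Algebra.TensorProduct.one_def]
  have hc0 := alg_cast (k := k) p (K ⊗[k] Mu k p)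
  have hc := alg_dual_pow p hc0 T 0 hTp
  have hd := alg_dual_pow p hc0 1 1 (one_pow p)
  have hcd := alg_dual_pow p hc0 T T hTp
  let f : Mu k p ⊗[k] Mu k p →ₐ[k] DualNumber (K ⊗[k] Mu k p) :=
    Algebra.TensorProduct.lift (algA (k := k) _ hc) (algA (k := k) _ hd)
      fun _ _ => Commute.all _ _
  have f1 : f.comp (comul k p) = algA (k := k) _ hcd := by
    refine AdjoinRoot.algHom_ext ?_
    rw [algA_root]
    refine TrivSqZeroExt.ext ?_ ?_ <;> simp [f, comul, muLift, algA_root]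
  have f2 : f.comp Algebra.TensorProduct.includeLeft = algA (k := k) _ hc := by
    refine AdjoinRoot.algHom_ext ?_
    simp [f]
  have f3 : f.comp Algebra.TensorProduct.includeRight = algA (k := k) _ hd := by
    refine AdjoinRoot.algHom_ext ?_
    simp [f]
  have hmem : ∀ (O : Subalgebra k K) z, z ∈ Sub O (Mu k p ⊗[k] Mu k p) →
      algO K f z ∈ algPair (Sub O (Mu k p)) := by
    intro O z hz
    refine algO_mem f O (algPair (Sub O (Mu k p))) (fun o ho => ⟨alg_algebraMap_mem O ho, Subalgebra.zero_mem _⟩)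
      (fun a => ?_) hz
    induction a using TensorProduct.induction_on with
    | zero => rw [map_zero]; exact Subalgebra.zero_mem _
    | tmul a b =>
      rw [Algebra.TensorProduct.lift_tmul]
      refine Subalgebra.mul_mem _ (alg_mu_mem _ _ ?_ a) (alg_mu_mem _ _ ?_ b)
      · rw [algA_root]
        exact ⟨by simpa using alg_tmul_mem O O.one_mem _, by simp⟩
      · rw [algA_root]
        exact ⟨by simp, by simp⟩
    | add a b ha hb => rw [map_add]; exact Subalgebra.add_mem _ ha hb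
  let η : K ⊗[k] Mu k p →ₐ[K] K := algO K (algA (k := k) (1 : K) (one_pow p))
  have hη : ∀ (O : Subalgebra k K) z, z ∈ Sub O (Mu k p) → η z ∈ O := fun O z hz =>
    algO_mem _ O O (fun _ ho => ho) (alg_mu_mem _ _ (by rw [algA_root]; exact O.one_mem)) hz
  have hinv : ∀ u : (K ⊗[k] (Mu k p ⊗[k] Mu k p))ˣ, (algO K f (u : _)).fst *
      (algO K f ((u⁻¹ : (K ⊗[k] (Mu k p ⊗[k] Mu k p))ˣ) : _)).fst = 1 := fun u => by
    rw [← fst_mul, ← map_mul, Units.mul_inv, map_one, fst_one]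
  refine ⟨(algO K f γ).snd * (algO K f ((γ⁻¹ : (K ⊗[k] (Mu k p ⊗[k] Mu k p))ˣ) : _)).fst,
    η (algO K f γ).fst, fun x Q hQ => ?_⟩
  obtain ⟨σ, ⟨hσ, hσ'⟩, he⟩ := hγ x
  have h1 := congrArg (algO K f) he
  rw [map_mul, map_mul, map_mul, algO_ext, algO_ext, algO_ext, f1, f2, f3, ← hQ, algO_aeval,
    algO_aeval, algO_aeval] at h1
  have e1 : (inl T + inr T - 1 : DualNumber (K ⊗[k] Mu k p))
      = inl (algTau (k := k) p K) + inr T := by
    rw [algTau, inl_sub, inl_one]; ring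
  have e2 : (inl T + inr 0 - 1 : DualNumber (K ⊗[k] Mu k p))
      = inl (algTau (k := k) p K) + inr 0 := by
    rw [algTau, inl_sub, inl_one]; ring
  have e3 : (inl 1 + inr 1 - 1 : DualNumber (K ⊗[k] Mu k p)) = inl 0 + inr 1 := by
    rw [inl_one, inl_zero]; ring
  rw [e1, e2, e3] at h1
  have h2 := congrArg fst h1
  have h3 := congrArg snd h1
  simp only [fst_mul, DualNumber.snd_mul, alg_dual_aeval, mul_zero, mul_one, zero_add] at h2 h3
  rw [hQ, ← coeff_zero_eq_aeval_zero'] at h2 h3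
  rw [← coeff_zero_eq_aeval_zero', coeff_derivative, Nat.cast_zero, zero_add, zero_add,
    mul_one] at h3
  have hg := hinv γ
  have hs := hinv σ
  have hm1 := (hmem _ _ hσ).1
  have hm2 := (hmem _ _ hσ).2
  have hm3 := (hmem _ _ hσ').1
  generalize (algO K f γ).fst = g0 at h2 h3 hg ⊢
  generalize (algO K f γ).snd = g1 at h3 ⊢
  generalize (algO K f σ).fst = s0 at h2 h3 hs hm1
  generalize (algO K f σ).snd = s1 at h3 hm2
  generalize (algO K f ((γ⁻¹ : (K ⊗[k] (Mu k p ⊗[k] Mu k p))ˣ) : _)).fst = g' at hg ⊢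
  generalize (algO K f ((σ⁻¹ : (K ⊗[k] (Mu k p ⊗[k] Mu k p))ˣ) : _)).fst = s' at hs hm3
  have h4 : g0 * s0 * algebraMap K _ (Q.coeff 0) = 1 := by
    apply (v x).isUnit.mul_left_cancel
    linear_combination -h2
  have h5 : η g0 * η s0 * Q.coeff 0 = 1 := by
    have := congrArg η h4
    rwa [map_mul, map_mul, AlgHom.commutes, map_one] at this
  have h6 : η s0 * η s' = 1 := by rw [← map_mul, hs, map_one]
  have hQ0 : Q.coeff 0 ≠ 0 := right_ne_zero_of_mul_eq_one h5
  have h7 : algebraMap K (K ⊗[k] Mu k p) (algInv p K (v x)) * algebraMap K _ (Q.coeff 0)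
      = algebraMap K _ (Q.coeff 1) := by
    rw [← map_mul, algInv, ← hQ, (algDel_aeval p K Q).1, (algDel_aeval p K Q).2,
      div_mul_cancel₀ _ hQ0]
  refine ⟨⟨s1 * s', Subalgebra.mul_mem _ hm2 hm3, ?_⟩, ?_,
    η s0, hη _ _ hm1, by linear_combination h5⟩
  · have e4 : 1 + algTau (k := k) p K = T := by rw [algTau]; ring
    rw [map_mul, map_add, map_one, aeval_X, e4, mul_comm T, h3, ← h7]
    exact alg_ring _ _ _ _ _ _ _ _ _ h4 hs hg
  · have : η g0 * Q.coeff 0 = η s' := by linear_combination η s' * h5 - η g0 * Q.coeff 0 * h6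
    rw [this]
    exact hη _ _ hm3

lemma alg_key' {I : Type u} {O : I → Subalgebra k K} {v : I → (K ⊗[k] Mu k p)ˣ} (h : Mult O v) :
    ∃ (G : K[X]) (g₀ : K), ∀ x, ∃ (Q : K[X]) (S : (O x)[X]),
      aeval (algTau (k := k) p K) Q = v x ∧ Q.coeff 1 = algInv p K (v x) * Q.coeff 0 ∧
      X ^ p ∣ derivative Q - (1 + X) ^ (p - 1)
        * (G + S.map ((O x).val : O x →+* K) + C (algInv p K (v x))) * Q ∧
      g₀ * Q.coeff 0 ∈ O x ∧ ∃ s₀ ∈ O x, g₀ * Q.coeff 0 * s₀ = 1 := by
  have : CharP K p := charP_of_injective_algebraMap (algebraMap k K).injective p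
  obtain ⟨G, g₀, hG⟩ := alg_key p K h
  obtain ⟨GQ, rfl⟩ := alg_rep p K G
  refine ⟨GQ, g₀, fun x => ?_⟩
  obtain ⟨Q, hQ⟩ := alg_rep p K (v x : K ⊗[k] Mu k p)
  obtain ⟨⟨s, hs, he⟩, h2, s₀, hs₀, h3⟩ := hG x Q hQ
  obtain ⟨S, rfl⟩ := alg_sub_rep p K (O x) hs
  have hQ0 : Q.coeff 0 ≠ 0 := right_ne_zero_of_mul (left_ne_zero_of_mul_eq_one h3)
  refine ⟨Q, S, hQ, ?_, ?_, h2, s₀, hs₀, h3⟩
  · rw [algInv, ← hQ, (algDel_aeval p K Q).1, (algDel_aeval p K Q).2, div_mul_cancel₀ _ hQ0]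
  · obtain ⟨E, hE⟩ : X ^ p ∣ (1 + X) * derivative Q
        - (GQ + S.map ((O x).val : O x →+* K) + C (algInv p K (v x))) * Q := by
      apply alg_dvd (k := k) p K
      rw [map_sub, he, map_mul, map_add, map_add, aeval_C, hQ, sub_self]
    have h4 : (1 + X : K[X]) ^ (p - 1) * (1 + X) = 1 + X ^ p := by
      rw [← pow_succ, Nat.sub_add_cancel hp.out.pos, add_pow_char, one_pow]
    refine ⟨(1 + X) ^ (p - 1) * E - derivative Q, ?_⟩
    linear_combination (1 + X) ^ (p - 1) * hE - derivative Q * h4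

omit hp [CharP k p] in
lemma alg_mult_div {I : Type u} {O : I → Subalgebra k K} {v v' : I → (K ⊗[k] Mu k p)ˣ}
    (h : Mult O v) (h' : Mult O v') : Mult O fun x => v x * (v' x)⁻¹ := by
  obtain ⟨γ, hγ⟩ := h
  obtain ⟨γ', hγ'⟩ := h'
  refine ⟨γ * γ'⁻¹, fun x => ?_⟩
  obtain ⟨σ, hσ, he⟩ := hγ x
  obtain ⟨σ', hσ', he'⟩ := hγ' x
  refine ⟨σ * σ'⁻¹, hσ.mul hσ'.inv, ?_⟩
  let m := Units.map (ext K (comul k p)).toRingHom.toMonoidHom
  let l := Units.map (ext K (Algebra.TensorProduct.includeLeft :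
    Mu k p →ₐ[k] Mu k p ⊗[k] Mu k p)).toRingHom.toMonoidHom
  let r := Units.map (ext K (Algebra.TensorProduct.includeRight :
    Mu k p →ₐ[k] Mu k p ⊗[k] Mu k p)).toRingHom.toMonoidHom
  have h1 : m (v x) = γ * σ * l (v x) * r (v x) := Units.ext he
  have h2 : m (v' x) = γ' * σ' * l (v' x) * r (v' x) := Units.ext he'
  have h3 : m (v x * (v' x)⁻¹)
      = γ * γ'⁻¹ * (σ * σ'⁻¹) * l (v x * (v' x)⁻¹) * r (v x * (v' x)⁻¹) := by
    have key : ∀ {G : Type u} [CommGroup G] (a b c d a' b' c' d' : G),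
        a * b * c * d * (a' * b' * c' * d')⁻¹
          = a * a'⁻¹ * (b * b'⁻¹) * (c * c'⁻¹) * (d * d'⁻¹) := by
      intro G _ a b c d a' b' c' d'
      simp only [mul_inv]
      ac_rfl
    rw [map_mul, map_mul, map_mul, map_inv, map_inv, map_inv, h1, h2]
    exact key _ _ _ _ _ _ _ _
  exact congrArg Units.val h3

end Main

/-- The tangent invariant `u₁ / u₀` of a unit `u₀ + u₁ (t - 1) + ⋯` and its properties. -/
theorem exists_inv (p : ℕ) [Fact p.Prime] [CharP k p] (K : Type u) [Field K] [Algebra k K] :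
    ∃ a : (K ⊗[k] Mu k p)ˣ → K,
      (∀ v w, a (v * w) = a v + a w) ∧
      (∀ (O : Subalgebra k K) (v : (K ⊗[k] Mu k p)ˣ), IsU (Sub O (Mu k p)) v → a v ∈ O) ∧
      (∀ (I : Type u) (O : I → Subalgebra k K) (v : I → (K ⊗[k] Mu k p)ˣ), Mult O v →
        ∃ γ : K, ∀ x, a (v x) ^ p - a (v x) - γ ∈ O x) ∧
      (∀ (I : Type u) (O : I → Subalgebra k K) (v v' : I → (K ⊗[k] Mu k p)ˣ), Mult O v →
        Mult O v' → (∃ κ : K, ∀ x, a (v x) - a (v' x) - κ ∈ O x) →
        ∃ w : (K ⊗[k] Mu k p)ˣ, ∀ x, IsU (Sub (O x) (Mu k p)) (v x * (v' x)⁻¹ * w)) := by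
  have : CharP K p := charP_of_injective_algebraMap (algebraMap k K).injective p
  have hp : p.Prime := Fact.out
  refine ⟨algInv p K, algInv_mul p K, fun O v hv => ?_, fun I O v hv => ?_,
    fun I O v v' hv hv' hκ => ?_⟩
  · rw [algInv, div_eq_mul_inv, ← eq_inv_of_mul_eq_one_right (algDel_unit p K v)]
    exact O.mul_mem (algDel_mem p K O hv.1).2 (algDel_mem p K O hv.2).1
  · obtain ⟨G, g₀, hG⟩ := alg_key' p K hv
    refine ⟨-((1 + X) ^ (p - 1) * G).coeff (p - 1) * (-1), fun x => ?_⟩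
    obtain ⟨Q, S, -, h1, h2, -, s₀, -, h3⟩ := hG x
    have hQ0 : Q.coeff 0 ≠ 0 := right_ne_zero_of_mul (left_ne_zero_of_mul_eq_one h3)
    have h4 := alg_cartier p Q _ (by rwa [← coeff_zero_eq_eval_zero]) h2
    have h5 := X_pow_dvd_iff.1 h2 0 hp.pos
    rw [coeff_sub, coeff_derivative, mul_coeff_zero, h1, Nat.cast_zero, zero_add, mul_one,
      sub_eq_zero] at h5
    rw [← mul_right_cancel₀ hQ0 h5, mul_add, mul_add, coeff_add, coeff_add, coeff_mul_C,
      coeff_one_add_X_pow, Nat.choose_self, Nat.cast_one, one_mul] at h4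
    have h6 : (1 + X) ^ (p - 1) * S.map ((O x).val : O x →+* K)
        = ((1 + X) ^ (p - 1) * S).map ((O x).val : O x →+* K) := by simp
    rw [h6, coeff_map] at h4
    have h7 : algInv p K (v x) ^ p - algInv p K (v x)
        - -((1 + X) ^ (p - 1) * G).coeff (p - 1) * (-1)
        = ((O x).val : O x →+* K) (((1 + X) ^ (p - 1) * S).coeff (p - 1)) := by
      linear_combination -h4
    rw [h7]
    exact Subtype.property _
  · obtain ⟨κ, hκ⟩ := hκ
    obtain ⟨G, g₀, hG⟩ := alg_key' p K (alg_mult_div p K hv hv')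
    obtain ⟨W, hW0, hW⟩ := alg_solve p ((1 + X) ^ (p - 1) * (G + C κ)) g₀ (p - 1)
      (Nat.sub_lt hp.pos one_pos)
    by_cases hg : g₀ = 0
    · refine ⟨1, fun x => ?_⟩
      obtain ⟨Q, S, -, -, -, -, s₀, -, h3⟩ := hG x
      rw [hg, zero_mul, zero_mul] at h3
      exact absurd h3 zero_ne_one
    have hWu : IsUnit (aeval (algTau (k := k) p K) W) := by
      refine (isUnit_pow_iff hp.ne_zero).1 ?_
      rw [alg_aeval_pow, hW0]
      exact (IsUnit.mk0 _ (pow_ne_zero p hg)).map _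
    refine ⟨hWu.unit, fun x => ?_⟩
    obtain ⟨Q, S, hQ, -, h2, h3, s₀, hs₀, h4⟩ := hG x
    have ha : algInv p K (v x * (v' x)⁻¹) - κ ∈ O x := by
      have h5 := algInv_mul p K (v x * (v' x)⁻¹) (v' x)
      rw [inv_mul_cancel_right] at h5
      have h6 := hκ x
      rwa [h5, add_sub_cancel_right] at h6
    have hZ : ∀ i < p, (Q * W).coeff i ∈ O x := by
      refine alg_coeff_mem p (O x)
        (((1 + X) ^ (p - 1) * (S + C (⟨_, ha⟩ : O x))).map ((O x).val : O x →+* K)) (Q * W)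
        (fun i => by rw [coeff_map]; exact Subtype.property _)
        (by rw [mul_coeff_zero, hW0, mul_comm]; exact h3) ?_
      have h5 := dvd_add (((pow_dvd_pow X (Nat.sub_le p 1)).trans h2).mul_right W)
        (hW.mul_left Q)
      convert h5 using 1
      simp only [Polynomial.map_mul, Polynomial.map_pow, Polynomial.map_add, Polynomial.map_one,
        map_X, map_C, derivative_mul]
      have : (C (((O x).val : O x →+* K) ⟨_, ha⟩) : K[X])
          = C (algInv p K (v x * (v' x)⁻¹)) - C κ := C_sub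
      rw [this]
      ring
    have hmem := alg_aeval_mem p K (O x) (Q * W) hZ
    have hval : ((v x * (v' x)⁻¹ * hWu.unit : (K ⊗[k] Mu k p)ˣ) : K ⊗[k] Mu k p)
        = aeval (algTau (k := k) p K) (Q * W) := by
      rw [Units.val_mul, ← hQ, map_mul, IsUnit.unit_spec]
    refine ⟨hval ▸ hmem, ?_⟩
    have hinv : (((v x * (v' x)⁻¹ * hWu.unit)⁻¹ : (K ⊗[k] Mu k p)ˣ) : K ⊗[k] Mu k p)
        = aeval (algTau (k := k) p K) (Q * W) ^ (p - 1) * algebraMap K _ (s₀ ^ p) := by
      refine Units.inv_eq_of_mul_eq_one_right ?_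
      rw [hval, ← mul_assoc, ← pow_succ', Nat.sub_add_cancel hp.pos, alg_aeval_pow, ← map_mul,
        ← mul_pow, mul_coeff_zero, hW0, mul_comm (Q.coeff 0), h4, one_pow, map_one]
    rw [hinv]
    exact Subalgebra.mul_mem _ (Subalgebra.pow_mem _ hmem _)
      (alg_algebraMap_mem (O x) ((O x).pow_mem hs₀ p))

end Pool.Agent.Lib.MP_2ca583_ag.Jac
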