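import Pool.Agent.Lib.MP_2ca583_ag.JBase

set_option autoImplicit false

open Polynomial

universe u

namespace Pool.Agent.Lib.MP_2ca583_ag.Jac

variable {k : Type u} [Field k]

/-- Fixed points of a `p`-linear map lying in a subspace spanned by `n` vectors. -/
theorem card_fix (p : ℕ) [Fact p.Prime] [CharP k p] {H : Type u} [AddCommGroup H] [Module k H]
    (F : H →+ H) (hF : ∀ (c : k) (v : H), F (c • v) = c ^ p • F v) (W : Submodule k H)
    [Module.Finite k W] (n : ℕ) (hn : Module.finrank k W ≤ n) :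
    {v : H | v ∈ W ∧ F v = v}.encard ≤ (p : ℕ∞) ^ n := by
  classical
  have hp : p.Prime := Fact.out
  set L : Set H := {v : H | v ∈ W ∧ F v = v} with hL
  obtain ⟨b, hbL, hspan, hli⟩ := exists_linearIndependent k L
  have h1 : LinearIndependent k (fun x : b => (⟨x.1, (hbL x.2).1⟩ : W)) :=
    LinearIndependent.of_comp W.subtype hli
  have hbfin : b.Finite := Set.finite_coe_iff.1 h1.finite
  have : Fintype b := hbfin.fintype
  have hcard : Fintype.card b ≤ n := h1.fintype_card_le_finrank.trans hn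
  set Z : Finset k := (X ^ p - X : k[X]).roots.toFinset with hZ
  have hne : (X ^ p - X : k[X]) ≠ 0 := FiniteField.X_pow_card_sub_X_ne_zero k hp.one_lt
  have hZcard : Z.card ≤ p := by
    refine (Multiset.toFinset_card_le _).trans ((card_roots' _).trans ?_)
    exact (FiniteField.X_pow_card_sub_X_natDegree_eq k hp.one_lt).le
  have hsub : L ⊆ ((Fintype.piFinset (fun _ : b => Z)).image
      (fun c : b → k => ∑ i : b, c i • (i : H)) : Finset H) := by
    intro u hu
    have hmem : u ∈ Submodule.span k (Set.range (fun i : b => (i : H))) := by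
      rw [Subtype.range_coe, hspan]; exact Submodule.subset_span hu
    obtain ⟨c, hc⟩ := (Submodule.mem_span_range_iff_exists_fun k).1 hmem
    have h2 : F u = ∑ i : b, c i ^ p • (i : H) := by
      rw [← hc, map_sum]
      refine Finset.sum_congr rfl fun i _ => ?_
      rw [hF, (hbL i.2).2]
    have h3 := Fintype.linearIndependent_iff.1 hli (fun i => c i ^ p - c i) (by
      simp only [sub_smul, Finset.sum_sub_distrib]
      have h4 : ∑ i : b, c i • (i : H) = u := hc
      have h5 : F u = u := hu.2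
      change ∑ i : b, c i ^ p • (i : H) - ∑ i : b, c i • (i : H) = 0
      rw [← h2, h4, h5, sub_self])
    simp only [Finset.coe_image, Set.mem_image, Finset.mem_coe, Fintype.mem_piFinset]
    refine ⟨c, fun i => ?_, hc⟩
    rw [hZ, Multiset.mem_toFinset, mem_roots hne]
    simpa using h3 i
  refine (Set.encard_le_encard hsub).trans ?_
  rw [Set.encard_coe_eq_coe_finsetCard]
  have h4 : ((Fintype.piFinset (fun _ : b => Z)).image
      (fun c : b → k => ∑ i : b, c i • (i : H))).card ≤ p ^ n := by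
    refine Finset.card_image_le.trans ?_
    rw [Fintype.card_piFinset, Finset.prod_const, Finset.card_univ]
    exact (Nat.pow_le_pow_left hZcard _).trans (Nat.pow_le_pow_right hp.pos hcard)
  exact_mod_cast h4

/-- Division by a power of `X`. -/
lemma cnt_split (P : k[X]) (n : ℕ) : ∃ Q r : k[X], r.degree < n ∧ P = X ^ n * Q + r := by
  have h : (X ^ n : k[X]).Monic := monic_X_pow n
  refine ⟨P /ₘ X ^ n, P %ₘ X ^ n, ?_, ?_⟩
  · simpa using degree_modByMonic_lt P h
  · rw [add_comm]; exact (modByMonic_add_div P (X ^ n)).symm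

section Count

variable {K : Type u} [Field K] [Algebra k K] {g : ℕ} {f : k[X]} {T y : K}

lemma cnt_T_ne (hK : HypF f T y) : T ≠ 0 := by
  simpa using hK.trans X X_ne_zero

lemma cnt_aeval_mem {R : Subalgebra k K} (hT : T ∈ R) (A : k[X]) : aeval T A ∈ R := by
  induction A using Polynomial.induction_on' with
  | add a b ha hb => rw [map_add]; exact R.add_mem ha hb
  | monomial n a =>
    rw [aeval_monomial]; exact R.mul_mem (R.algebraMap_mem a) (R.pow_mem hT n)

lemma cnt_memO (hK : HypF f T y) {O : Subalgebra k K} (hO : PInf k g T y O.toSubring)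
    {B C : k[X]} {n : ℕ} (hC : C ≠ 0) (hB : B.degree < n) (hn : n + g ≤ C.natDegree) :
    aeval T B * y / aeval T C ∈ O := by
  have hT := cnt_T_ne hK
  have h1 : (B * X ^ (g + 1)).natDegree ≤ C.natDegree := by
    by_cases h0 : B = 0
    · simp [h0]
    · have h2 : B.natDegree < n := (natDegree_lt_iff_degree_lt h0).2 hB
      have h3 := natDegree_mul_le (p := B) (q := X ^ (g + 1))
      rw [natDegree_X_pow] at h3
      omega
  have h2 := O.mul_mem (hO.1 _ C hC h1) hO.2
  have h3 := hK.trans C hC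
  convert h2 using 1
  rw [map_mul, map_pow, aeval_X]
  field_simp

lemma cnt_gen (hK : HypF f T y) {R O : Subalgebra k K} (hT : T ∈ R)
    (hO : PInf k g T y O.toSubring) (z : K) :
    ∃ q : k[X], ∃ r ∈ R, ∃ o ∈ O, r + o = z - aeval T q * y / T ^ g := by
  obtain ⟨A, B, C, hC, hz⟩ := hK.gen z
  have hT0 := cnt_T_ne hK
  have hC0 := hK.trans C hC
  have hA := EuclideanDomain.div_add_mod A C
  have hB := EuclideanDomain.div_add_mod (B * X ^ g) C
  have hdA : (A % C).natDegree ≤ C.natDegree := natDegree_le_natDegree (degree_mod_lt A hC).le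
  have hdB : (B * X ^ g % C).degree < (C.natDegree : WithBot ℕ) := by
    rw [← degree_eq_natDegree hC]; exact degree_mod_lt _ hC
  have hCX : C * X ^ g ≠ 0 := mul_ne_zero hC (pow_ne_zero _ X_ne_zero)
  have hn : C.natDegree + g ≤ (C * X ^ g).natDegree := by
    rw [natDegree_mul hC (pow_ne_zero _ X_ne_zero), natDegree_X_pow]
  refine ⟨B * X ^ g / C, aeval T (A / C), cnt_aeval_mem hT _, _,
    O.add_mem (hO.1 _ C hC hdA) (cnt_memO hK hO hCX hdB hn), ?_⟩
  have hA' := congrArg (aeval T) hA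
  have hB' := congrArg (aeval T) hB
  simp only [map_add, map_mul, map_pow, aeval_X] at hA' hB' ⊢
  have hz' : z = (aeval T A + aeval T B * y) / aeval T C := by
    rw [eq_div_iff hC0, hz]
  rw [hz']
  field_simp
  linear_combination T ^ g * hA' + y * hB'

lemma cnt_frob {p m : ℕ} [Fact p.Prime] [CharP k p] (hpm : p = 2 * m + 1) (hK : HypF f T y)
    {R O : Subalgebra k K} (hT : T ∈ R) (hy : y ∈ R) (hO : PInf k g T y O.toSubring)
    {u₀ G : k[X]} (hdeg : u₀.natDegree < g) (hG : u₀ * f ^ m = derivative G) (q : k[X]) :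
    ∃ a : k[X], a.degree < g ∧ (u₀ * a).coeff (g - 1) = 0 ∧ ∃ r ∈ R, ∃ o ∈ O,
      r + o = (aeval T q * y / T ^ g) ^ p - aeval T a * y / T ^ g := by
  have hT0 := cnt_T_ne hK
  obtain ⟨P, lo, hlo, hP⟩ := cnt_split (q ^ p * f ^ m) (g * (2 * m))
  obtain ⟨hi, a, ha, hP'⟩ := cnt_split P g
  refine ⟨a, ha, ?_, aeval T hi * y, R.mul_mem (cnt_aeval_mem hT _) hy, _,
    cnt_memO hK hO (C := X ^ (g * (2 * m) + g)) (pow_ne_zero _ X_ne_zero) hlo
      (by rw [natDegree_X_pow]), ?_⟩
  · have h1 : derivative (q ^ p * G) = X ^ (g * (2 * m) + g) * (u₀ * hi)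
        + X ^ (g * (2 * m)) * (u₀ * a) + u₀ * lo := by
      rw [derivative_mul, derivative_pow, CharP.cast_eq_zero k p, ← hG]
      rw [hP'] at hP
      simp only [map_zero, zero_mul, zero_add]
      linear_combination u₀ * hP
    have h2 := congrArg (fun w : k[X] => w.coeff (g - 1 + g * (2 * m))) h1
    simp only [coeff_add, coeff_X_pow_mul, coeff_derivative] at h2
    have h3 : (X ^ (g * (2 * m) + g) * (u₀ * hi)).coeff (g - 1 + g * (2 * m)) = 0 := by
      rw [coeff_X_pow_mul', if_neg (by omega)]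
    have h4 : (u₀ * lo).coeff (g - 1 + g * (2 * m)) = 0 := by
      by_cases h0 : lo = 0
      · simp [h0]
      · have h5 : lo.natDegree < g * (2 * m) := (natDegree_lt_iff_degree_lt h0).2 hlo
        have h6 := natDegree_mul_le (p := u₀) (q := lo)
        exact coeff_eq_zero_of_natDegree_lt (by omega)
    have h5 : ((g - 1 + g * (2 * m) : ℕ) : k) + 1 = 0 := by
      have h6 : g - 1 + g * (2 * m) + 1 = g * p := by
        rw [hpm, mul_add g (2 * m) 1]; omega
      rw [← Nat.cast_succ, Nat.succ_eq_add_one, h6, Nat.cast_mul, CharP.cast_eq_zero k p, mul_zero]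
    rw [h3, h4, h5] at h2
    simpa using h2.symm
  · rw [hP'] at hP
    have h1 := congrArg (aeval T) hP
    simp only [map_add, map_mul, map_pow, aeval_X, ← hK.sq] at h1 ⊢
    have h2 : y ^ p = (y ^ 2) ^ m * y := by rw [hpm]; ring
    have h3 : (T ^ g) ^ p = T ^ (g * (2 * m)) * T ^ g := by rw [hpm]; ring
    rw [div_pow, mul_pow, h2, h3, ← mul_assoc (aeval T q ^ p), h1, pow_add]
    field_simp
    ring

end Count

/-- Counting Frobenius-fixed classes in `K / (R + O)` when the differential `u₀ dT / y` is exact. -/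
theorem card_le {K : Type u} [Field K] [Algebra k K] {p m g : ℕ} [Fact p.Prime] [CharP k p]
    (hpm : p = 2 * m + 1) {f : k[X]} {T y : K} (hK : HypF f T y)
    (R O : Subalgebra k K) (hT : T ∈ R) (hy : y ∈ R) (hO : PInf k g T y O.toSubring)
    (u₀ G : k[X]) (hu₀ : u₀ ≠ 0) (hdeg : u₀.natDegree < g) (hG : u₀ * f ^ m = derivative G)
    {ι : Type*} (S : Set ι) (φ : ι → K)
    (hφ : ∀ i ∈ S, ∃ r ∈ R, ∃ o ∈ O, φ i ^ p - φ i = r + o)
    (hinj : ∀ i ∈ S, ∀ j ∈ S, (∃ r ∈ R, ∃ o ∈ O, φ i - φ j = r + o) → i = j) :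
    S.encard ≤ (p : ℕ∞) ^ (g - 1) := by
  classical
  have hp : p.Prime := Fact.out
  have : CharP K p := charP_of_injective_algebraMap (algebraMap k K).injective p
  set N : Submodule k K := R.toSubmodule ⊔ O.toSubmodule with hN
  have hmem : ∀ z : K, z ∈ N ↔ ∃ r ∈ R, ∃ o ∈ O, r + o = z := fun z => Submodule.mem_sup
  let Φ : K →ₛₗ[frobenius k p] K :=
    { toFun := fun z => z ^ p
      map_add' := fun a b => add_pow_char a b p
      map_smul' := fun c a => by rw [_root_.smul_pow, frobenius_def] }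
  have hΦ : N ≤ N.comap Φ := by
    intro z hz
    obtain ⟨r, hr, o, ho, rfl⟩ := (hmem z).1 hz
    exact (hmem _).2 ⟨r ^ p, R.pow_mem hr p, o ^ p, O.pow_mem ho p, (add_pow_char r o p).symm⟩
  let F : (K ⧸ N) →+ (K ⧸ N) := (N.mapQ N Φ hΦ).toAddMonoidHom
  have hF : ∀ (c : k) (v : K ⧸ N), F (c • v) = c ^ p • F v := fun c v =>
    (N.mapQ N Φ hΦ).map_smulₛₗ c v
  have hFmk : ∀ z : K, F (N.mkQ z) = N.mkQ (z ^ p) := fun z => rfl
  let e : k[X] →ₗ[k] K := (LinearMap.mulRight k (y / T ^ g)).comp (aeval T).toLinearMap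
  have he : ∀ q, e q = aeval T q * y / T ^ g := fun q => (mul_div_assoc _ _ _).symm
  let V : Submodule k k[X] :=
    degreeLT k g ⊓ LinearMap.ker ((lcoeff k (g - 1)).comp (LinearMap.mulLeft k u₀))
  have hfin : Module.Finite k (degreeLT k g) := Module.Finite.equiv (degreeLTEquiv k g).symm
  have hrank : Module.finrank k (degreeLT k g) = g := by
    rw [(degreeLTEquiv k g).finrank_eq]; simp
  have hVfin : Module.Finite k V := Submodule.finiteDimensional_inf_left _ _
  have hVlt : V < degreeLT k g := by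
    refine lt_of_le_of_ne inf_le_left fun h => ?_
    have h1 : (X ^ (g - 1 - u₀.natDegree) : k[X]) ∈ degreeLT k g := by
      rw [mem_degreeLT, degree_X_pow]; exact_mod_cast (by omega)
    rw [← h] at h1
    have h2 : (u₀ * X ^ (g - 1 - u₀.natDegree)).coeff (g - 1) = 0 := h1.2
    have h3 := coeff_mul_X_pow u₀ (g - 1 - u₀.natDegree) u₀.natDegree
    rw [show u₀.natDegree + (g - 1 - u₀.natDegree) = g - 1 by omega, h2] at h3
    exact hu₀ (leadingCoeff_eq_zero.1 h3.symm)
  have hVrank : Module.finrank k (V.map (N.mkQ.comp e)) ≤ g - 1 := by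
    have h1 := Submodule.finrank_lt_finrank_of_lt hVlt
    have h2 := Submodule.finrank_map_le (N.mkQ.comp e) V
    omega
  refine le_trans ?_ (card_fix p F hF (V.map (N.mkQ.comp e)) (g - 1) hVrank)
  refine Set.encard_le_encard_of_injOn (f := fun i => N.mkQ (φ i)) ?_ ?_
  · intro i hi
    have hfix : F (N.mkQ (φ i)) = N.mkQ (φ i) := by
      obtain ⟨r, hr, o, ho, h⟩ := hφ i hi
      rw [hFmk]
      exact (Submodule.Quotient.eq N).2 ((hmem _).2 ⟨r, hr, o, ho, h.symm⟩)
    refine ⟨?_, hfix⟩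
    obtain ⟨q, hq⟩ := cnt_gen hK hT hO (φ i)
    obtain ⟨a, ha, ha', hqa⟩ := cnt_frob hpm hK hT hy hO hdeg hG q
    have h1 : N.mkQ (φ i) = N.mkQ (aeval T q * y / T ^ g) :=
      (Submodule.Quotient.eq N).2 ((hmem _).2 hq)
    have h2 : N.mkQ ((aeval T q * y / T ^ g) ^ p) = N.mkQ (aeval T a * y / T ^ g) :=
      (Submodule.Quotient.eq N).2 ((hmem _).2 hqa)
    refine ⟨a, ⟨mem_degreeLT.2 ha, ha'⟩, ?_⟩
    change N.mkQ (e a) = N.mkQ (φ i)
    rw [he, ← h2, ← hFmk, ← h1, hfix]
  · intro i hi j hj hij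
    obtain ⟨r, hr, o, ho, h⟩ := (hmem _).1 ((Submodule.Quotient.eq N).1 hij)
    exact hinj i hi j hj ⟨r, hr, o, ho, h.symm⟩

end Pool.Agent.Lib.MP_2ca583_ag.Jac
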