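import Pool.Agent.Lib.MP_2ca583_ag.Pic

set_option autoImplicit false

open Polynomial CommRing

namespace Pool.Agent.Lib.MP_2ca583_ag

variable {k : Type*} [Field k]

lemma iterate_derivative_mul_pow {E P : k[X]} (hE : derivative E = 0) (hP : derivative P = 1)
    (m j : ℕ) : derivative^[j] (E * P ^ m) = (m.descFactorial j : k[X]) * (E * P ^ (m - j)) := by
  induction j with
  | zero => simp
  | succ j ih =>
    rw [Function.iterate_succ_apply', ih, derivative_mul, derivative_natCast, derivative_mul, hE,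
      derivative_pow, hP, Nat.descFactorial_succ, Nat.sub_sub]
    simp only [map_natCast, Nat.cast_mul]
    ring

lemma hasseDeriv_eq_zero {p m : ℕ} [hp : Fact p.Prime] [CharP k p] (hpm : p = 2 * m + 1)
    {E P : k[X]} (hE : derivative E = 0) (hP : derivative P = 1) :
    hasseDeriv (p - 1) (E * P ^ m) = 0 := by
  have hm : m < p - 1 := by
    have := hp.out.two_le
    omega
  have h1 := congrFun (factorial_smul_hasseDeriv (R := k) (p - 1)) (E * P ^ m)
  rw [iterate_derivative_mul_pow hE hP, Nat.descFactorial_of_lt hm, Nat.cast_zero, zero_mul,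
    LinearMap.smul_apply, ← Nat.cast_smul_eq_nsmul k, smul_eq_zero] at h1
  refine h1.resolve_left ?_
  rw [CharP.cast_eq_zero_iff k p, hp.out.dvd_factorial]
  have := hp.out.pos
  omega

theorem main [IsAlgClosed k] {p m g d : ℕ} [hp : Fact p.Prime] [CharP k p]
    (hpm : p = 2 * m + 1) (hd : p ∣ 2 * g + d) (hg : m * (d + 1) + 2 ≤ g) :
    ∃ Λ : Finset k, Λ.card = 2 * g ∧ ∀ μ : k, μ ∉ Λ →
      {c : Pic (AdjoinRoot (X ^ 2 - C ((X - C μ) * ∏ l ∈ Λ, (X - C l)) : k[X][X])) |
        c ^ p = 1}.encard ≤ (p : ℕ∞) ^ (g - 1) := by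
  classical
  set N := 2 * g + d with hN
  have hN2 : 2 ≤ N := by omega
  set P : k[X] := X ^ N + X with hP
  have hP' : derivative P = 1 := by
    rw [hP, derivative_add, derivative_X_pow, derivative_X, (CharP.cast_eq_zero_iff k p N).2 hd]
    simp
  have hdegX : (X : k[X]).degree < (X ^ N : k[X]).degree := by
    rw [degree_X, degree_X_pow]; exact_mod_cast hN2
  have hmon : P.Monic := (monic_X_pow N).add_of_left hdegX
  have hPdeg : P.natDegree = N := by
    rw [hP, natDegree_add_eq_left_of_degree_lt hdegX, natDegree_X_pow]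
  have hsep : P.Separable := by
    rw [separable_def, hP']; exact isCoprime_one_right
  have hspl : P.Splits := IsAlgClosed.splits P
  set S : Finset k := P.roots.toFinset with hS
  have hScard : S.card = N := by
    rw [hS, Multiset.toFinset_card_of_nodup (nodup_roots hsep), ← hPdeg]
    exact hspl.natDegree_eq_card_roots.symm
  have hPS : P = ∏ l ∈ S, (X - C l) := by
    have := hspl.eq_prod_roots_of_monic hmon
    rw [Finset.prod_eq_multiset_prod, hS, Multiset.toFinset_val, (nodup_roots hsep).dedup]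
    exact this
  obtain ⟨Λ, hΛS, hΛ⟩ := Finset.exists_subset_card_eq (s := S) (n := 2 * g) (by omega)
  refine ⟨Λ, hΛ, fun μ hμ => ?_⟩
  have hnat : ∀ T : Finset k, (∏ l ∈ T, (X - C l) : k[X]).natDegree = T.card := by
    intro T
    rw [natDegree_prod_of_monic _ _ (fun l _ => monic_X_sub_C l)]
    simp
  have hmonic : ∀ T : Finset k, (∏ l ∈ T, (X - C l) : k[X]).Monic :=
    fun T => monic_prod_of_monic _ _ (fun l _ => monic_X_sub_C l)
  have hf : ((X - C μ) * ∏ l ∈ Λ, (X - C l) : k[X]) = ∏ l ∈ insert μ Λ, (X - C l) :=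
    (Finset.prod_insert hμ).symm
  set q : k[X] := ∏ l ∈ S \ Λ, (X - C l) with hq
  have hqdeg : q.natDegree = d := by
    rw [hq, hnat, Finset.card_sdiff_of_subset hΛS]; omega
  have hPq : P = q * ∏ l ∈ Λ, (X - C l) := by
    rw [hPS, hq, Finset.prod_sdiff hΛS]
  have hu : ((X - C μ) ^ (m + 1) * q ^ m : k[X]).Monic :=
    ((monic_X_sub_C μ).pow _).mul ((hmonic _).pow _)
  refine card_pic hpm ?_ ?_ ((X - C μ) ^ (m + 1) * q ^ m) hu.ne_zero ?_ ?_
  · rw [hf, hnat, Finset.card_insert_of_notMem hμ, hΛ]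
  · rw [hf]
    exact (separable_prod_X_sub_C_iff'.2 (fun x _ y _ h => h)).squarefree
  · rw [degree_eq_natDegree hu.ne_zero, ((monic_X_sub_C μ).pow _).natDegree_mul ((hmonic _).pow _),
      natDegree_pow, natDegree_pow, natDegree_X_sub_C, ← hq, hqdeg]
    have : (m + 1) * 1 + m * d < g := by nlinarith
    exact_mod_cast this
  · have e : (X - C μ) ^ (m + 1) * q ^ m * ((X - C μ) * ∏ l ∈ Λ, (X - C l)) ^ m
        = (X - C μ) ^ p * P ^ m := by
      rw [hPq, hpm, mul_pow, mul_pow]; ring
    rw [e]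
    refine hasseDeriv_eq_zero hpm ?_ hP'
    rw [derivative_pow, CharP.cast_eq_zero]; simp

end Pool.Agent.Lib.MP_2ca583_ag
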