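import Pool.Agent.Lib.MP_2ca583_ag.JBase
import Pool.Agent.Lib.MP_2ca583_ag.Example

set_option autoImplicit false

open Polynomial TensorProduct

universe u

namespace Pool.Agent.Lib.MP_2ca583_ag.Jac

variable {k : Type u} [Field k]

theorem isDomain_hyp {g : ℕ} {f : k[X]} (hf : f.natDegree = 2 * g + 1) :
    IsDomain (AdjoinRoot (X ^ 2 - C f : k[X][X])) := by
  have := isDomain_RR hf
  exact Function.Injective.isDomain (toRR f)
    (Function.LeftInverse.injective (g := ofRR f) (RingHom.congr_fun (ofRR_comp_toRR f)))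

lemma exa_repr (f : k[X]) (r : AdjoinRoot (X ^ 2 - C f : k[X][X])) :
    ∃ A B : k[X], r = AdjoinRoot.of _ A + AdjoinRoot.of _ B * AdjoinRoot.root _ := by
  refine ⟨(toRR f r).re, (toRR f r).im, ?_⟩
  have h1 : ofRR f (toRR f r) = r := RingHom.congr_fun (ofRR_comp_toRR f) r
  have h2 : toRR f r = algebraMap k[X] (RR f) (toRR f r).re
      + algebraMap k[X] (RR f) (toRR f r).im * QuadraticAlgebra.omega := by
    apply QuadraticAlgebra.ext <;> simp
  have h3 : ofRR f QuadraticAlgebra.omega = AdjoinRoot.root _ := by simp [ofRR]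
  conv_lhs => rw [← h1, h2]
  rw [map_add, map_mul, AlgHom.commutes, AlgHom.commutes, h3, AdjoinRoot.algebraMap_eq]

lemma exa_of {f : k[X]} {K : Type u} [Field K] [Algebra k K]
    (θ : AdjoinRoot (X ^ 2 - C f : k[X][X]) →ₐ[k] K) (A : k[X]) :
    aeval (θ (AdjoinRoot.of _ X)) A = θ (AdjoinRoot.of _ A) := by
  rw [aeval_algHom_apply]
  congr 1
  exact (aeval_algHom_apply (IsScalarTower.toAlgHom k k[X] (AdjoinRoot (X ^ 2 - C f : k[X][X])))
    X A).trans (by rw [aeval_X_left_apply]; rfl)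

lemma exa_sq (f : k[X]) :
    (AdjoinRoot.root (X ^ 2 - C f : k[X][X])) ^ 2 = AdjoinRoot.of _ f := by
  have := AdjoinRoot.eval₂_root (X ^ 2 - C f : k[X][X])
  simp only [eval₂_sub, eval₂_X_pow, eval₂_C] at this
  exact sub_eq_zero.1 this

theorem hypF {g : ℕ} {f : k[X]} (hf : f.natDegree = 2 * g + 1) {K : Type u} [Field K]
    [Algebra k K] (θ : AdjoinRoot (X ^ 2 - C f : k[X][X]) →ₐ[k] K) (hθ : Function.Injective θ)
    (hK : ∀ z : K, ∃ a b, b ≠ 0 ∧ z * θ b = θ a) :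
    HypF f (θ (AdjoinRoot.of _ X)) (θ (AdjoinRoot.root _)) := by
  have hsq : θ (AdjoinRoot.root _) ^ 2 = aeval (θ (AdjoinRoot.of _ X)) f := by
    rw [exa_of, ← map_pow, exa_sq]
  refine ⟨hsq, fun c hc h => hc ?_, fun z => ?_⟩
  · rw [exa_of, map_eq_zero_iff _ hθ] at h
    have h1 := congrArg (toRR f) h
    rw [map_zero, toRR, AdjoinRoot.lift_of] at h1
    exact QuadraticAlgebra.algebraMap_injective (h1.trans (map_zero _).symm)
  · obtain ⟨a, b, hb, h⟩ := hK z
    obtain ⟨A, B, rfl⟩ := exa_repr f a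
    obtain ⟨A', B', rfl⟩ := exa_repr f b
    refine ⟨A * A' - f * (B * B'), B * A' - A * B', A' ^ 2 - f * B' ^ 2, norm_ne_zero hf ?_, ?_⟩
    · by_contra h0
      rw [not_or, not_not, not_not] at h0
      exact hb (by rw [h0.1, h0.2, map_zero, zero_mul, add_zero])
    · simp only [map_add, map_mul] at h
      simp only [map_sub, map_mul, map_pow, ← hsq]
      simp only [exa_of]
      linear_combination (θ (AdjoinRoot.of _ A')
        - θ (AdjoinRoot.of _ B') * θ (AdjoinRoot.root _)) * h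

theorem hyp_mem {f : k[X]} {K : Type u} [Field K] [Algebra k K]
    (θ : AdjoinRoot (X ^ 2 - C f : k[X][X]) →ₐ[k] K) (V : Subring K)
    (hk : ∀ c : k, algebraMap k K c ∈ V) (hT : θ (AdjoinRoot.of _ X) ∈ V)
    (hy : θ (AdjoinRoot.root _) ∈ V) (r : AdjoinRoot (X ^ 2 - C f : k[X][X])) : θ r ∈ V := by
  have h : ∀ A : k[X], θ (AdjoinRoot.of _ A) ∈ V := fun A => by
    rw [← exa_of, aeval_eq_sum_range]
    exact sum_mem fun i _ => by
      rw [Algebra.smul_def]
      exact mul_mem (hk _) (pow_mem hT _)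
  obtain ⟨A, B, rfl⟩ := exa_repr f r
  rw [map_add, map_mul]
  exact add_mem (h A) (mul_mem (h B) hy)

lemma exa_main [IsAlgClosed k] {p m g d : ℕ} [hp : Fact p.Prime] [CharP k p]
    (hpm : p = 2 * m + 1) (hd : p ∣ 2 * g + d) (hg : m * (d + 1) + 2 ≤ g) :
    ∃ Λ : Finset k, Λ.card = 2 * g ∧ ∀ μ : k, μ ∉ Λ →
      ((X - C μ) * ∏ l ∈ Λ, (X - C l) : k[X]).natDegree = 2 * g + 1 ∧
      Squarefree ((X - C μ) * ∏ l ∈ Λ, (X - C l) : k[X]) ∧
      ∃ u₀ G : k[X], u₀ ≠ 0 ∧ u₀.natDegree < g ∧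
        hasseDeriv (p - 1) (u₀ * ((X - C μ) * ∏ l ∈ Λ, (X - C l)) ^ m) = 0 ∧
        u₀ * ((X - C μ) * ∏ l ∈ Λ, (X - C l)) ^ m = derivative G := by
  classical
  set N := 2 * g + d with hN
  have hN2 : 2 ≤ N := by omega
  set P : k[X] := X ^ N + X with hP
  have hP' : derivative P = 1 := by
    rw [hP, derivative_add, derivative_X_pow, derivative_X, (CharP.cast_eq_zero_iff k p N).2 hd]
    simp
  have hdegX : (X : k[X]).degree < (X ^ N : k[X]).degree := by
    rw [degree_X, degree_X_pow]; exact_mod_cast hN2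
  have hmon : P.Monic := (monic_X_pow N).add_of_left hdegX
  have hPdeg : P.natDegree = N := by
    rw [hP, natDegree_add_eq_left_of_degree_lt hdegX, natDegree_X_pow]
  have hsep : P.Separable := by
    rw [separable_def, hP']; exact isCoprime_one_right
  have hspl : P.Splits := IsAlgClosed.splits P
  set S : Finset k := P.roots.toFinset with hS
  have hScard : S.card = N := by
    rw [hS, Multiset.toFinset_card_of_nodup (nodup_roots hsep), ← hPdeg]
    exact hspl.natDegree_eq_card_roots.symm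
  have hPS : P = ∏ l ∈ S, (X - C l) := by
    have := hspl.eq_prod_roots_of_monic hmon
    rw [Finset.prod_eq_multiset_prod, hS, Multiset.toFinset_val, (nodup_roots hsep).dedup]
    exact this
  obtain ⟨Λ, hΛS, hΛ⟩ := Finset.exists_subset_card_eq (s := S) (n := 2 * g) (by omega)
  refine ⟨Λ, hΛ, fun μ hμ => ?_⟩
  have hnat : ∀ T : Finset k, (∏ l ∈ T, (X - C l) : k[X]).natDegree = T.card := by
    intro T
    rw [natDegree_prod_of_monic _ _ (fun l _ => monic_X_sub_C l)]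
    simp
  have hmonic : ∀ T : Finset k, (∏ l ∈ T, (X - C l) : k[X]).Monic :=
    fun T => monic_prod_of_monic _ _ (fun l _ => monic_X_sub_C l)
  have hf : ((X - C μ) * ∏ l ∈ Λ, (X - C l) : k[X]) = ∏ l ∈ insert μ Λ, (X - C l) :=
    (Finset.prod_insert hμ).symm
  set q : k[X] := ∏ l ∈ S \ Λ, (X - C l) with hq
  have hqdeg : q.natDegree = d := by
    rw [hq, hnat, Finset.card_sdiff_of_subset hΛS]; omega
  have hPq : P = q * ∏ l ∈ Λ, (X - C l) := by
    rw [hPS, hq, Finset.prod_sdiff hΛS]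
  have hu : ((X - C μ) ^ (m + 1) * q ^ m : k[X]).Monic :=
    ((monic_X_sub_C μ).pow _).mul ((hmonic _).pow _)
  have e : (X - C μ) ^ (m + 1) * q ^ m * ((X - C μ) * ∏ l ∈ Λ, (X - C l)) ^ m
      = (X - C μ) ^ p * P ^ m := by
    rw [hPq, hpm, mul_pow, mul_pow]; ring
  have hE : derivative ((X - C μ) ^ p : k[X]) = 0 := by
    rw [derivative_pow, CharP.cast_eq_zero]; simp
  refine ⟨?_, ?_, (X - C μ) ^ (m + 1) * q ^ m, 2 * ((X - C μ) ^ p * P ^ (m + 1)), hu.ne_zero,
    ?_, ?_, ?_⟩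
  · rw [hf, hnat, Finset.card_insert_of_notMem hμ, hΛ]
  · rw [hf]
    exact (separable_prod_X_sub_C_iff'.2 (fun x _ y _ h => h)).squarefree
  · rw [((monic_X_sub_C μ).pow _).natDegree_mul ((hmonic _).pow _),
      natDegree_pow, natDegree_pow, natDegree_X_sub_C, ← hq, hqdeg]
    nlinarith
  · rw [e]
    exact hasseDeriv_eq_zero hpm hE hP'
  · have h2 := two_mul_succ_cast (k := k) hpm
    rw [e, derivative_mul, derivative_mul, hE, derivative_pow_succ, hP', derivative_ofNat, map_add,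
      map_natCast, map_one]
    linear_combination (-((X - C μ) ^ p * P ^ m)) * h2

/-- The example: an exact regular differential for every position of the last branch point. -/
theorem data (p : ℕ) [hp : Fact p.Prime] (hp2 : 2 < p) [IsAlgClosed k] [CharP k p] (g : ℕ)
    (hg : g = p ∨ p * (p - 1) / 2 + 2 ≤ g) :
    ∃ m : ℕ, p = 2 * m + 1 ∧ ∃ Λ : Finset k, Λ.card = 2 * g ∧ ∀ μ : k, μ ∉ Λ →
      ((X - C μ) * ∏ l ∈ Λ, (X - C l) : k[X]).natDegree = 2 * g + 1 ∧
      Squarefree ((X - C μ) * ∏ l ∈ Λ, (X - C l) : k[X]) ∧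
      ∃ u₀ G : k[X], u₀ ≠ 0 ∧ u₀.natDegree < g ∧
        hasseDeriv (p - 1) (u₀ * ((X - C μ) * ∏ l ∈ Λ, (X - C l)) ^ m) = 0 ∧
        u₀ * ((X - C μ) * ∏ l ∈ Λ, (X - C l)) ^ m = derivative G := by
  obtain ⟨m, hm⟩ := hp.out.odd_of_ne_two (by omega)
  refine ⟨m, hm, ?_⟩
  rcases hg with rfl | hg
  · exact exa_main (d := 0) hm (by simp) (by omega)
  · have hp0 : 0 < p := hp.out.pos
    have h1 : p * (p - 1) / 2 = m * p := by
      rw [show p - 1 = 2 * m by omega, show p * (2 * m) = 2 * (m * p) by ring]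
      simp
    have h2 : (p - 1) * (2 * g) % p < p := Nat.mod_lt _ hp0
    refine exa_main (d := (p - 1) * (2 * g) % p) hm ?_ ?_
    · rw [Nat.dvd_iff_mod_eq_zero, Nat.add_mod_mod,
        show 2 * g + (p - 1) * (2 * g) = p * (2 * g) by
          obtain ⟨n, rfl⟩ : ∃ n, p = n + 1 := ⟨p - 1, by omega⟩
          simp only [Nat.add_sub_cancel]; ring]
      simp
    · have := Nat.mul_le_mul_left m (show (p - 1) * (2 * g) % p + 1 ≤ p from h2)
      omega

lemma exa_add_pow (p : ℕ) [hp : Fact p.Prime] [CharP k p] {B : Type u} [CommRing B] [Algebra k B]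
    (x y : B) : (x + y) ^ p = x ^ p + y ^ p := by
  obtain ⟨r, hr⟩ := exists_add_pow_prime_eq hp.out x y
  rw [hr, ← map_natCast (algebraMap k B) p, CharP.cast_eq_zero, map_zero]
  ring

theorem mu_pow (p : ℕ) [Fact p.Prime] [CharP k p] (a : Mu k p) :
    ∃ c : k, a ^ p = algebraMap k _ c := by
  have h : (AdjoinRoot.root (X ^ p - 1 : k[X])) ^ p = 1 := by
    have := AdjoinRoot.eval₂_root (X ^ p - 1 : k[X])
    simpa [sub_eq_zero] using this
  obtain ⟨Q, rfl⟩ := AdjoinRoot.mk_surjective a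
  rw [← AdjoinRoot.aeval_eq]
  induction Q using Polynomial.induction_on' with
  | add P Q hP hQ =>
    obtain ⟨c, hc⟩ := hP
    obtain ⟨d, hd⟩ := hQ
    exact ⟨c + d, by rw [map_add, exa_add_pow (k := k), hc, hd, map_add]⟩
  | monomial n c =>
    exact ⟨c ^ p, by rw [aeval_monomial, mul_pow, ← pow_mul, mul_comm n, pow_mul, h, one_pow,
      mul_one, map_pow]⟩

theorem mu_counit (p : ℕ) : Nonempty (Mu k p →ₐ[k] k) :=
  ⟨AdjoinRoot.liftAlgHom _ (AlgHom.id k k) 1 (by simp)⟩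

/-- `p`-th powers in `S ⊗ A` come from `S` when `p`-th powers in `A` come from `k`. -/
theorem tensor_pow (p : ℕ) [Fact p.Prime] [CharP k p] (S A : Type u) [CommRing S] [Algebra k S]
    [CommRing A] [Algebra k A] (hA : ∀ a : A, ∃ c : k, a ^ p = algebraMap k _ c)
    (z : S ⊗[k] A) : ∃ s : S, z ^ p = s ⊗ₜ 1 := by
  induction z using TensorProduct.induction_on with
  | zero => exact ⟨0, by rw [zero_pow (Fact.out : p.Prime).ne_zero, zero_tmul]⟩
  | tmul s a =>
    obtain ⟨c, hc⟩ := hA a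
    exact ⟨c • s ^ p, by
      rw [Algebra.TensorProduct.tmul_pow, hc, Algebra.algebraMap_eq_smul_one, smul_tmul]⟩
  | add x y hx hy =>
    obtain ⟨s, hs⟩ := hx
    obtain ⟨t, ht⟩ := hy
    exact ⟨s + t, by rw [exa_add_pow (k := k), hs, ht, add_tmul]⟩

theorem mu₂_pow (p : ℕ) [Fact p.Prime] [CharP k p] (a : Mu k p ⊗[k] Mu k p) :
    ∃ c : k, a ^ p = algebraMap k _ c := by
  induction a using TensorProduct.induction_on with
  | zero => exact ⟨0, by rw [zero_pow (Fact.out : p.Prime).ne_zero, map_zero]⟩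
  | tmul s a =>
    obtain ⟨c, hc⟩ := mu_pow p s
    obtain ⟨d, hd⟩ := mu_pow p a
    exact ⟨c * d, by
      rw [Algebra.TensorProduct.tmul_pow, hc, hd, Algebra.TensorProduct.algebraMap_apply,
        Algebra.algebraMap_eq_smul_one d, ← smul_tmul, Algebra.smul_def, ← map_mul, mul_comm]⟩
  | add x y hx hy =>
    obtain ⟨s, hs⟩ := hx
    obtain ⟨t, ht⟩ := hy
    exact ⟨s + t, by rw [exa_add_pow (k := k), hs, ht, map_add]⟩

end Pool.Agent.Lib.MP_2ca583_ag.Jac
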