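import Pool.Agent.Lib.MP_2ca583_ag.JS1
import Pool.Agent.Lib.MP_2ca583_ag.JExa

set_option autoImplicit false

open CategoryTheory CategoryTheory.Limits AlgebraicGeometry TensorProduct

universe u

namespace Pool.Agent.Lib.MP_2ca583_ag.Jac

variable {k : Type u} [Field k] {X : Scheme.{u}} (s : X ⟶ Spec (CommRingCat.of k))

lemma spec_str {S S' : Type u} [CommRing S] [Algebra k S] [CommRing S'] [Algebra k S']
    (θ : S →ₐ[k] S') : Spec.map (CommRingCat.ofHom θ.toRingHom) ≫ str k S = str k S' := by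
  simp only [str, ← Spec.map_comp, ← CommRingCat.ofHom_comp]
  congr 2
  ext x; simp

/-- The base change to `A` of an `S`-valued point of `X`. -/
noncomputable def tens (A : Type u) [CommRing A] [Algebra k A] {S : Type u} [CommRing S]
    [Algebra k S] (c : Spec (CommRingCat.of S) ⟶ X) (hc : c ≫ s = str k S) :
    Spec (CommRingCat.of (S ⊗[k] A)) ⟶ pullback s (str k A) :=
  pullback.lift
    (Spec.map (CommRingCat.ofHom (Algebra.TensorProduct.includeLeft (S := k)).toRingHom) ≫ c)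
    (Spec.map (CommRingCat.ofHom Algebra.TensorProduct.includeRight.toRingHom))
    (by rw [Category.assoc, hc, spec_str, spec_str])

section

variable (A : Type u) [CommRing A] [Algebra k A] {S : Type u} [CommRing S]
    [Algebra k S] (c : Spec (CommRingCat.of S) ⟶ X) (hc : c ≫ s = str k S)

lemma tens_isPullback :
    IsPullback (Spec.map (CommRingCat.ofHom
      (Algebra.TensorProduct.includeLeft (S := k) : S →ₐ[k] S ⊗[k] A).toRingHom))
      (tens s A c hc) c (pullback.fst s (str k A)) := by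
  have h1 := isPullback_SpecMap_of_isPushout _ _ _ _ (CommRingCat.isPushout_tensorProduct k S A)
  refine (IsPullback.of_right (h₁₂ := pullback.snd s (str k A)) (v₁₃ := str k A) (h₂₂ := s) ?_ ?_
    (IsPullback.of_hasPullback s (str k A)).flip).flip
  · rw [tens, pullback.lift_snd, hc]
    exact h1.flip
  · rw [tens, pullback.lift_fst]

lemma tens_spec {S' : Type u} [CommRing S'] [Algebra k S'] (θ : S →ₐ[k] S')
    {c' : Spec (CommRingCat.of S') ⟶ X} (e : Spec.map (CommRingCat.ofHom θ.toRingHom) ≫ c = c')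
    (hc' : c' ≫ s = str k S') :
    Spec.map (CommRingCat.ofHom (Algebra.TensorProduct.map θ (AlgHom.id k A)).toRingHom)
      ≫ tens s A c hc = tens s A c' hc' := by
  subst e
  apply pullback.hom_ext
  · simp only [tens, Category.assoc, pullback.lift_fst, ← Spec.map_comp_assoc,
      ← CommRingCat.ofHom_comp]
    congr 3
  · simp only [tens, Category.assoc, pullback.lift_snd, ← Spec.map_comp,
      ← CommRingCat.ofHom_comp]
    congr 2
    ext x; simp

lemma baseMap_fst {B : Type u} [CommRing B] [Algebra k B] (φ : A →ₐ[k] B) :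
    baseMap s φ ≫ pullback.fst s (str k A) = pullback.fst s (str k B) := by
  rw [baseMap, pullback.map, pullback.lift_fst, Category.comp_id]

lemma tens_baseMap {B : Type u} [CommRing B] [Algebra k B] (φ : A →ₐ[k] B) :
    tens s B c hc ≫ baseMap s φ
      = Spec.map (CommRingCat.ofHom (Algebra.TensorProduct.map (AlgHom.id k S) φ).toRingHom)
        ≫ tens s A c hc := by
  apply pullback.hom_ext
  · simp only [tens, Category.assoc, baseMap_fst, pullback.lift_fst, ← Spec.map_comp_assoc,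
      ← CommRingCat.ofHom_comp]
    congr 3
    ext x; simp
  · simp only [tens, baseMap, Category.assoc, pullback.lift_snd, pullback.lift_snd_assoc,
      ← Spec.map_comp, ← CommRingCat.ofHom_comp]
    congr 2

end

lemma exists_chart (x : X) : ∃ (S : Type u) (_ : CommRing S) (_ : Algebra k S)
    (c : Spec (CommRingCat.of S) ⟶ X) (_ : IsOpenImmersion c) (𝔭 : PrimeSpectrum S),
    c ≫ s = str k S ∧ c 𝔭 = x := by
  obtain ⟨_, ⟨V, hV, rfl⟩, hx, -⟩ :=
    X.isBasis_affineOpens.exists_subset_of_mem_open (Set.mem_univ x) isOpen_univ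
  have hV : IsAffineOpen V := hV
  let : Algebra k Γ(X, V) := (Spec.preimage (hV.fromSpec ≫ s)).hom.toAlgebra
  refine ⟨Γ(X, V), inferInstance, inferInstance, hV.fromSpec, inferInstance,
    hV.primeIdealOf ⟨x, hx⟩, ?_, hV.fromSpec_primeIdealOf ⟨x, hx⟩⟩
  exact (Spec.map_preimage _).symm

lemma exists_theta {K : Type u} [CommRing K] [Algebra k K] {η : Spec (CommRingCat.of K) ⟶ X}
    (hη : η ≫ s = str k K) (hg : Gen η) {S : Type u} [CommRing S] [Algebra k S]
    (c : Spec (CommRingCat.of S) ⟶ X) [IsOpenImmersion c] (hc : c ≫ s = str k S)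
    (𝔭 : PrimeSpectrum S) :
    ∃ θ : S →ₐ[k] K, Spec.map (CommRingCat.ofHom θ.toRingHom) ≫ c = η := by
  have hr : Set.range η ⊆ Set.range c := by
    rintro _ ⟨t, rfl⟩
    exact hg c.opensRange (c 𝔭) ⟨𝔭, rfl⟩ (Set.mem_univ t)
  have h1 : Spec.map (Spec.preimage (IsOpenImmersion.lift c η hr)) ≫ c = η := by
    rw [Spec.map_preimage, IsOpenImmersion.lift_fac]
  have h2 : CommRingCat.ofHom (algebraMap k S) ≫ Spec.preimage (IsOpenImmersion.lift c η hr)
      = CommRingCat.ofHom (algebraMap k K) := by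
    apply Spec.map_injective
    rw [Spec.map_comp]
    change _ ≫ str k S = str k K
    rw [← hc, ← Category.assoc, h1, hη]
  exact ⟨{ (Spec.preimage (IsOpenImmersion.lift c η hr)).hom with
    commutes' := fun r => congrArg (fun t => t.hom r) h2 }, h1⟩

lemma algebraMap_mem_OO {K : Type u} [CommRing K] [Algebra k K]
    {η : Spec (CommRingCat.of K) ⟶ X} (hη : η ≫ s = str k K) (x : X) (c : k) :
    algebraMap k K c ∈ OO η x := by
  refine ⟨⊤, trivial, le_rfl,
    (s.appLE ⊤ ⊤ le_rfl).hom ((Scheme.ΓSpecIso (CommRingCat.of k)).inv.hom c), ?_⟩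
  exact (ev_comp η s (U := ⊤) (V := ⊤) le_rfl le_rfl le_rfl _).trans
    ((ev_congr hη (U := ⊤) le_rfl le_rfl _).trans (ev_top _ _ _))

/-- The local ring of `X` at `x` as a subalgebra of the function field. -/
def OK {K : Type u} [Field K] [Algebra k K] {η : Spec (CommRingCat.of K) ⟶ X}
    (hη : η ≫ s = str k K) (x : X) : Subalgebra k K :=
  { OO η x with algebraMap_mem' := algebraMap_mem_OO s hη x }

lemma mem_OK {K : Type u} [Field K] [Algebra k K] {η : Spec (CommRingCat.of K) ⟶ X}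
    (hη : η ≫ s = str k K) (x : X) (z : K) : z ∈ OK s hη x ↔ z ∈ OO η x := Iff.rfl

lemma subsingleton_spec {K Ω : Type*} [Field K] [CommRing Ω] (φ : K →+* Ω) {p : ℕ} (hp : p ≠ 0)
    (h : ∀ z : Ω, ∃ c, z ^ p = φ c) : Subsingleton (PrimeSpectrum Ω) := by
  have key : ∀ (𝔮 : PrimeSpectrum Ω) (z : Ω), z ∈ 𝔮.asIdeal ↔ z ^ p = 0 := by
    intro 𝔮 z
    refine ⟨fun hz => ?_, fun hz => 𝔮.2.mem_of_pow_mem p (hz ▸ 𝔮.asIdeal.zero_mem)⟩
    obtain ⟨c, hc⟩ := h z
    by_cases h0 : c = 0
    · rw [hc, h0, map_zero]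
    · exact (𝔮.2.ne_top (Ideal.eq_top_of_isUnit_mem _ (hc ▸ 𝔮.asIdeal.pow_mem_of_mem hz p
        (Nat.pos_of_ne_zero hp)) ((IsUnit.mk0 c h0).map φ))).elim
  exact ⟨fun a b => PrimeSpectrum.ext (Ideal.ext fun z => by rw [key, key])⟩

section

variable (p : ℕ) [hp : Fact p.Prime] [CharP k p] (A : Type u) [CommRing A] [Algebra k A]
  (hA : ∀ a : A, ∃ c : k, a ^ p = algebraMap k _ c)

include hA in
lemma fst_injective : Function.Injective (pullback.fst s (str k A)) := by
  intro y y' h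
  obtain ⟨S, _, _, c, _, 𝔭, hc, hx⟩ := exists_chart s (pullback.fst s (str k A) y)
  obtain ⟨𝔮, h1, rfl⟩ := Scheme.exists_preimage_of_isPullback
    (tens_isPullback s A c hc) 𝔭 y hx
  obtain ⟨𝔮', h1', rfl⟩ := Scheme.exists_preimage_of_isPullback
    (tens_isPullback s A c hc) 𝔭 y' (hx.trans h)
  congr 1
  refine PrimeSpectrum.ext (Ideal.ext fun z => ?_)
  obtain ⟨b, hb⟩ := tensor_pow p S A hA z
  rw [← 𝔮.2.pow_mem_iff_mem p hp.out.pos, ← 𝔮'.2.pow_mem_iff_mem p hp.out.pos, hb]
  have h2 := congrArg (fun t : PrimeSpectrum S => b ∈ t.asIdeal) (h1.trans h1'.symm)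
  exact Iff.of_eq h2

lemma fst_surjective [Nontrivial A] : Function.Surjective (pullback.fst s (str k A)) := by
  have : Surjective (str k A) := ⟨fun t => by
    obtain ⟨a⟩ : Nonempty (PrimeSpectrum A) := inferInstance
    exact ⟨a, Subsingleton.elim (α := PrimeSpectrum k) _ _⟩⟩
  exact (pullback.fst s (str k A)).surjective

variable {K : Type u} [Field K] [Algebra k K] {η : Spec (CommRingCat.of K) ⟶ X}
  (hη : η ≫ s = str k K)

lemma tens_dom [IsSchemeTheoreticallyDominant η] [QuasiCompact η] :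
    IsSchemeTheoreticallyDominant (tens s A η hη) ∧ QuasiCompact (tens s A η hη) := by
  have : Flat (str k A) := by
    rw [str, HasRingHomProperty.Spec_iff (P := @Flat)]
    exact RingHom.flat_algebraMap_iff.2 inferInstance
  exact ⟨.of_isPullback (tens_isPullback s A η hη),
    MorphismProperty.of_isPullback (P := @QuasiCompact) (tens_isPullback s A η hη) inferInstance⟩

include hA in
lemma tens_gen [IsSchemeTheoreticallyDominant η] [QuasiCompact η] : Gen (tens s A η hη) := by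
  obtain ⟨_, _⟩ := tens_dom s A hη
  have := subsingleton_spec (Algebra.TensorProduct.includeLeftRingHom : K →+* K ⊗[k] A)
    hp.out.ne_zero (tensor_pow p K A hA)
  exact gen_of_dominant _

include hA in
lemma loc_tensor {S : Type u} [CommRing S] [Algebra k S] (θ : S →ₐ[k] K)
    (hθ : Function.Injective θ) (𝔮 : PrimeSpectrum (S ⊗[k] A)) (𝔭 : PrimeSpectrum S)
    (h : ∀ b : S, b ∈ 𝔭.asIdeal ↔ b ⊗ₜ[k] (1 : A) ∈ 𝔮.asIdeal) (O : Subalgebra k K)
    (hO : ∀ z, z ∈ O ↔ z ∈ Loc θ.toRingHom 𝔭) (z : K ⊗[k] A) :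
    z ∈ Loc (Algebra.TensorProduct.map θ (AlgHom.id k A)).toRingHom 𝔮 ↔ z ∈ Sub O A := by
  have htm : ∀ o ∈ O, ∀ a : A, o ⊗ₜ[k] a ∈ Sub O A := fun o ho a => ⟨(⟨o, ho⟩ : O) ⊗ₜ a, rfl⟩
  constructor
  · rintro ⟨a, b, hb, hz⟩
    obtain ⟨b₀, hb₀⟩ := tensor_pow p S A hA b
    have h1 : b₀ ∉ 𝔭.asIdeal := by
      rw [h, ← hb₀]; exact fun hm => hb (𝔮.2.mem_of_pow_mem _ hm)
    have h2 : θ b₀ ≠ 0 := fun h0 => h1 (by
      rw [hθ (h0.trans (map_zero θ).symm)]; exact 𝔭.asIdeal.zero_mem)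
    have h3 : ∀ w, Algebra.TensorProduct.map θ (AlgHom.id k A) w ∈ Sub O A := by
      intro w
      induction w with
      | zero => rw [map_zero]; exact zero_mem _
      | add x y hx hy => rw [map_add]; exact add_mem hx hy
      | tmul x y => exact htm _ ((hO _).2 (map_mem_Loc θ.toRingHom 𝔭 x)) y
    have h4 : (θ b₀)⁻¹ ∈ O := (hO _).2 ⟨1, b₀, h1, by simpa using inv_mul_cancel₀ h2⟩
    have h5 : z = Algebra.TensorProduct.map θ (AlgHom.id k A) (a * b ^ (p - 1))
        * ((θ b₀)⁻¹ ⊗ₜ[k] (1 : A)) := by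
      have hz' : z * Algebra.TensorProduct.map θ (AlgHom.id k A) b
          = Algebra.TensorProduct.map θ (AlgHom.id k A) a := hz
      rw [map_mul, ← hz', mul_assoc z, ← map_mul, ← pow_succ', Nat.sub_add_cancel hp.out.pos, hb₀,
        Algebra.TensorProduct.map_tmul, mul_assoc, Algebra.TensorProduct.tmul_mul_tmul,
        mul_inv_cancel₀ h2]
      simp [← Algebra.TensorProduct.one_def]
    rw [h5]
    exact mul_mem (h3 _) (htm _ h4 _)
  · rintro ⟨w, rfl⟩
    induction w with
    | zero => rw [map_zero]; exact zero_mem _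
    | add x y hx hy => rw [map_add]; exact add_mem hx hy
    | tmul x y =>
      obtain ⟨a, b, hb, hx⟩ := (hO _).1 x.2
      refine ⟨a ⊗ₜ y, b ⊗ₜ 1, fun hm => hb ((h b).2 hm), ?_⟩
      have hx' : (x : K) * θ b = θ a := hx
      simp [hx']

include hA in
lemma OO_tens [IsSchemeTheoreticallyDominant η] [QuasiCompact η] (y : ↥(pullback s (str k A)))
    (z : K ⊗[k] A) :
    z ∈ OO (tens s A η hη) y ↔ z ∈ Sub (OK s hη (pullback.fst s (str k A) y)) A := by
  obtain ⟨S, _, _, c, _, 𝔭, hc, hx⟩ := exists_chart s (pullback.fst s (str k A) y)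
  obtain ⟨𝔮, h1, rfl⟩ := Scheme.exists_preimage_of_isPullback
    (tens_isPullback s A c hc) 𝔭 y hx
  have hg : Gen η := gen_of_dominant η
  obtain ⟨θ, hθ⟩ := exists_theta s hη hg c hc 𝔭
  have : IsOpenImmersion (tens s A c hc) :=
    MorphismProperty.of_isPullback (P := @IsOpenImmersion) (tens_isPullback s A c hc)
      inferInstance
  have h2 := OO_chart _ (tens s A c hc) (tens_spec s A c hc θ hθ hη) (tens_gen s p A hA hη) 𝔮
  refine (Iff.of_eq (congrArg (z ∈ ·) h2)).trans ?_
  refine loc_tensor p A hA θ (chart_injective _ c hθ (ev_injective η)) 𝔮 𝔭 (fun b => ?_) _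
    (fun t => ?_) z
  · rw [← h1]; rfl
  · rw [mem_OK, ← hx, OO_chart _ c hθ hg]

end

end Pool.Agent.Lib.MP_2ca583_ag.Jac
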