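import Pool.Agent.Lib.MP_2ca583_ag.JMod1
import Pool.Agent.Lib.MP_2ca583_ag.JS2

set_option autoImplicit false

open CategoryTheory CategoryTheory.Limits AlgebraicGeometry Polynomial

universe u

namespace Pool.Agent.Lib.MP_2ca583_ag.Jac

variable {k : Type u} [Field k] {Y : Scheme.{u}}

lemma lift_chart {A S : Type u} [CommRing A] [IsLocalRing A] [CommRing S]
    (l : Spec (CommRingCat.of A) ⟶ Y) (j : Spec (CommRingCat.of S) ⟶ Y) [IsOpenImmersion j]
    (h : l (IsLocalRing.closedPoint A) ∈ Set.range j) :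
    ∃ θ : S →+* A, Spec.map (CommRingCat.ofHom θ) ≫ j = l := by
  have hr : Set.range l ⊆ Set.range j := by
    rintro _ ⟨t, rfl⟩
    exact (Scheme.preimage_eq_top_of_closedPoint_mem l (U := j.opensRange) h).ge (Set.mem_univ t)
  refine ⟨(Spec.preimage (IsOpenImmersion.lift j l hr)).hom, ?_⟩
  rw [CommRingCat.ofHom_hom, Spec.map_preimage, IsOpenImmersion.lift_fac]

lemma spec_cancel {A S : Type u} [CommRing A] [CommRing S] (j : Spec (CommRingCat.of S) ⟶ Y)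
    [Mono j] {θ θ' : S →+* A}
    (h : Spec.map (CommRingCat.ofHom θ) ≫ j = Spec.map (CommRingCat.ofHom θ') ≫ j) : θ = θ' :=
  congrArg CommRingCat.Hom.hom (Spec.map_injective ((cancel_mono j).1 h))

lemma spec_comp {A B C : Type u} [CommRing A] [CommRing B] [CommRing C] (f : A →+* B)
    (g : B →+* C) (j : Spec (CommRingCat.of A) ⟶ Y) :
    Spec.map (CommRingCat.ofHom g) ≫ Spec.map (CommRingCat.ofHom f) ≫ j
      = Spec.map (CommRingCat.ofHom (g.comp f)) ≫ j := by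
  rw [CommRingCat.ofHom_comp, Spec.map_comp_assoc]

lemma exists_lift_range {A R L : Type u} [CommRing A] [CommRing R] [CommRing L] (i : R →+* L)
    (hi : Function.Injective i) (f : A →+* L) (h : ∀ a, f a ∈ i.range) :
    ∃ f' : A →+* R, i.comp f' = f := by
  let e := RingEquiv.ofBijective i.rangeRestrict
    ⟨fun a b hab => hi (congrArg Subtype.val hab), i.rangeRestrict_surjective⟩
  exact ⟨e.symm.toRingHom.comp (f.codRestrict i.range h), RingHom.ext fun a =>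
    congrArg Subtype.val (e.apply_symm_apply (f.codRestrict i.range h a))⟩

section

variable {R₁ R₂ R₀ : Type u} [CommRing R₁] [Algebra k R₁] [CommRing R₂] [Algebra k R₂]
  [CommRing R₀] [Algebra k R₀] (φ₁ : R₁ →ₐ[k] R₀) (φ₂ : R₂ →ₐ[k] R₀)
  (s : Y ⟶ Spec (CommRingCat.of k)) (j₁ : Spec (CommRingCat.of R₁) ⟶ Y)
  (j₂ : Spec (CommRingCat.of R₂) ⟶ Y) [IsOpenImmersion j₁] [IsOpenImmersion j₂]

omit [IsOpenImmersion j₂] in
lemma ex_aux (hs₁ : j₁ ≫ s = str k R₁) (hs₂ : j₂ ≫ s = str k R₂)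
    (w : Spec.map (CommRingCat.ofHom φ₁.toRingHom) ≫ j₁
      = Spec.map (CommRingCat.ofHom φ₂.toRingHom) ≫ j₂)
    (h₁ : ValEx k φ₁ φ₂) (S : ValuativeCommSq s)
    (h : S.i₁ (IsLocalRing.closedPoint S.K) ∈ Set.range j₁) : S.commSq.HasLift := by
  obtain ⟨θ, hθ⟩ := lift_chart S.i₁ j₁ h
  have hi : Function.Injective (algebraMap S.R S.K) := IsFractionRing.injective _ _
  obtain ⟨ρ, hρ⟩ : ∃ ρ : k →+* S.R, Spec.map (CommRingCat.ofHom ρ) = S.i₂ :=
    ⟨(Spec.preimage S.i₂).hom, Spec.map_preimage _⟩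
  let : Algebra k S.K := ((algebraMap S.R S.K).comp ρ).toAlgebra
  have hw : S.i₁ ≫ s = Spec.map (CommRingCat.ofHom ((algebraMap S.R S.K).comp ρ)) := by
    rw [S.commSq.w, ← hρ, CommRingCat.ofHom_comp, Spec.map_comp]
  have hθk : θ.comp (algebraMap k R₁) = (algebraMap S.R S.K).comp ρ := by
    rw [← hθ, Category.assoc, hs₁, str, ← Spec.map_comp, ← CommRingCat.ofHom_comp] at hw
    exact congrArg CommRingCat.Hom.hom (Spec.map_injective hw)
  let V : ValuationSubring S.K :=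
    { (algebraMap S.R S.K).range with
      mem_or_inv_mem' := ValuationRing.isInteger_or_isInteger S.R }
  have fin : ∀ {T : Type u} [CommRing T] [Algebra k T] (j : Spec (CommRingCat.of T) ⟶ Y)
      (_ : j ≫ s = str k T) (τ : T →ₐ[k] S.K)
      (_ : Spec.map (CommRingCat.ofHom τ.toRingHom) ≫ j = S.i₁) (_ : ∀ r, τ r ∈ V),
      S.commSq.HasLift := by
    intro T _ _ j hj τ hτ hV
    obtain ⟨τ', hτ'⟩ := exists_lift_range _ hi τ.toRingHom hV
    refine ⟨⟨⟨Spec.map (CommRingCat.ofHom τ') ≫ j, ?_, ?_⟩⟩⟩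
    · rw [spec_comp, hτ', hτ]
    · rw [Category.assoc, hj, str, ← hρ, ← Spec.map_comp, ← CommRingCat.ofHom_comp]
      congr 2
      ext c
      exact hi ((RingHom.congr_fun hτ' _).trans (τ.commutes c))
  let θ' : R₁ →ₐ[k] S.K := { θ with commutes' := fun c => RingHom.congr_fun hθk c }
  rcases h₁ S.K V (fun c => ⟨ρ c, rfl⟩) θ' with h' | ⟨θ₀, h', h''⟩
  · exact fin j₁ hs₁ θ' hθ h'
  · refine fin j₂ hs₂ (θ₀.comp φ₂) ?_ h''
    have h3 : θ₀.toRingHom.comp φ₁.toRingHom = θ := congrArg AlgHom.toRingHom h'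
    rw [← hθ, ← h3, ← spec_comp, w, spec_comp]
    rfl

lemma uniq_aux [IsOpenImmersion (Spec.map (CommRingCat.ofHom φ₁.toRingHom))]
    (w : Spec.map (CommRingCat.ofHom φ₁.toRingHom) ≫ j₁
      = Spec.map (CommRingCat.ofHom φ₂.toRingHom) ≫ j₂)
    (hint : ∀ x₁ x₂, j₁ x₁ = j₂ x₂ → ∃ x₀, Spec.map (CommRingCat.ofHom φ₁.toRingHom) x₀ = x₁)
    (hgen : ∀ S : Subring R₀, (∀ r, φ₁ r ∈ S) → (∀ r, φ₂ r ∈ S) → ∀ r, r ∈ S)
    {R L : Type u} [CommRing R] [Field L] (i : R →+* L) (hi : Function.Injective i)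
    (θ₁ : R₁ →+* R) (θ₂ : R₂ →+* R)
    (h : Spec.map (CommRingCat.ofHom (i.comp θ₁)) ≫ j₁
      = Spec.map (CommRingCat.ofHom (i.comp θ₂)) ≫ j₂) :
    Spec.map (CommRingCat.ofHom θ₁) ≫ j₁ = Spec.map (CommRingCat.ofHom θ₂) ≫ j₂ := by
  obtain ⟨x₀, hx₀⟩ := hint _ _
    (congrArg (fun t : Spec (CommRingCat.of L) ⟶ Y => t (IsLocalRing.closedPoint L)) h)
  obtain ⟨θ₀, hθ₀⟩ := lift_chart (Spec.map (CommRingCat.ofHom (i.comp θ₁)))
    (Spec.map (CommRingCat.ofHom φ₁.toRingHom)) ⟨x₀, hx₀⟩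
  have h1 : θ₀.comp φ₁.toRingHom = i.comp θ₁ := spec_cancel j₁ (by
    rw [← spec_comp, ← hθ₀, Category.assoc])
  have h2 : θ₀.comp φ₂.toRingHom = i.comp θ₂ := spec_cancel j₂ (by
    rw [← spec_comp, ← w, spec_comp, h1, h])
  obtain ⟨θ, hθ⟩ := exists_lift_range i hi θ₀ (hgen (i.range.comap θ₀)
    (fun r => ⟨θ₁ r, (RingHom.congr_fun h1 r).symm⟩)
    (fun r => ⟨θ₂ r, (RingHom.congr_fun h2 r).symm⟩))
  have h3 : θ.comp φ₁.toRingHom = θ₁ := RingHom.ext fun r =>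
    hi ((RingHom.congr_fun hθ _).trans (RingHom.congr_fun h1 r))
  have h4 : θ.comp φ₂.toRingHom = θ₂ := RingHom.ext fun r =>
    hi ((RingHom.congr_fun hθ _).trans (RingHom.congr_fun h2 r))
  rw [← h3, ← h4, ← spec_comp, ← spec_comp, w]

lemma smooth_str (S : Type u) [CommRing S] [Algebra k S] [Algebra.Smooth k S] :
    Smooth (str k S) := by
  rw [str, HasRingHomProperty.Spec_iff (P := @Smooth)]
  exact RingHom.smooth_algebraMap.2 inferInstance

theorem two_charts [IsDomain R₁] [IsDomain R₂] [Nontrivial R₀] [Algebra.Smooth k R₁]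
    [Algebra.Smooth k R₂] [IsOpenImmersion (Spec.map (CommRingCat.ofHom φ₁.toRingHom))]
    [IsOpenImmersion (Spec.map (CommRingCat.ofHom φ₂.toRingHom))]
    (hs₁ : j₁ ≫ s = str k R₁) (hs₂ : j₂ ≫ s = str k R₂)
    (w : Spec.map (CommRingCat.ofHom φ₁.toRingHom) ≫ j₁
      = Spec.map (CommRingCat.ofHom φ₂.toRingHom) ≫ j₂)
    (hcov : ∀ y : Y, y ∈ Set.range j₁ ∨ y ∈ Set.range j₂)
    (hint : ∀ x₁ x₂, j₁ x₁ = j₂ x₂ → ∃ x₀, Spec.map (CommRingCat.ofHom φ₁.toRingHom) x₀ = x₁)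
    (h₁ : ValEx k φ₁ φ₂) (h₂ : ValEx k φ₂ φ₁)
    (hgen : ∀ S : Subring R₀, (∀ r, φ₁ r ∈ S) → (∀ r, φ₂ r ∈ S) → ∀ r, r ∈ S) :
    IsIntegral Y ∧ Smooth s ∧ IsProper s := by
  let 𝒰 : Y.OpenCover := Scheme.Cover.mkOfCovers Bool
    (fun | false => Spec (CommRingCat.of R₁) | true => Spec (CommRingCat.of R₂))
    (fun | false => j₁ | true => j₂)
    (fun y => (hcov y).elim (fun h => ⟨false, h⟩) (fun h => ⟨true, h⟩))
    (fun b => by cases b <;> assumption)
  have := HasRingHomProperty.instIsZariskiLocalAtSource (P := @Smooth.{u})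
  have hsm : Smooth s := IsZariskiLocalAtSource.of_openCover (P := @Smooth) 𝒰 fun b => by
    cases b
    · exact hs₁ ▸ smooth_str R₁
    · exact hs₂ ▸ smooth_str R₂
  have : ∀ b, IsReduced (𝒰.X b) := fun b => by
    cases b
    · exact inferInstanceAs (IsReduced (Spec (CommRingCat.of R₁)))
    · exact inferInstanceAs (IsReduced (Spec (CommRingCat.of R₂)))
  have : IsReduced Y := IsReduced.of_openCover Y 𝒰
  have hd : Dense (Set.range j₁) := by
    intro y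
    rcases hcov y with h | ⟨x, rfl⟩
    · exact subset_closure h
    · have h0 : Dense (Set.range (Spec.map (CommRingCat.ofHom φ₂.toRingHom))) := by
        obtain ⟨t⟩ : Nonempty (PrimeSpectrum R₀) := inferInstance
        exact (Spec.map (CommRingCat.ofHom φ₂.toRingHom)).isOpenEmbedding.isOpen_range.dense
          ⟨_, t, rfl⟩
      refine closure_mono ?_ (image_closure_subset_closure_image j₂.continuous ⟨x, h0 x, rfl⟩)
      rintro _ ⟨_, ⟨t, rfl⟩, rfl⟩
      exact ⟨_, congrArg (fun m : Spec (CommRingCat.of R₀) ⟶ Y => m t) w⟩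
  have : IrreducibleSpace Y := by
    rw [irreducibleSpace_def, Set.top_eq_univ, ← hd.closure_eq, ← Set.image_univ]
    exact ((IrreducibleSpace.isIrreducible_univ _).image _ j₁.continuous.continuousOn).closure
  have : CompactSpace Y := ⟨by
    rw [show (Set.univ : Set Y) = Set.range j₁ ∪ Set.range j₂ from
      (Set.eq_univ_of_forall hcov).symm]
    exact (isCompact_range j₁.continuous).union (isCompact_range j₂.continuous)⟩
  have : IsLocallyNoetherian Y := LocallyOfFiniteType.isLocallyNoetherian s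
  refine ⟨isIntegral_of_irreducibleSpace_of_isReduced Y, hsm,
    IsProper.of_valuativeCriterion s (ValuativeCriterion.iff.2 ⟨fun S => ?_, fun S => ⟨?_⟩⟩)⟩
  · exact (hcov _).elim (ex_aux φ₁ φ₂ s j₁ j₂ hs₁ hs₂ w h₁ S)
      (ex_aux φ₂ φ₁ s j₂ j₁ hs₂ hs₁ w.symm h₂ S)
  · rintro ⟨l, hl, -⟩ ⟨l', hl', -⟩
    have hi : Function.Injective (algebraMap S.R S.K) := IsFractionRing.injective _ _
    have h := hl.trans hl'.symm
    have same : ∀ {T : Type u} [CommRing T] (j : Spec (CommRingCat.of T) ⟶ Y) [Mono j]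
        (θ θ' : T →+* S.R), Spec.map (CommRingCat.ofHom ((algebraMap S.R S.K).comp θ)) ≫ j
          = Spec.map (CommRingCat.ofHom ((algebraMap S.R S.K).comp θ')) ≫ j → θ = θ' :=
      fun j _ θ θ' e => RingHom.ext fun r => hi (RingHom.congr_fun (spec_cancel j e) r)
    ext : 1
    change l = l'
    rcases hcov (l (IsLocalRing.closedPoint S.R)) with e | e <;>
      rcases hcov (l' (IsLocalRing.closedPoint S.R)) with e' | e' <;>
      obtain ⟨θ, rfl⟩ := lift_chart l _ e <;> obtain ⟨θ', rfl⟩ := lift_chart l' _ e' <;>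
      rw [spec_comp, spec_comp] at h
    · rw [same j₁ θ θ' h]
    · exact uniq_aux φ₁ φ₂ j₁ j₂ w hint hgen _ hi θ θ' h
    · exact (uniq_aux φ₁ φ₂ j₁ j₂ w hint hgen _ hi θ' θ h.symm).symm
    · rw [same j₂ θ θ' h]

end

/-- The smooth proper model of the affine curve `y ^ 2 = f`. -/
theorem exists_model (h2 : (2 : k) ≠ 0) {g : ℕ} {f : k[X]} (hf : f.natDegree = 2 * g + 1)
    (hs : f.Separable) :
    ∃ (Y : Scheme.{u}) (s : Y ⟶ Spec (CommRingCat.of k))
      (j : Spec (CommRingCat.of (AdjoinRoot (X ^ 2 - C f : k[X][X]))) ⟶ Y),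
      IsIntegral Y ∧ Smooth s ∧ IsProper s ∧ IsOpenImmersion j ∧ j ≫ s = str k _ := by
  obtain ⟨R₂, R₀, _, _, _, _, φ₁, φ₂, t₁, t₂, _, _, _, hl₁, hl₂, h₁, h₂, hgen⟩ :=
    exists_charts h2 hf hs
  have := isDomain_hyp hf
  have := smooth_hyp h2 hs
  have : IsOpenImmersion (Spec.map (CommRingCat.ofHom φ₁.toRingHom)) :=
    @IsOpenImmersion.of_isLocalization _ _ _ _ φ₁.toRingHom.toAlgebra t₁ hl₁
  have : IsOpenImmersion (Spec.map (CommRingCat.ofHom φ₂.toRingHom)) :=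
    @IsOpenImmersion.of_isLocalization _ _ _ _ φ₂.toRingHom.toAlgebra t₂ hl₂
  set a₁ := Spec.map (CommRingCat.ofHom φ₁.toRingHom) with ha₁
  set a₂ := Spec.map (CommRingCat.ofHom φ₂.toRingHom) with ha₂
  have i₁ : IsOpenImmersion (pushout.inl a₁ a₂) :=
    inferInstanceAs (IsOpenImmersion (colimit.ι (span a₁ a₂) WalkingSpan.left))
  have i₂ : IsOpenImmersion (pushout.inr a₁ a₂) :=
    inferInstanceAs (IsOpenImmersion (colimit.ι (span a₁ a₂) WalkingSpan.right))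
  have hw : a₁ ≫ str k _ = a₂ ≫ str k _ := (spec_str φ₁).trans (spec_str φ₂).symm
  obtain ⟨H₁, H₂, H₃⟩ := two_charts φ₁ φ₂ (pushout.desc _ _ hw) (pushout.inl a₁ a₂)
    (pushout.inr a₁ a₂) (pushout.inl_desc _ _ _) (pushout.inr_desc _ _ _) pushout.condition
    (fun y => by
      obtain ⟨i, x, rfl⟩ := Scheme.IsLocallyDirected.ι_jointly_surjective (span a₁ a₂) y
      rcases i with _ | _ | _
      · exact Or.inl ⟨a₁ x, congrArg (fun m => m x) (colimit.w (span a₁ a₂) WalkingSpan.Hom.fst)⟩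
      · exact Or.inl ⟨x, rfl⟩
      · exact Or.inr ⟨x, rfl⟩)
    (fun x₁ x₂ h => by
      obtain ⟨i, f₁, f₂, x, h₁, -⟩ := (Scheme.IsLocallyDirected.ι_eq_ι_iff (span a₁ a₂)
        (i := WalkingSpan.left) (j := WalkingSpan.right)).1 h
      rcases i with _ | _ | _
      · rw [Subsingleton.elim f₁ WalkingSpan.Hom.fst] at h₁
        exact ⟨x, h₁⟩
      · exact nomatch f₂
      · exact nomatch f₁) h₁ h₂ hgen
  exact ⟨_, _, _, H₁, H₂, H₃, i₁, pushout.inl_desc _ _ _⟩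

end Pool.Agent.Lib.MP_2ca583_ag.Jac
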