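import Pool.Agent.Lib.MP_2ca583_ag.ADefs
import Pool.Agent.Lib.MP_2ca583_ag.APoly
import Pool.Agent.Lib.MP_2ca583_ag.JM
import Pool.Agent.Lib.MP_2ca583_ag.JMod2

set_option autoImplicit false

open CategoryTheory AlgebraicGeometry Polynomial OnePoint

universe u

namespace Pool.Agent.Lib.MP_2ca583_ag.AnyPt

variable {k : Type u} [Field k]

lemma ncard_chart (Λ : Finset k) :
    {z : OnePoint k | z = ∞ ∨ ∃ l ∈ Λ, z = OnePoint.some l}.ncard = Λ.card + 1 ∧
    {z : OnePoint k | ∃ l ∈ Λ, z = OnePoint.some l}.ncard = Λ.card ∧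
    {z : OnePoint k | z = ∞ ∨ ∃ l ∈ Λ, z = OnePoint.some l}.Finite := by
  have e : {z : OnePoint k | ∃ l ∈ Λ, z = OnePoint.some l} = OnePoint.some '' (Λ : Set k) := by
    ext z; simp [eq_comm]
  have e' : {z : OnePoint k | z = ∞ ∨ ∃ l ∈ Λ, z = OnePoint.some l}
      = insert ∞ (OnePoint.some '' (Λ : Set k)) := by
    rw [← e]; rfl
  have hfin : (OnePoint.some '' (Λ : Set k)).Finite := Λ.finite_toSet.image _
  have hc : (OnePoint.some '' (Λ : Set k)).ncard = Λ.card := by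
    rw [Set.ncard_image_of_injective _ coe_injective, Set.ncard_coe_finset]
  refine ⟨?_, by rw [e, hc], by rw [e']; exact hfin.insert _⟩
  rw [e', Set.ncard_insert_of_notMem (by simp) hfin, hc]

variable [DecidableEq k]

lemma ncard_smul (γ : GL (Fin 2) k) (T : Set (OnePoint k)) :
    {z : OnePoint k | γ • z ∈ T}.ncard = T.ncard := by
  have h : (fun z : OnePoint k => γ • z) '' {z | γ • z ∈ T} = T :=
    Set.image_preimage_eq T (MulAction.surjective γ)
  conv_rhs => rw [← h]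
  rw [Set.ncard_image_of_injective _ (MulAction.injective γ)]

lemma exists_chart {B : Set (OnePoint k)} (hB : B.Finite) (hne : B.Nonempty) :
    ∃ (γ : GL (Fin 2) k) (Λ : Finset k),
      ∀ z : OnePoint k, γ • z ∈ B ↔ z = ∞ ∨ ∃ l ∈ Λ, z = OnePoint.some l := by
  obtain ⟨z₀, hz₀⟩ := hne
  obtain ⟨γ, hγ⟩ : ∃ γ : GL (Fin 2) k, γ • (∞ : OnePoint k) = z₀ := by
    cases z₀ with
    | infty => exact ⟨1, one_smul _ _⟩
    | coe t =>
      refine ⟨Matrix.GeneralLinearGroup.mkOfDetNeZero !![t, 1; 1, 0] (by simp), ?_⟩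
      simp [smul_infty_eq_ite, Matrix.GeneralLinearGroup.mkOfDetNeZero]
  have hfin : {l : k | γ • (l : OnePoint k) ∈ B}.Finite :=
    hB.preimage (f := fun l : k => γ • (l : OnePoint k))
      ((MulAction.injective γ).comp coe_injective).injOn
  refine ⟨γ, hfin.toFinset, fun z => ?_⟩
  cases z with
  | infty => simp [hγ, hz₀]
  | coe t => simp

lemma chart_card {B : Set (OnePoint k)} {γ : GL (Fin 2) k} {Λ : Finset k}
    (h : ∀ z : OnePoint k, γ • z ∈ B ↔ z = ∞ ∨ ∃ l ∈ Λ, z = OnePoint.some l) :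
    B.ncard = Λ.card + 1 := by
  rw [← ncard_smul γ B, ← (ncard_chart Λ).1]
  congr 1
  ext z; exact h z

lemma hom_zero {ε ν : ℕ} {S : Finset k} (hS : ∀ t ∈ S, t ^ ε * (t ^ ν + 1) = 0) {x y : k}
    (h : (if y = 0 then ∞ else ((x / y : k) : OnePoint k))
      ∈ {z : OnePoint k | z = ∞ ∨ ∃ l ∈ S, z = OnePoint.some l}) :
    x ^ ε * y * (x ^ ν + y ^ ν) = 0 := by
  by_cases hy : y = 0
  · rw [hy, mul_zero, zero_mul]
  · rw [if_neg hy] at h
    rcases h with h | ⟨l, hl, h⟩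
    · exact absurd h (coe_ne_infty _)
    · have hx : x = l * y := by
        rw [← coe_injective h]; field_simp
      rw [hx, mul_pow, mul_pow]
      linear_combination y ^ ε * y * y ^ ν * hS l hl

/-- An exact regular differential on every curve obtained by moving at most `r` branch points. -/
theorem data (p : ℕ) [hp : Fact p.Prime] {m : ℕ} (hpm : p = 2 * m + 1) [IsAlgClosed k]
    [CharP k p] (r g : ℕ) (hg : r * p + m + 2 ≤ g) :
    ∃ B : Set (OnePoint k), B.ncard = 2 * g + 2 ∧ ∀ B' : Set (OnePoint k),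
      B'.ncard = 2 * g + 2 → (B' \ B).ncard ≤ r → ∀ (γ : GL (Fin 2) k) (Λ : Finset k),
      (∀ z : OnePoint k, γ • z ∈ B' ↔ z = ∞ ∨ ∃ l ∈ Λ, z = OnePoint.some l) →
      ∃ u₀ G : k[X], u₀ ≠ 0 ∧ u₀.natDegree < g ∧
        u₀ * (∏ l ∈ Λ, (X - C l)) ^ m = derivative G := by
  classical
  have hm : 0 < m := by have := hp.out.two_le; omega
  obtain ⟨ε, ν, S, hεν, hν, hS, hS'⟩ := exists_base (k := k) p (2 * g + 1) (by omega)
  obtain ⟨e, he, he'⟩ := exists_e hpm hm (ε * m) ν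
  refine ⟨{z | z = ∞ ∨ ∃ l ∈ S, z = OnePoint.some l}, by rw [(ncard_chart S).1, hS],
    fun B' hB' hr γ Λ hγ => ?_⟩
  set B : Set (OnePoint k) := {z | z = ∞ ∨ ∃ l ∈ S, z = OnePoint.some l} with hB
  have hΛ : Λ.card = 2 * g + 1 := by have := chart_card hγ; omega
  have hdet : γ 0 0 * γ 1 1 - γ 0 1 * γ 1 0 ≠ 0 := by
    have := γ.det_ne_zero
    rwa [Matrix.det_fin_two] at this
  obtain ⟨l, hl⟩ : ∃ l, g = r * p + e + l + 1 := ⟨g - (r * p + e + 1), by omega⟩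
  have hex := form_exact hdet (e := e) (l := l) (ε := ε) (ν := ν) (m := m)
    ((CharP.cast_eq_zero_iff k p _).2 ⟨e + l + 2 + r * p - r, by
      have h1 : r ≤ r * p := Nat.le_mul_of_pos_right r hp.out.pos
      obtain ⟨w, hw⟩ := Nat.exists_eq_add_of_le h1
      rw [hεν, hl, hw, show e + l + 2 + (r + w) - r = e + l + 2 + w by omega]
      rw [hpm] at hw ⊢
      nlinarith⟩)
    (fun j hj h => he' j hj ((CharP.cast_eq_zero_iff k p _).1 h))
  have hA : (C (γ 0 0) * X + C (γ 0 1) : k[X]) ≠ 0 := lin_ne (by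
    by_contra h; push Not at h; exact hdet (by rw [h.1, h.2]; ring))
  have hD : (C (γ 1 0) * X + C (γ 1 1) : k[X]) ≠ 0 := lin_ne (by
    by_contra h; push Not at h; exact hdet (by rw [h.1, h.2]; ring))
  obtain ⟨u₀, G, hu₀, hdeg, hG⟩ := transfer hpm (form_ne hdet ε hν)
    (mul_ne_zero (pow_ne_zero e hA) (pow_ne_zero l hD)) hex
    (Λ.filter fun t => γ • (t : OnePoint k) ∈ B) (Λ.filter fun t => ¬ γ • (t : OnePoint k) ∈ B)
    (Finset.disjoint_filter_filter_not _ _ _) (fun t ht => by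
      have h1 := (Finset.mem_filter.1 ht).2
      rw [smul_some_eq_ite] at h1
      simpa using hom_zero hS' h1)
  rw [Finset.filter_union_filter_not_eq] at hG
  refine ⟨u₀, G, hu₀, ?_, hG⟩
  set Λ₂ : Finset k := Λ.filter fun t : k => ¬ γ • (t : OnePoint k) ∈ B with hΛ₂
  have hsum := Finset.card_filter_add_card_filter_not (s := Λ)
    (fun t : k => γ • (t : OnePoint k) ∈ B)
  rw [← hΛ₂, hΛ] at hsum
  have hu : ((C (γ 0 0) * X + C (γ 0 1)) ^ e * (C (γ 1 0) * X + C (γ 1 1)) ^ l : k[X]).natDegree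
      ≤ e + l := natDegree_mul_le_of_le
    ((natDegree_pow_le_of_le e (lin_deg _ _)).trans (mul_one e).le)
    ((natDegree_pow_le_of_le l (lin_deg _ _)).trans (mul_one l).le)
  have hfin : {z : OnePoint k | γ • z ∈ B' \ B}.Finite :=
    (ncard_chart Λ).2.2.subset fun z hz => (hγ z).1 hz.1
  have hsub : ∀ t ∈ Λ₂, γ • (t : OnePoint k) ∈ B' \ B := fun t ht =>
    ⟨(hγ _).2 (Or.inr ⟨t, (Finset.mem_filter.1 ht).1, rfl⟩), (Finset.mem_filter.1 ht).2⟩
  obtain ⟨hF, hFc⟩ := form_deg (γ 0 0) (γ 0 1) (γ 1 0) (γ 1 1) ε ν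
  rw [← ncard_smul γ] at hr
  by_cases hinf : γ • (∞ : OnePoint k) ∈ B
  · have h1 : Λ₂.card ≤ r := by
      rw [← (ncard_chart Λ₂).2.1]
      refine (Set.ncard_le_ncard ?_ hfin).trans hr
      rintro z ⟨t, ht, rfl⟩
      exact hsub t ht
    rw [smul_infty_eq_ite] at hinf
    have h2 := natDegree_le_pred hF (hFc.trans (hom_zero hS' hinf))
    rw [show ε + 1 + ν - 1 = 2 * g + 1 by omega] at h2
    have h3 := Nat.mul_le_mul_left m h2
    have h4 := Nat.mul_le_mul_right p h1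
    rw [← hsum, Nat.mul_add] at h3
    rw [hpm] at h4 hl
    nlinarith
  · have h1 : Λ₂.card + 1 ≤ r := by
      rw [← (ncard_chart Λ₂).1]
      refine (Set.ncard_le_ncard ?_ hfin).trans hr
      rintro z (rfl | ⟨t, ht, rfl⟩)
      · exact ⟨(hγ _).2 (Or.inl rfl), hinf⟩
      · exact hsub t ht
    rw [show ε + 1 + ν = 2 * g + 1 + 1 by omega] at hF
    have h3 := Nat.mul_le_mul_left m hF
    have h4 := Nat.mul_le_mul_right p h1
    rw [← hsum, Nat.mul_add, Nat.mul_add] at h3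
    rw [hpm] at h4 hl
    nlinarith

theorem main (p : ℕ) (hp : p.Prime) (hp2 : 2 < p) [IsAlgClosed k] [CharP k p] (r g : ℕ)
    (hg : r * p + (p + 3) / 2 ≤ g) :
    ∃ B : Set (OnePoint k), B.ncard = 2 * g + 2 ∧ ∀ B' : Set (OnePoint k),
      B'.ncard = 2 * g + 2 → (B' \ B).ncard ≤ r →
      (∃ (Y : Scheme.{u}) (s : Y ⟶ Spec (CommRingCat.of k)), Jac.IsModel B' s) ∧
      ∀ (Y : Scheme.{u}) (s : Y ⟶ Spec (CommRingCat.of k)), Jac.IsModel B' s →
        (Jac.homMu s p).encard ≤ (p : ℕ∞) ^ (g - 1) := by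
  have : Fact p.Prime := ⟨hp⟩
  obtain ⟨m, hm⟩ := hp.odd_of_ne_two (by omega)
  obtain ⟨B, hB, H⟩ := data (k := k) p hm r g (by omega)
  have hnat : ∀ T : Finset k, (∏ l ∈ T, (X - C l) : k[X]).natDegree = T.card := by
    intro T
    rw [natDegree_prod_of_monic _ _ (fun l _ => monic_X_sub_C l)]
    simp
  have h2 : (2 : k) ≠ 0 := fun h => by
    have h2 := (CharP.cast_eq_zero_iff k p 2).1 (by exact_mod_cast h)
    have := Nat.le_of_dvd two_pos h2
    omega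
  refine ⟨B, hB, fun B' hB' hr => ⟨?_, ?_⟩⟩
  · obtain ⟨γ, Λ, hγ⟩ := exists_chart (Set.finite_of_ncard_ne_zero (by omega : B'.ncard ≠ 0))
      (Set.nonempty_of_ncard_ne_zero (by omega))
    have hΛ : Λ.card = 2 * g + 1 := by have := chart_card hγ; omega
    obtain ⟨Y, s, j, h1, h3, h4, h5, h6⟩ := Jac.exists_model h2 ((hnat Λ).trans hΛ)
      (separable_prod_X_sub_C_iff'.2 (fun x _ y _ h => h))
    exact ⟨Y, s, h1, h3, h4, γ, Λ, j, hγ, h5, h6⟩
  · rintro Y s ⟨h1, h3, h4, γ, Λ, j, hγ, h5, h6⟩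
    have hΛ : Λ.card = 2 * g + 1 := by have := chart_card hγ; omega
    obtain ⟨u₀, G, hu₀, hdeg, hG⟩ := H B' hB' hr γ Λ hγ
    exact Jac.homMu_le s p hm ((hnat Λ).trans hΛ) j h6 u₀ G hu₀ hdeg hG

end Pool.Agent.Lib.MP_2ca583_ag.AnyPt
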