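import Pool.Agent.Lib.MP_2ca583_ag.Poly

set_option autoImplicit false

open Polynomial
open QuadraticAlgebra hiding C_mul C_pow C_ofNat C_add C_neg C_sub

namespace Pool.Agent.Lib.MP_2ca583_ag

variable {k : Type*} [Field k]

/-- The affine coordinate ring of `y ^ 2 = f`. -/
abbrev RR (f : k[X]) : Type _ := QuadraticAlgebra k[X] f 0

/-- The derivation `2 y d/dx` of the coordinate ring. -/
noncomputable def del (f : k[X]) (a : RR f) : RR f :=
  ⟨2 * derivative a.im * f + a.im * derivative f, 2 * derivative a.re⟩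

lemma del_add (f : k[X]) (a b : RR f) : del f (a + b) = del f a + del f b := by
  apply QuadraticAlgebra.ext <;> simp [del] <;> ring

lemma del_mul (f : k[X]) (a b : RR f) : del f (a * b) = a * del f b + b * del f a := by
  apply QuadraticAlgebra.ext <;> simp [del] <;> ring

lemma del_one (f : k[X]) : del f 1 = 0 := by
  apply QuadraticAlgebra.ext <;> simp [del]

lemma del_star (f : k[X]) (a : RR f) : del f (star a) = -star (del f a) := by
  apply QuadraticAlgebra.ext
  · simp [del]; ring
  · simp [del]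

lemma del_pow_succ (f : k[X]) (a : RR f) (n : ℕ) :
    del f (a ^ (n + 1)) = ((n + 1 : ℕ) : RR f) * a ^ n * del f a := by
  induction n with
  | zero => simp
  | succ n ih => rw [pow_succ, del_mul, ih]; push_cast; ring

instance charP_RR (f : k[X]) (p : ℕ) [CharP k p] : CharP (RR f) p :=
  charP_of_injective_algebraMap (R := k[X]) QuadraticAlgebra.algebraMap_injective p

lemma del_pow_char (f : k[X]) (p : ℕ) [hp : Fact p.Prime] [CharP k p] (a : RR f) :
    del f (a ^ p) = 0 := by
  obtain ⟨n, rfl⟩ : ∃ n, p = n + 1 := ⟨p - 1, (Nat.sub_add_cancel hp.out.pos).symm⟩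
  rw [del_pow_succ, CharP.cast_eq_zero]; simp

lemma norm_ne_zero {f : k[X]} {g : ℕ} (hf : f.natDegree = 2 * g + 1) {A B : k[X]}
    (h : A ≠ 0 ∨ B ≠ 0) : A ^ 2 - f * B ^ 2 ≠ 0 := by
  intro h0
  have hf0 : f ≠ 0 := by rintro rfl; simp at hf
  have h1 : A ^ 2 = f * B ^ 2 := sub_eq_zero.1 h0
  by_cases hB : B = 0
  · rw [hB] at h1
    have : A = 0 := by simpa using h1
    tauto
  · have := congrArg natDegree h1
    rw [natDegree_mul hf0 (pow_ne_zero 2 hB), natDegree_pow, natDegree_pow] at this
    omega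

lemma ne_zero_iff {f : k[X]} {a : RR f} : a ≠ 0 ↔ a.re ≠ 0 ∨ a.im ≠ 0 := by
  rw [← not_and_or]
  refine not_congr ⟨?_, ?_⟩
  · rintro rfl; simp
  · rintro ⟨h1, h2⟩; apply QuadraticAlgebra.ext <;> simp [h1, h2]

lemma mul_star_eq {f : k[X]} (a : RR f) :
    a * star a = algebraMap k[X] (RR f) (a.re ^ 2 - f * a.im ^ 2) := by
  rw [QuadraticAlgebra.algebraMap_eq]
  apply QuadraticAlgebra.ext <;> simp <;> ring

lemma isDomain_RR {f : k[X]} {g : ℕ} (hf : f.natDegree = 2 * g + 1) : IsDomain (RR f) := by
  have : NoZeroDivisors (RR f) := ⟨by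
    intro a b hab
    by_contra hne
    rw [not_or] at hne
    have ha := norm_ne_zero hf (ne_zero_iff.1 hne.1)
    have hb := norm_ne_zero hf (ne_zero_iff.1 hne.2)
    apply mul_ne_zero ha hb
    apply QuadraticAlgebra.algebraMap_injective (a := f) (b := 0)
    rw [map_mul, ← mul_star_eq, ← mul_star_eq, map_zero]
    linear_combination (star a * star b) * hab⟩
  exact NoZeroDivisors.to_isDomain _

lemma omega_pow_odd (f : k[X]) (m : ℕ) :
    (ω : RR f) ^ (2 * m + 1) = ⟨0, f ^ m⟩ := by
  induction m with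
  | zero => apply QuadraticAlgebra.ext <;> simp
  | succ m ih =>
    rw [show 2 * (m + 1) + 1 = 2 * m + 1 + 1 + 1 by ring, pow_succ, pow_succ, ih]
    apply QuadraticAlgebra.ext <;> simp [pow_succ, mul_comm]

lemma pow_char_eq {f : k[X]} {p m : ℕ} [hp : Fact p.Prime] [CharP k p] (hpm : p = 2 * m + 1)
    (a : RR f) : a ^ p = ⟨a.re ^ p, a.im ^ p * f ^ m⟩ := by
  have h1 : a = algebraMap k[X] (RR f) a.re + algebraMap k[X] (RR f) a.im * ω := by
    apply QuadraticAlgebra.ext <;> simp
  have h2 : (ω : RR f) ^ p = ⟨0, f ^ m⟩ := by rw [hpm]; exact omega_pow_odd f m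
  conv_lhs => rw [h1, add_pow_char, mul_pow, h2, ← map_pow, ← map_pow,
    QuadraticAlgebra.algebraMap_eq, QuadraticAlgebra.algebraMap_eq]
  apply QuadraticAlgebra.ext <;> simp

lemma two_mul_succ_cast {p m : ℕ} [CharP k p] (hpm : p = 2 * m + 1) :
    (2 * ((m : k[X]) + 1)) = 1 := by
  have : ((p : ℕ) : k[X]) = 0 := CharP.cast_eq_zero _ p
  rw [hpm] at this
  push_cast at this
  linear_combination this

lemma two_ne_zero_of {p m : ℕ} [CharP k p] (hpm : p = 2 * m + 1) : (2 : k[X]) ≠ 0 := by
  intro h
  have := two_mul_succ_cast (k := k) hpm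
  rw [h, zero_mul] at this
  exact zero_ne_one this

lemma two_mul_derivative {p m : ℕ} [CharP k p] (hpm : p = 2 * m + 1) (f B : k[X]) :
    2 * derivative (B * f ^ (m + 1))
      = (2 * derivative B * f + B * derivative f) * f ^ m := by
  have h := two_mul_succ_cast (k := k) hpm
  rw [derivative_mul, derivative_pow_succ]
  simp only [map_add, map_natCast, map_one]
  linear_combination (B * f ^ m * derivative f) * h

/-- A regular logarithmic differential has the form `u dx / (2 y)` with `deg u < g`, and `u`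
satisfies Cartier's identity. -/
lemma core1 [IsAlgClosed k] {p m g : ℕ} [hp : Fact p.Prime] [CharP k p] (hpm : p = 2 * m + 1)
    {f : k[X]} (hf : f.natDegree = 2 * g + 1) {a v : RR f} (ha : a ≠ 0) (h : del f a = v * a) :
    v.im = 0 ∧ v.re.degree < g ∧ hasseDeriv (p - 1) (v.re * f ^ m) = v.re ^ p := by
  obtain ⟨A, B⟩ := a
  obtain ⟨u, w⟩ := v
  have hf0 : f ≠ 0 := by rintro rfl; simp at hf
  have h2 := two_ne_zero_of (k := k) hpm
  have hre := congrArg QuadraticAlgebra.re h
  have him := congrArg QuadraticAlgebra.im h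
  simp only [del, re_mul, im_mul, zero_mul, add_zero] at hre him
  have hAB : A ≠ 0 ∨ B ≠ 0 := ne_zero_iff.1 ha
  have hn := norm_ne_zero hf hAB
  have hdn : derivative (A ^ 2 - f * B ^ 2) = w * (A ^ 2 - f * B ^ 2) := by
    simp only [derivative_sub, derivative_mul, derivative_sq, C_ofNat]
    linear_combination A * him - B * hre
  have hw : w = 0 := by
    by_contra hw
    have h1 := degree_derivative_lt hn
    rw [hdn, degree_mul] at h1
    have h3 : (0 : WithBot ℕ) ≤ w.degree := zero_le_degree_iff.2 hw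
    have h4 := add_le_add_left h3 (A ^ 2 - f * B ^ 2).degree
    rw [zero_add] at h4
    exact absurd h1 (not_lt.2 h4)
  subst hw
  simp only [mul_zero, zero_mul, add_zero] at hre him
  refine ⟨rfl, ?_, ?_⟩
  · change u.degree < g
    by_cases hu : u = 0
    · rw [hu, degree_zero]; exact WithBot.bot_lt_coe _
    have hA : A ≠ 0 := by
      rintro rfl
      have hB : B ≠ 0 := by tauto
      rw [derivative_zero, mul_zero] at him
      exact mul_ne_zero hu hB him.symm
    have hB : B ≠ 0 := by
      rintro rfl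
      simp only [derivative_zero, mul_zero, zero_mul, add_zero] at hre
      exact mul_ne_zero hu hA hre.symm
    have e2 : (2 : k[X]) = C 2 := rfl
    have hk2 : (2 : k) ≠ 0 := fun h0 => h2 (by rw [e2, h0, C_0])
    have d1 : u.natDegree + B.natDegree + 1 ≤ A.natDegree := by
      have hA' : derivative A ≠ 0 := by
        intro h0; rw [h0, mul_zero] at him; exact mul_ne_zero hu hB him.symm
      have hA0 : A.natDegree ≠ 0 := fun h0 => hA' (derivative_of_natDegree_zero h0)
      have := natDegree_derivative_lt hA0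
      rw [← natDegree_mul hu hB, ← him, e2, natDegree_C_mul hk2]
      omega
    have d2 : u.natDegree + A.natDegree ≤ B.natDegree + 2 * g := by
      rw [← natDegree_mul hu hA, ← hre]
      refine (natDegree_add_le _ _).trans (max_le ?_ ?_)
      · by_cases hB' : derivative B = 0
        · simp [hB']
        · have hB0 : B.natDegree ≠ 0 := fun h0 => hB' (derivative_of_natDegree_zero h0)
          have := natDegree_derivative_lt hB0
          rw [e2, mul_assoc, natDegree_C_mul hk2, natDegree_mul hB' hf0]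
          omega
      · have := natDegree_derivative_le f
        exact natDegree_mul_le.trans (by omega)
    rw [degree_eq_natDegree hu]
    exact_mod_cast (by omega : u.natDegree < g)
  · change hasseDeriv (p - 1) (u * f ^ m) = u ^ p
    have e2 : (2 : k[X]) = C 2 := rfl
    have hk2 : (2 : k) ≠ 0 := fun h0 => h2 (by rw [e2, h0, C_0])
    apply eq_of_infinite_eval_eq
    have hfin : {x : k | IsRoot (f * (A ^ 2 - f * B ^ 2)) x}.Finite :=
      finite_setOfPred_isRoot (mul_ne_zero hf0 hn)
    refine (hfin.infinite_compl).mono ?_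
    intro x hx
    simp only [Set.mem_compl_iff, Set.mem_ofPred_eq, IsRoot.def, eval_mul, mul_eq_zero,
      not_or] at hx
    obtain ⟨hfx, hnx⟩ := hx
    obtain ⟨c, hc⟩ := IsAlgClosed.exists_pow_nat_eq ((f.eval x ^ p)⁻¹) (n := 2) (by norm_num)
    have hc1 : c ^ 2 * f.eval x ^ p = 1 := by
      rw [hc]; exact inv_mul_cancel₀ (pow_ne_zero p hfx)
    have hc0 : c ≠ 0 := by rintro rfl; simp at hc1
    have hQ : (A + C c * (B * f ^ (m + 1))).eval x ≠ 0 := by
      intro h0
      apply hnx
      simp only [eval_add, eval_mul, eval_C, eval_pow, eval_sub] at h0 ⊢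
      rw [hpm] at hc1
      linear_combination (eval x A - c * (eval x B * eval x f ^ (m + 1))) * h0
        + (eval x f * eval x B ^ 2) * hc1
    have hdvd : (X - C x) ^ p ∣ derivative (A + C c * (B * f ^ (m + 1)))
        - (C (c / 2) * (u * f ^ m)) * (A + C c * (B * f ^ (m + 1))) := by
      have hu2 : IsUnit (2 : k[X]) := by rw [e2]; exact isUnit_C.2 (isUnit_iff_ne_zero.2 hk2)
      rw [← hu2.dvd_mul_left]
      have h5 : (X - C x) ^ p ∣ (f - C (f.eval x)) ^ p := pow_dvd_pow_of_dvd X_sub_C_dvd_sub_C_eval p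
      rw [sub_pow_char (x := f)] at h5
      have h6 : (2 : k[X]) * C (c / 2) = C c := by
        rw [e2, ← C_mul]; congr 1; field_simp
      have h7 : (C c : k[X]) ^ 2 * C (f.eval x) ^ p = 1 := by
        rw [← C_pow, ← C_pow, ← C_mul, hc1, C_1]
      have h8 := two_mul_derivative hpm f B
      have h9 : f ^ p = f ^ m * f ^ (m + 1) := by rw [hpm]; ring
      have e : 2 * (derivative (A + C c * (B * f ^ (m + 1)))
          - (C (c / 2) * (u * f ^ m)) * (A + C c * (B * f ^ (m + 1))))
          = (f ^ p - C (f.eval x) ^ p) * (-(u * B * C c ^ 2)) := by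
        rw [derivative_add, derivative_C_mul, h9]
        linear_combination him + C c * h8 + (C c * f ^ m) * hre
          - (u * f ^ m * (A + C c * (B * f ^ (m + 1)))) * h6 - (u * B) * h7
      rw [e]
      exact h5.mul_right _
    have key := logDeriv_eval p x _ _ hQ hdvd
    rw [← smul_eq_C_mul, map_smul] at key
    simp only [eval_smul, smul_eq_mul, eval_mul, eval_pow] at key
    simp only [Set.mem_ofPred_eq, eval_pow]
    have h2p : (2 : k) ^ p = 2 := by
      have := add_pow_char (1 : k) 1 p
      rw [one_pow] at this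
      rw [← one_add_one_eq_two, this]
    have hc2 : c / 2 ≠ 0 := div_ne_zero hc0 hk2
    apply mul_left_cancel₀ hc2
    rw [key, mul_pow, mul_pow, div_pow, h2p]
    have h10 : c ^ p * (f.eval x ^ m) ^ p = c := by
      have : c ^ p * (f.eval x ^ m) ^ p = c * (c ^ 2 * f.eval x ^ p) ^ m := by
        have e : c ^ p = c * (c ^ 2) ^ m := by rw [hpm]; ring
        rw [e]; ring
      rw [this, hc1]; simp
    linear_combination (eval x u ^ p / 2) * h10

/-- Elements killed by the derivation are `p`-th powers in the function field. -/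
lemma core2 [IsAlgClosed k] {p m : ℕ} [hp : Fact p.Prime] [CharP k p] (hpm : p = 2 * m + 1)
    {f : k[X]} {z : RR f} (h : del f z = 0) : ∃ w : RR f, z * ω ^ p = w ^ p := by
  obtain ⟨A, B⟩ := z
  have h2 := two_ne_zero_of (k := k) hpm
  have hre := congrArg QuadraticAlgebra.re h
  have him := congrArg QuadraticAlgebra.im h
  simp only [del, re_zero, im_zero] at hre him
  have hA : derivative A = 0 := (mul_eq_zero.1 him).resolve_left h2
  have hB : derivative (B * f ^ (m + 1)) = 0 := by
    have := two_mul_derivative hpm f B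
    rw [hre, zero_mul] at this
    exact (mul_eq_zero.1 this).resolve_left h2
  obtain ⟨A₁, hA₁⟩ := exists_pow_of_derivative_eq_zero p hA
  obtain ⟨B₁, hB₁⟩ := exists_pow_of_derivative_eq_zero p hB
  refine ⟨⟨B₁, A₁⟩, ?_⟩
  rw [pow_char_eq hpm ⟨B₁, A₁⟩, pow_char_eq hpm ω]
  apply QuadraticAlgebra.ext
  · simp only [re_mul, omega_re, omega_im, zero_pow hp.out.ne_zero, ← hB₁]; ring
  · simp only [im_mul, omega_re, omega_im, zero_pow hp.out.ne_zero, ← hA₁]; ring

/-- The coordinate ring is closed under `p`-th roots in its fraction field. -/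
lemma core3 {p m g : ℕ} [hp : Fact p.Prime] [CharP k p] (hpm : p = 2 * m + 1)
    {f : k[X]} (hf : f.natDegree = 2 * g + 1) (hsq : Squarefree f) {r s : RR f} (hs : s ≠ 0)
    (h : s ^ p ∣ r ^ p) : s ∣ r := by
  have := isDomain_RR hf
  have hn := norm_ne_zero hf (ne_zero_iff.1 hs)
  set n := s.re ^ 2 - f * s.im ^ 2 with hndef
  have hstar : star s ≠ 0 := by simpa using hs
  have h1 : algebraMap k[X] (RR f) (n ^ p) ∣ (r * star s) ^ p := by
    rw [map_pow, ← mul_star_eq, mul_pow, mul_pow]
    exact mul_dvd_mul_right h _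
  rw [pow_char_eq hpm, algebraMap_dvd_iff] at h1
  have h2 : algebraMap k[X] (RR f) n ∣ r * star s := by
    rw [algebraMap_dvd_iff]
    exact ⟨(IsIntegrallyClosed.pow_dvd_pow_iff hp.out.ne_zero).1 h1.1,
      dvd_of_pow_dvd_pow_mul hsq (by omega) hn h1.2⟩
  rw [← mul_star_eq] at h2
  exact (mul_dvd_mul_iff_right hstar).1 h2

end Pool.Agent.Lib.MP_2ca583_ag
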