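import Pool.Agent.Lib.MP_2ca583_ag.JBase

set_option autoImplicit false

namespace Pool.Agent.Lib.MP_2ca583_ag.Jac

variable {R K : Type*} [CommRing R] [Field K] {θ : R →+* K}

/-- The ideal of denominators. -/
def aff_den (θ : R →+* K) (z : K) : Ideal R where
  carrier := {r | z * θ r ∈ θ.range}
  add_mem' := fun {a b} ha hb => by
    show z * θ (a + b) ∈ θ.range
    rw [map_add, mul_add]
    exact add_mem ha hb
  zero_mem' := by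
    show z * θ 0 ∈ θ.range
    rw [map_zero, mul_zero]
    exact zero_mem _
  smul_mem' := fun c a ha => by
    show z * θ (c * a) ∈ θ.range
    rw [map_mul, mul_left_comm]
    exact mul_mem ⟨c, rfl⟩ ha

theorem aff_one (I : Ideal R) (h : ∀ 𝔭 : PrimeSpectrum R, ∃ b ∈ I, b ∉ 𝔭.asIdeal) :
    (1 : R) ∈ I := by
  by_contra h1
  obtain ⟨m, hm, hI⟩ := I.exists_le_maximal ((Ideal.ne_top_iff_one I).2 h1)
  obtain ⟨b, hb, hb'⟩ := h ⟨m, hm.isPrime⟩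
  exact hb' (hI hb)

theorem aff_pow (z : K) (f : R) (h : ∀ 𝔭 : PrimeSpectrum R, f ∉ 𝔭.asIdeal → z ∈ Loc θ 𝔭) :
    ∃ n : ℕ, z * θ (f ^ n) ∈ θ.range := by
  have : f ∈ (aff_den θ z).radical := by
    rw [Ideal.radical_eq_sInf, Ideal.mem_sInf]
    rintro J ⟨h1, h2⟩
    by_contra hf
    obtain ⟨a, b, hb, e⟩ := h ⟨J, h2⟩ hf
    exact hb (h1 ⟨a, e.symm⟩)
  exact this

/-- An element lying in all localizations lies in the ring. -/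
theorem mem_range_of_loc (z : K) (h : ∀ 𝔭 : PrimeSpectrum R, z ∈ Loc θ 𝔭) : z ∈ θ.range := by
  have : (1 : R) ∈ aff_den θ z := aff_one _ fun 𝔭 => by
    obtain ⟨a, b, hb, e⟩ := h 𝔭
    exact ⟨b, ⟨a, e.symm⟩, hb⟩
  obtain ⟨a, e⟩ := this
  exact ⟨a, by simpa using e⟩

/-- Vanishing of `H^1` of the structure sheaf of an integral affine scheme. -/
theorem exists_global (hθ : Function.Injective θ) (a : PrimeSpectrum R → K)
    (h : ∀ 𝔭, ∃ U : Set (PrimeSpectrum R), IsOpen U ∧ 𝔭 ∈ U ∧ ∀ 𝔮 ∈ U, a 𝔭 - a 𝔮 ∈ Loc θ 𝔮) :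
    ∃ κ : K, ∀ 𝔭, a 𝔭 - κ ∈ Loc θ 𝔭 := by
  have h0 : ∀ 𝔭 : PrimeSpectrum R, ∃ f, f ∉ 𝔭.asIdeal ∧
      ∀ 𝔮 : PrimeSpectrum R, f ∉ 𝔮.asIdeal → a 𝔭 - a 𝔮 ∈ Loc θ 𝔮 := by
    intro 𝔭
    obtain ⟨U, hU, h1, h2⟩ := h 𝔭
    obtain ⟨_, ⟨f, rfl⟩, h3, h4⟩ :=
      PrimeSpectrum.isTopologicalBasis_basic_opens.exists_subset_of_mem_open h1 hU
    exact ⟨f, h3, fun 𝔮 h5 => h2 𝔮 (h4 h5)⟩
  choose f hf hf' using h0
  have h1 : ∀ 𝔭, ∃ n : ℕ, ∀ 𝔮, θ (f 𝔭) ^ n * (a 𝔭 - a 𝔮) ∈ Loc θ 𝔮 := by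
    intro 𝔭
    have hp : ∀ (n : ℕ) 𝔮, θ (f 𝔭) ^ n ∈ Loc θ 𝔮 := fun n 𝔮 => pow_mem (map_mem_Loc θ 𝔮 _) n
    let N : Ideal R :=
      { carrier := {g | ∃ n : ℕ, ∀ 𝔮 : PrimeSpectrum R, g ∉ 𝔮.asIdeal →
          θ (f 𝔭) ^ n * (a 𝔭 - a 𝔮) ∈ Loc θ 𝔮}
        add_mem' := by
          rintro g g' ⟨n, hn⟩ ⟨m, hm⟩
          refine ⟨n + m, fun 𝔮 hq => ?_⟩
          by_cases hg : g ∈ 𝔮.asIdeal
          · rw [pow_add, mul_assoc]
            exact mul_mem (hp n 𝔮) (hm 𝔮 fun hg' => hq (add_mem hg hg'))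
          · rw [add_comm, pow_add, mul_assoc]
            exact mul_mem (hp m 𝔮) (hn 𝔮 hg)
        zero_mem' := ⟨0, fun 𝔮 hq => absurd (zero_mem _) hq⟩
        smul_mem' := by
          rintro c g ⟨n, hn⟩
          exact ⟨n, fun 𝔮 hq => hn 𝔮 fun hg => hq (𝔮.asIdeal.mul_mem_left c hg)⟩ }
    obtain ⟨n, hn⟩ : (1 : R) ∈ N := aff_one _ fun 𝔮 => by
      refine ⟨f 𝔮, ?_, hf 𝔮⟩
      obtain ⟨n, c, hc⟩ := aff_pow (θ := θ) (a 𝔭 - a 𝔮) (f 𝔭 * f 𝔮) fun 𝔯 hr => by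
        have := sub_mem (hf' 𝔭 𝔯 fun e => hr (𝔯.asIdeal.mul_mem_right _ e))
          (hf' 𝔮 𝔯 fun e => hr (𝔯.asIdeal.mul_mem_left _ e))
        rwa [sub_sub_sub_cancel_right] at this
      refine ⟨n, fun 𝔯 hr => ?_⟩
      have e : θ (f 𝔭) ^ n * (a 𝔭 - a 𝔯) =
          θ (f 𝔭) ^ n * (a 𝔭 - a 𝔮) + θ (f 𝔭) ^ n * (a 𝔮 - a 𝔯) := by ring
      rw [e]
      refine add_mem ⟨c, f 𝔮 ^ n, fun h2 => hr (𝔯.2.mem_of_pow_mem n h2), ?_⟩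
        (mul_mem (hp n 𝔯) (hf' 𝔮 𝔯 hr))
      rw [hc, map_pow, map_pow, map_mul]
      ring
    exact ⟨n, fun 𝔮 => hn 𝔮 ((Ideal.ne_top_iff_one _).1 𝔮.2.ne_top)⟩
  let J : Ideal R :=
    { carrier := {r | ∃ κ : K, ∀ 𝔮, θ r * a 𝔮 - κ ∈ Loc θ 𝔮}
      add_mem' := by
        rintro r s ⟨κ, hr⟩ ⟨κ', hs⟩
        refine ⟨κ + κ', fun 𝔮 => ?_⟩
        rw [map_add, add_mul, add_sub_add_comm]
        exact add_mem (hr 𝔮) (hs 𝔮)
      zero_mem' := ⟨0, fun 𝔮 => by simp⟩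
      smul_mem' := by
        rintro c r ⟨κ, hr⟩
        refine ⟨θ c * κ, fun 𝔮 => ?_⟩
        rw [smul_eq_mul, map_mul, mul_assoc, ← mul_sub]
        exact mul_mem (map_mem_Loc θ 𝔮 c) (hr 𝔮) }
  obtain ⟨κ, hκ⟩ : (1 : R) ∈ J := aff_one _ fun 𝔭 => by
    obtain ⟨n, hn⟩ := h1 𝔭
    refine ⟨f 𝔭 ^ n, ⟨θ (f 𝔭 ^ n) * a 𝔭, fun 𝔮 => ?_⟩, fun h2 => hf 𝔭 (𝔭.2.mem_of_pow_mem n h2)⟩
    have := neg_mem (hn 𝔮)
    rwa [mul_sub, neg_sub, ← map_pow] at this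
  exact ⟨κ, fun 𝔭 => by simpa using hκ 𝔭⟩

/-- The localization as an algebra. -/
@[reducible] def aff_alg (θ : R →+* K) (𝔭 : PrimeSpectrum R) : Algebra R (Loc θ 𝔭) :=
  (θ.codRestrict (Loc θ 𝔭) (map_mem_Loc θ 𝔭)).toAlgebra

theorem aff_loc (hθ : Function.Injective θ) (𝔭 : PrimeSpectrum R) :
    letI := aff_alg θ 𝔭
    IsLocalization.AtPrime (Loc θ 𝔭) 𝔭.asIdeal := by
  let _ := aff_alg θ 𝔭
  refine (isLocalization_iff _ _).2 ⟨fun y => ?_, fun z => ?_, fun {x y} e => ⟨1, ?_⟩⟩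
  · have h0 : θ y ≠ 0 := fun e => y.2 (by
      rw [show (y : R) = 0 from hθ (e.trans (map_zero θ).symm)]
      exact zero_mem _)
    exact isUnit_iff_exists_inv.2 ⟨⟨(θ y)⁻¹, 1, y, y.2, by rw [inv_mul_cancel₀ h0, map_one]⟩,
      Subtype.ext (mul_inv_cancel₀ h0)⟩
  · obtain ⟨a, b, hb, e⟩ := z.2
    exact ⟨(a, ⟨b, hb⟩), Subtype.ext e⟩
  · rw [hθ (congrArg Subtype.val e)]

theorem aff_dom (hθ : Function.Injective θ) (𝔭 : PrimeSpectrum R) [IsLocalRing (Loc θ 𝔭)]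
    {V : ValuationSubring K} (hV : LocalSubring.mk (Loc θ 𝔭) ≤ V.toLocalSubring) : Dom θ 𝔭 V := by
  let _ := aff_alg θ 𝔭
  have := aff_loc hθ 𝔭
  obtain ⟨h1, h2⟩ := hV
  refine ⟨fun a => h1 (map_mem_Loc θ 𝔭 a), fun a => ?_⟩
  have h3 := IsLocalization.AtPrime.isUnit_to_map_iff (Loc θ 𝔭) 𝔭.asIdeal a
  rw [← isUnit_map_iff (Subring.inclusion h1)] at h3
  have h4 := V.valuation_lt_one_iff ⟨θ a, h1 (map_mem_Loc θ 𝔭 a)⟩
  rw [IsLocalRing.mem_maximalIdeal, mem_nonunits_iff] at h4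
  exact (not_not.symm.trans h3.not.symm).trans h4

/-- Every prime is the centre of a valuation ring. -/
theorem exists_dom (hθ : Function.Injective θ) (𝔭 : PrimeSpectrum R) :
    ∃ V : ValuationSubring K, Dom θ 𝔭 V := by
  let _ := aff_alg θ 𝔭
  have := aff_loc hθ 𝔭
  have := IsLocalization.AtPrime.isLocalRing (Loc θ 𝔭) 𝔭.asIdeal
  obtain ⟨V, hV⟩ := (LocalSubring.mk (Loc θ 𝔭)).exists_le_valuationSubring
  exact ⟨V, aff_dom hθ 𝔭 hV⟩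

/-- A normal local ring is the intersection of the valuation rings dominating it. -/
theorem exists_dom_notMem [IsDomain R] [IsIntegrallyClosed R] (hθ : Function.Injective θ)
    (hK : ∀ z : K, ∃ a b : R, b ≠ 0 ∧ z * θ b = θ a) (𝔭 : PrimeSpectrum R) (z : K)
    (hz : z ∉ Loc θ 𝔭) : ∃ V : ValuationSubring K, Dom θ 𝔭 V ∧ z ∉ V := by
  let _ := aff_alg θ 𝔭
  have := aff_loc hθ 𝔭
  have := IsLocalization.AtPrime.isLocalRing (Loc θ 𝔭) 𝔭.asIdeal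
  let _ := θ.toAlgebra
  have : IsScalarTower R (Loc θ 𝔭) K := IsScalarTower.of_algebraMap_eq fun _ => rfl
  have : FaithfulSMul R K := (faithfulSMul_iff_algebraMap_injective R K).2 hθ
  have : IsFractionRing R K := IsFractionRing.of_field R K fun z => by
    obtain ⟨a, b, hb, e⟩ := hK z
    exact ⟨a, b, eq_div_of_mul_eq (fun e => hb (hθ (e.trans (map_zero θ).symm))) e⟩
  have : IsFractionRing (Loc θ 𝔭) K :=
    IsFractionRing.isFractionRing_of_isDomain_of_isLocalization 𝔭.asIdeal.primeCompl _ _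
  have : IsIntegrallyClosedIn (Loc θ 𝔭) K := (isIntegrallyClosed_iff_isIntegrallyClosedIn K).1
    (isIntegrallyClosed_of_isLocalization (Loc θ 𝔭) 𝔭.asIdeal.primeCompl
      𝔭.asIdeal.primeCompl_le_nonZeroDivisors)
  obtain ⟨V, hV, hz'⟩ := LocalSubring.exists_le_valuationSubring_of_isIntegrallyClosedIn
    (R := LocalSubring.mk (Loc θ 𝔭)) hz
  exact ⟨V, aff_dom hθ 𝔭 hV, hz'⟩

/-- A valuation ring containing the image of `R` has a centre. -/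
theorem exists_centre (V : ValuationSubring K) (h : ∀ a, θ a ∈ V) :
    ∃ 𝔭 : PrimeSpectrum R, Dom θ 𝔭 V := by
  exact ⟨⟨(IsLocalRing.maximalIdeal V).comap (θ.codRestrict V h), inferInstance⟩, h,
    fun a => V.valuation_lt_one_iff ⟨θ a, h a⟩⟩

end Pool.Agent.Lib.MP_2ca583_ag.Jac
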