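import Pool.Agent.Lib.MP_2ca583_ag.JDefs

set_option autoImplicit false

open Polynomial TensorProduct

universe u

namespace Pool.Agent.Lib.MP_2ca583_ag.Jac

/-- A unit of `Ω` which is a unit of the subring `S`. -/
def IsU {Ω σ : Type*} [CommRing Ω] [SetLike σ Ω] (S : σ) (u : Ωˣ) : Prop :=
  (u : Ω) ∈ S ∧ ((u⁻¹ : Ωˣ) : Ω) ∈ S

lemma IsU.inv {Ω σ : Type*} [CommRing Ω] [SetLike σ Ω] {S : σ} {u : Ωˣ} (h : IsU S u) :
    IsU S u⁻¹ := ⟨h.2, by simpa using h.1⟩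

lemma IsU.mul {Ω σ : Type*} [CommRing Ω] [SetLike σ Ω] [MulMemClass σ Ω] {S : σ} {u v : Ωˣ}
    (h : IsU S u) (h' : IsU S v) : IsU S (u * v) :=
  ⟨by simpa using mul_mem h.1 h'.1, by simpa [mul_comm] using mul_mem h.2 h'.2⟩

/-- The localization of `S` at `𝔭`, inside `Ω`. -/
def Loc {S Ω : Type*} [CommRing S] [CommRing Ω] (θ : S →+* Ω) (𝔭 : PrimeSpectrum S) :
    Subring Ω where
  carrier := {z | ∃ a b : S, b ∉ 𝔭.asIdeal ∧ z * θ b = θ a}
  mul_mem' := by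
    rintro z w ⟨a, b, hb, h⟩ ⟨c, d, hd, h'⟩
    refine ⟨a * c, b * d, fun hm => (𝔭.2.mem_or_mem hm).elim hb hd, ?_⟩
    rw [map_mul, map_mul, ← h, ← h']; ring
  one_mem' := ⟨1, 1, (Ideal.ne_top_iff_one _).1 𝔭.2.ne_top, by simp⟩
  add_mem' := by
    rintro z w ⟨a, b, hb, h⟩ ⟨c, d, hd, h'⟩
    refine ⟨a * d + c * b, b * d, fun hm => (𝔭.2.mem_or_mem hm).elim hb hd, ?_⟩
    rw [map_add, map_mul, map_mul, map_mul, ← h, ← h']; ring
  zero_mem' := ⟨0, 1, (Ideal.ne_top_iff_one _).1 𝔭.2.ne_top, by simp⟩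
  neg_mem' := by
    rintro z ⟨a, b, hb, h⟩
    exact ⟨-a, b, hb, by rw [map_neg, ← h]; ring⟩

lemma mem_Loc {S Ω : Type*} [CommRing S] [CommRing Ω] {θ : S →+* Ω} {𝔭 : PrimeSpectrum S}
    {z : Ω} : z ∈ Loc θ 𝔭 ↔ ∃ a b : S, b ∉ 𝔭.asIdeal ∧ z * θ b = θ a := Iff.rfl

lemma map_mem_Loc {S Ω : Type*} [CommRing S] [CommRing Ω] (θ : S →+* Ω) (𝔭 : PrimeSpectrum S)
    (a : S) : θ a ∈ Loc θ 𝔭 := ⟨a, 1, (Ideal.ne_top_iff_one _).1 𝔭.2.ne_top, by simp⟩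

/-- The valuation ring `V` contains the image of `S` and has centre `𝔭`. -/
def Dom {S K : Type*} [CommRing S] [Field K] (θ : S →+* K) (𝔭 : PrimeSpectrum S)
    (V : ValuationSubring K) : Prop :=
  (∀ a, θ a ∈ V) ∧ ∀ a, a ∈ 𝔭.asIdeal ↔ V.valuation (θ a) < 1

variable {k : Type u} [Field k] {K : Type u} [Field K] [Algebra k K]

/-- The image of `O ⊗ A` in `K ⊗ A`. -/
noncomputable def Sub (O : Subalgebra k K) (A : Type u) [CommRing A] [Algebra k A] :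
    Subalgebra k (K ⊗[k] A) :=
  (Algebra.TensorProduct.map O.val (AlgHom.id k A)).range

/-- Extension of scalars to `K` of a `k`-algebra map. -/
noncomputable def ext (K : Type u) [Field K] [Algebra k K] {A B : Type u} [CommRing A]
    [Algebra k A] [CommRing B] [Algebra k B] (φ : A →ₐ[k] B) : K ⊗[k] A →ₐ[k] K ⊗[k] B :=
  Algebra.TensorProduct.map (AlgHom.id k K) φ

/-- A family of units of `K ⊗ k[μ_p]` which is multiplicative up to a constant and local units. -/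
def Mult {p : ℕ} {I : Type u} (O : I → Subalgebra k K) (v : I → (K ⊗[k] Mu k p)ˣ) : Prop :=
  ∃ γ : (K ⊗[k] (Mu k p ⊗[k] Mu k p))ˣ, ∀ x, ∃ σ : (K ⊗[k] (Mu k p ⊗[k] Mu k p))ˣ,
    IsU (Sub (O x) (Mu k p ⊗[k] Mu k p)) σ ∧
      ext K (comul k p) (v x : K ⊗[k] Mu k p)
        = (γ : K ⊗[k] (Mu k p ⊗[k] Mu k p)) * (σ : K ⊗[k] (Mu k p ⊗[k] Mu k p))
          * ext K Algebra.TensorProduct.includeLeft (v x : K ⊗[k] Mu k p)
          * ext K Algebra.TensorProduct.includeRight (v x : K ⊗[k] Mu k p)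

/-- `K` is the function field of `y ^ 2 = f (T)`. -/
structure HypF (f : k[X]) (T y : K) : Prop where
  sq : y ^ 2 = aeval T f
  trans : ∀ C : k[X], C ≠ 0 → aeval T C ≠ 0
  gen : ∀ z : K, ∃ A B C : k[X], C ≠ 0 ∧ z * aeval T C = aeval T A + aeval T B * y

/-- The subring `O` contains the functions which are regular at infinity. -/
def PInf (k : Type u) [Field k] {K : Type u} [Field K] [Algebra k K] (g : ℕ) (T y : K)
    (O : Subring K) : Prop :=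
  (∀ A C : k[X], C ≠ 0 → A.natDegree ≤ C.natDegree → aeval T A / aeval T C ∈ O) ∧
    y / T ^ (g + 1) ∈ O

end Pool.Agent.Lib.MP_2ca583_ag.Jac
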