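import Mathlib

set_option autoImplicit false

open CategoryTheory CategoryTheory.Limits AlgebraicGeometry Polynomial TensorProduct

universe u

namespace Pool.Agent.Lib.MP_2ca583_ag.Jac

/-- The points of a scheme. -/
abbrev Pt (Y : Scheme.{u}) : Type u := Y

/-- The invertible sections of the structure sheaf over `U`. -/
abbrev Un (Y : Scheme.{u}) (U : Y.Opens) : Type u := Γ(Y, U)ˣ

/-- The product of two invertible sections. -/
noncomputable def mulU {Y : Scheme.{u}} {U : Y.Opens} (a b : Un Y U) : Un Y U := a * b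

/-- The restriction of an invertible section to a smaller open set. -/
noncomputable def resU {Y : Scheme.{u}} {U V : Y.Opens} (h : V ≤ U) (a : Un Y U) : Un Y V :=
  Units.map (Y.presheaf.map (homOfLE h).op).hom.toMonoidHom a

/-- The image of a point under a morphism of schemes. -/
noncomputable def img {Y Z : Scheme.{u}} (φ : Z ⟶ Y) (z : Pt Z) : Pt Y := φ z

/-- The preimage of an open set under a morphism of schemes. -/
noncomputable def pre {Y Z : Scheme.{u}} (φ : Z ⟶ Y) (U : Y.Opens) : Z.Opens := φ ⁻¹ᵁ U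

/-- The inverse image of an invertible section, restricted to an open subset of the preimage. -/
noncomputable def pullU {Y Z : Scheme.{u}} (φ : Z ⟶ Y) {U : Y.Opens} {V : Z.Opens}
    (e : V ≤ pre φ U) (a : Un Y U) : Un Z V :=
  Units.map (φ.appLE U V e).hom.toMonoidHom a

/-- A Cech 1-cocycle with values in the sheaf of units, on an open cover indexed by the points
(`U y` is a neighbourhood of `y`). -/
structure Cocycle (Y : Scheme.{u}) where
  U : Pt Y → Y.Opens
  mem : ∀ y : Pt Y, y ∈ U y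
  g : ∀ a b : Pt Y, Un Y (U a ⊓ U b)
  cocycle : ∀ (a b c : Pt Y) (W : Y.Opens) (ha : W ≤ U a) (hb : W ≤ U b) (hc : W ≤ U c),
    mulU (resU (le_inf ha hb) (g a b)) (resU (le_inf hb hc) (g b c)) = resU (le_inf ha hc) (g a c)

/-- Two cocycles are cohomologous if they differ by a coboundary on a common refinement. -/
def Cohom {Y : Scheme.{u}} (L M : Cocycle Y) : Prop :=
  ∃ (V : Pt Y → Y.Opens) (_ : ∀ y : Pt Y, y ∈ V y) (hL : ∀ y : Pt Y, V y ≤ L.U y)
    (hM : ∀ y : Pt Y, V y ≤ M.U y) (s : ∀ y : Pt Y, Un Y (V y)),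
    ∀ (a b : Pt Y) (W : Y.Opens) (ha : W ≤ V a) (hb : W ≤ V b),
      mulU (resU (le_inf (ha.trans (hL a)) (hb.trans (hL b))) (L.g a b)) (resU hb (s b))
        = mulU (resU ha (s a)) (resU (le_inf (ha.trans (hM a)) (hb.trans (hM b))) (M.g a b))

section Basic

variable {Y Z : Scheme.{u}}

lemma mulU_eq {U : Y.Opens} (a b : Un Y U) : mulU a b = a * b := rfl

lemma resU_mul {U V : Y.Opens} (h : V ≤ U) (a b : Un Y U) :
    resU h (a * b) = resU h a * resU h b := map_mul (Units.map _) a b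

lemma resU_inv {U V : Y.Opens} (h : V ≤ U) (a : Un Y U) : resU h a⁻¹ = (resU h a)⁻¹ :=
  map_inv (Units.map _) a

lemma resU_one {U V : Y.Opens} (h : V ≤ U) : resU h (1 : Un Y U) = 1 := map_one (Units.map _)

lemma resU_resU {U V W : Y.Opens} (h : V ≤ U) (h' : W ≤ V) (a : Un Y U) :
    resU h' (resU h a) = resU (h'.trans h) a := by
  ext
  change (Y.presheaf.map (homOfLE h).op ≫ Y.presheaf.map (homOfLE h').op).hom _ = _
  rw [← Functor.map_comp]
  rfl

lemma pullU_mul (φ : Z ⟶ Y) {U : Y.Opens} {V : Z.Opens} (e : V ≤ pre φ U) (a b : Un Y U) :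
    pullU φ e (a * b) = pullU φ e a * pullU φ e b := map_mul (Units.map _) a b

lemma resU_pullU (φ : Z ⟶ Y) {U : Y.Opens} {V W : Z.Opens} (e : V ≤ pre φ U) (h : W ≤ V)
    (a : Un Y U) : resU h (pullU φ e a) = pullU φ (h.trans e) a := by
  ext
  exact congrArg (fun t => t.hom a.val) (φ.appLE_map e (homOfLE h).op)

lemma pre_mono (φ : Z ⟶ Y) {U U' : Y.Opens} (h : U' ≤ U) : pre φ U' ≤ pre φ U :=
  φ.preimage_mono h

lemma pullU_resU (φ : Z ⟶ Y) {U U' : Y.Opens} {V : Z.Opens} (h : U' ≤ U) (e : V ≤ pre φ U')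
    (a : Un Y U) : pullU φ e (resU h a) = pullU φ (e.trans (pre_mono φ h)) a := by
  ext
  exact congrArg (fun t => t.hom a.val) (φ.map_appLE e (homOfLE h).op)

lemma inf_pre_le (φ : Z ⟶ Y) (U V : Y.Opens) : pre φ U ⊓ pre φ V ≤ pre φ (U ⊓ V) := le_rfl

lemma Cohom.refl (L : Cocycle Y) : Cohom L L :=
  ⟨L.U, L.mem, fun _ => le_rfl, fun _ => le_rfl, fun _ => 1, fun a b W ha hb => by
    simp only [mulU_eq, resU_one, mul_one, one_mul]⟩

lemma Cohom.symm {L M : Cocycle Y} (h : Cohom L M) : Cohom M L := by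
  obtain ⟨V, hV, hL, hM, s, hs⟩ := h
  refine ⟨V, hV, hM, hL, fun y => (s y)⁻¹, fun a b W ha hb => ?_⟩
  have h1 := hs a b W ha hb
  simp only [mulU_eq, resU_inv] at h1 ⊢
  rw [mul_inv_eq_iff_eq_mul, mul_assoc, h1, inv_mul_cancel_left]

lemma Cohom.trans {L M N : Cocycle Y} (h : Cohom L M) (h' : Cohom M N) : Cohom L N := by
  obtain ⟨V, hV, hL, hM, s, hs⟩ := h
  obtain ⟨V', hV', hM', hN, t, ht⟩ := h'
  refine ⟨fun y => V y ⊓ V' y, fun y => ⟨hV y, hV' y⟩, fun y => inf_le_left.trans (hL y),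
    fun y => inf_le_right.trans (hN y),
    fun y => resU inf_le_left (s y) * resU inf_le_right (t y), fun a b W ha hb => ?_⟩
  have h1 := hs a b W (ha.trans inf_le_left) (hb.trans inf_le_left)
  have h2 := ht a b W (ha.trans inf_le_right) (hb.trans inf_le_right)
  simp only [mulU_eq, resU_mul, resU_resU] at h1 h2 ⊢
  rw [← mul_assoc, h1, mul_assoc, h2, mul_assoc]

lemma Cohom.equivalence (Y : Scheme.{u}) : Equivalence (Cohom (Y := Y)) :=
  ⟨Cohom.refl, Cohom.symm, Cohom.trans⟩

end Basic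

/-- The product of two cocycles (tensor product of line bundles). -/
noncomputable def Cocycle.mul {Y : Scheme.{u}} (L M : Cocycle Y) : Cocycle Y where
  U y := L.U y ⊓ M.U y
  mem y := ⟨L.mem y, M.mem y⟩
  g a b := mulU (resU (inf_le_inf inf_le_left inf_le_left) (L.g a b))
    (resU (inf_le_inf inf_le_right inf_le_right) (M.g a b))
  cocycle a b c W ha hb hc := by
    have h1 := L.cocycle a b c W (ha.trans inf_le_left) (hb.trans inf_le_left)
      (hc.trans inf_le_left)
    have h2 := M.cocycle a b c W (ha.trans inf_le_right) (hb.trans inf_le_right)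
      (hc.trans inf_le_right)
    simp only [mulU_eq, resU_mul, resU_resU] at h1 h2 ⊢
    rw [mul_mul_mul_comm, h1, h2]

/-- The inverse image of a cocycle under a morphism of schemes. -/
noncomputable def Cocycle.pull {Y Z : Scheme.{u}} (φ : Z ⟶ Y) (L : Cocycle Y) : Cocycle Z where
  U z := pre φ (L.U (img φ z))
  mem z := L.mem (img φ z)
  g a b := pullU φ (inf_pre_le φ _ _) (L.g (img φ a) (img φ b))
  cocycle a b c W ha hb hc := by
    have hW : W ≤ pre φ (L.U (img φ a) ⊓ L.U (img φ b) ⊓ L.U (img φ c)) :=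
      le_inf (le_inf ha hb) hc
    have h1 := congrArg (pullU φ hW)
      (L.cocycle (img φ a) (img φ b) (img φ c) (L.U (img φ a) ⊓ L.U (img φ b) ⊓ L.U (img φ c))
        (inf_le_left.trans inf_le_left) (inf_le_left.trans inf_le_right) inf_le_right)
    simp only [mulU_eq, pullU_mul, pullU_resU, resU_pullU] at h1 ⊢
    exact h1

lemma Cocycle.res_mul {Y : Scheme.{u}} (L M : Cocycle Y) (a b : Pt Y) (W : Y.Opens)
    (h : W ≤ (L.mul M).U a ⊓ (L.mul M).U b) :
    resU h ((L.mul M).g a b)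
      = resU (h.trans (inf_le_inf inf_le_left inf_le_left)) (L.g a b)
        * resU (h.trans (inf_le_inf inf_le_right inf_le_right)) (M.g a b) :=
  (resU_mul h _ _).trans (congrArg₂ (· * ·) (resU_resU _ _ _) (resU_resU _ _ _))

lemma Cocycle.res_pull {Y Z : Scheme.{u}} (φ : Z ⟶ Y) (L : Cocycle Y) (a b : Pt Z) (W : Z.Opens)
    (h : W ≤ (L.pull φ).U a ⊓ (L.pull φ).U b) :
    resU h ((L.pull φ).g a b)
      = pullU φ (h.trans (inf_pre_le φ _ _)) (L.g (img φ a) (img φ b)) :=
  resU_pullU φ _ _ _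

lemma Cohom.mul {Y : Scheme.{u}} {L L' M M' : Cocycle Y} (h : Cohom L L') (h' : Cohom M M') :
    Cohom (L.mul M) (L'.mul M') := by
  obtain ⟨V, hV, hL, hL', s, hs⟩ := h
  obtain ⟨V', hV', hM, hM', t, ht⟩ := h'
  refine ⟨fun y => V y ⊓ V' y, fun y => ⟨hV y, hV' y⟩, fun y => inf_le_inf (hL y) (hM y),
    fun y => inf_le_inf (hL' y) (hM' y),
    fun y => resU inf_le_left (s y) * resU inf_le_right (t y), fun a b W ha hb => ?_⟩
  have h1 := hs a b W (ha.trans inf_le_left) (hb.trans inf_le_left)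
  have h2 := ht a b W (ha.trans inf_le_right) (hb.trans inf_le_right)
  rw [Cocycle.res_mul, Cocycle.res_mul]
  simp only [mulU_eq, resU_mul, resU_resU] at h1 h2 ⊢
  rw [mul_mul_mul_comm, h1, h2, mul_mul_mul_comm]

lemma Cohom.pull {Y Z : Scheme.{u}} (φ : Z ⟶ Y) {L M : Cocycle Y} (h : Cohom L M) :
    Cohom (L.pull φ) (M.pull φ) := by
  obtain ⟨V, hV, hL, hM, s, hs⟩ := h
  refine ⟨fun z => pre φ (V (img φ z)), fun z => hV (img φ z), fun z => pre_mono φ (hL _),
    fun z => pre_mono φ (hM _), fun z => pullU φ le_rfl (s (img φ z)), fun a b W ha hb => ?_⟩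
  have hW : W ≤ pre φ (V (img φ a) ⊓ V (img φ b)) := le_inf ha hb
  have h1 := congrArg (pullU φ hW)
    (hs (img φ a) (img φ b) (V (img φ a) ⊓ V (img φ b)) inf_le_left inf_le_right)
  rw [Cocycle.res_pull, Cocycle.res_pull]
  simp only [mulU_eq, pullU_mul, pullU_resU, resU_pullU] at h1 ⊢
  exact h1

/-- The Picard group of a scheme, as the Cech cohomology `H^1 (Y, O^*)`. -/
def Pic (Y : Scheme.{u}) : Type u :=
  Quotient (⟨Cohom, Cohom.equivalence Y⟩ : Setoid (Cocycle Y))

/-- The group law of the Picard group. -/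
noncomputable def Pic.mul {Y : Scheme.{u}} : Pic Y → Pic Y → Pic Y :=
  Quotient.map₂ Cocycle.mul (fun _ _ h _ _ h' => Cohom.mul h h')

/-- Inverse image on Picard groups. -/
noncomputable def Pic.pull {Y Z : Scheme.{u}} (φ : Z ⟶ Y) : Pic Y → Pic Z :=
  Quotient.map (Cocycle.pull φ) (fun _ _ h => Cohom.pull φ h)

section Mu

variable (k : Type u) [Field k]

/-- The structure morphism of the spectrum of a `k`-algebra. -/
noncomputable def str (A : Type u) [CommRing A] [Algebra k A] :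
    Spec (CommRingCat.of A) ⟶ Spec (CommRingCat.of k) :=
  Spec.map (CommRingCat.ofHom (algebraMap k A))

/-- The coordinate ring `k[t] / (t ^ p - 1)` of the group scheme `μ_p`. -/
abbrev Mu (p : ℕ) : Type u := AdjoinRoot (X ^ p - 1 : k[X])

lemma root_pow (p : ℕ) : (AdjoinRoot.root (X ^ p - 1 : k[X])) ^ p = 1 := by
  have := AdjoinRoot.eval₂_root (X ^ p - 1 : k[X])
  simpa [sub_eq_zero] using this

/-- The `k`-algebra map `k[t] / (t ^ p - 1) → B` sending `t` to a `p`-th root of unity `b`. -/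
noncomputable def muLift (p : ℕ) {B : Type u} [CommRing B] [Algebra k B] (b : B)
    (h : b ^ p = 1) : Mu k p →ₐ[k] B :=
  AdjoinRoot.liftAlgHom _ (Algebra.ofId k B) b (by simp [h])

lemma tmul_pow_eq_one {A : Type u} [CommRing A] [Algebra k A] {t : A} {p : ℕ} (h : t ^ p = 1) :
    (t ⊗ₜ[k] t) ^ p = 1 := by
  rw [Algebra.TensorProduct.tmul_pow, h, Algebra.TensorProduct.one_def]

/-- The comultiplication `t ↦ t ⊗ t`, dual to the group law of `μ_p`. -/
noncomputable def comul (p : ℕ) : Mu k p →ₐ[k] Mu k p ⊗[k] Mu k p :=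
  muLift k p (AdjoinRoot.root _ ⊗ₜ AdjoinRoot.root _) (tmul_pow_eq_one k (root_pow k p))

variable {k} {X : Scheme.{u}} (s : X ⟶ Spec (CommRingCat.of k))

/-- The morphism `X × Spec B ⟶ X × Spec A` induced by a `k`-algebra map `A → B`. -/
noncomputable def baseMap {A B : Type u} [CommRing A] [Algebra k A] [CommRing B] [Algebra k B]
    (φ : A →ₐ[k] B) : pullback s (str k B) ⟶ pullback s (str k A) :=
  pullback.map _ _ _ _ (𝟙 X) (Spec.map (CommRingCat.ofHom φ.toRingHom)) (𝟙 _) (by simp) (by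
    simp only [str, Category.comp_id, ← Spec.map_comp, ← CommRingCat.ofHom_comp]
    congr 2
    ext x; simp)

/-- For `G = Spec A` with multiplication `m` dual to `Δ`: the classes of line bundles `L` on
`X × G` with `m^* L = p₁^* L ⊗ p₂^* L` in `Pic (X × G × G) / Pic (G × G)`. -/
def homPic {A : Type u} [CommRing A] [Algebra k A] (Δ : A →ₐ[k] A ⊗[k] A) :
    Set (Pic (pullback s (str k A))) :=
  {L | ∃ M : Pic (Spec (CommRingCat.of (A ⊗[k] A))),
    L.pull (baseMap s Δ)
      = ((L.pull (baseMap s Algebra.TensorProduct.includeLeft)).mul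
          (L.pull (baseMap s Algebra.TensorProduct.includeRight))).mul
        (M.pull (pullback.snd _ _))}

/-- The homomorphisms from `μ_p` to the Picard functor `T ↦ Pic (X × T) / Pic T` of `X` over `k`
(the Picard group of `μ_p` is trivial). -/
def homMu (p : ℕ) : Set (Pic (pullback s (str k (Mu k p)))) := homPic s (comul k p)

end Mu

end Pool.Agent.Lib.MP_2ca583_ag.Jac
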