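import Pool.Agent.Lib.MP_2ca583_ag.JBase

set_option autoImplicit false

open Polynomial

universe u

namespace Pool.Agent.Lib.MP_2ca583_ag.Jac

variable {k : Type u} [Field k] {K : Type u} [Field K] [Algebra k K]

theorem val_const (V : ValuationSubring K) (hk : ∀ c : k, algebraMap k K c ∈ V) {c : k}
    (hc : c ≠ 0) : V.valuation (algebraMap k K c) = 1 := by
  refine le_antisymm ((V.valuation_le_one_iff _).2 (hk c)) ?_
  have h := (V.valuation_le_one_iff _).2 (hk c⁻¹)
  rwa [map_inv₀, map_inv₀, inv_le_one₀ (zero_lt_iff.2 ((Valuation.ne_zero_iff _).2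
    ((_root_.map_ne_zero _).2 hc)))] at h

theorem val_lt {V : ValuationSubring K} {T : K} (hT : T ∉ V) : 1 < V.valuation T :=
  not_le.1 fun h => hT ((V.valuation_le_one_iff _).1 h)

theorem val_aeval (V : ValuationSubring K) (hk : ∀ c : k, algebraMap k K c ∈ V) {T : K}
    (hT : T ∉ V) {A : k[X]} (hA : A ≠ 0) :
    V.valuation (aeval T A) = V.valuation T ^ A.natDegree := by
  have h1 : V.valuation (A.coeff A.natDegree • T ^ A.natDegree) = V.valuation T ^ A.natDegree := by
    rw [Algebra.smul_def, map_mul, map_pow, coeff_natDegree,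
      val_const V hk (leadingCoeff_ne_zero.2 hA), one_mul]
  rw [aeval_eq_sum_range, V.valuation.map_sum_eq_of_lt (Finset.self_mem_range_succ _), h1]
  intro i hi
  rw [Finset.mem_sdiff, Finset.mem_range, Finset.mem_singleton] at hi
  rw [h1, Algebra.smul_def, map_mul, map_pow]
  exact (mul_le_of_le_one_left' ((V.valuation_le_one_iff _).2 (hk _))).trans_lt
    (pow_lt_pow_right₀ (val_lt hT) (by omega))

theorem y_mem {f : k[X]} {T y : K} (hK : HypF f T y) (V : ValuationSubring K)
    (hk : ∀ c : k, algebraMap k K c ∈ V) (hT : T ∈ V) : y ∈ V := by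
  have h : y ^ 2 ∈ V := by
    rw [hK.sq, aeval_eq_sum_range]
    exact sum_mem fun i _ => by
      rw [Algebra.smul_def]
      exact mul_mem (hk _) (pow_mem hT _)
  rw [← V.valuation_le_one_iff] at h ⊢
  rwa [map_pow, pow_le_one_iff_of_nonneg zero_le two_ne_zero] at h

theorem val_y {g : ℕ} {f : k[X]} (hf : f.natDegree = 2 * g + 1) {T y : K}
    (hK : HypF f T y) (V : ValuationSubring K) (hk : ∀ c : k, algebraMap k K c ∈ V)
    (hT : T ∉ V) {B : k[X]} (hB : B ≠ 0) :
    V.valuation (aeval T B * y) ^ 2 = V.valuation T ^ (2 * B.natDegree + (2 * g + 1)) := by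
  have h0 : f ≠ 0 := fun h => by simp [h] at hf
  rw [map_mul, mul_pow, ← map_pow _ y, hK.sq, val_aeval V hk hT h0, val_aeval V hk hT hB, hf,
    ← pow_mul, ← pow_add, mul_comm B.natDegree]

theorem val_mem_even (V : ValuationSubring K) (hk : ∀ c : k, algebraMap k K c ∈ V) {T : K}
    (hT : T ∉ V) (A : k[X]) {C : k[X]} (hC : C ≠ 0) :
    aeval T A / aeval T C ∈ V ↔ A = 0 ∨ A.natDegree ≤ C.natDegree := by
  by_cases hA : A = 0
  · simp [hA]
  rw [← V.valuation_le_one_iff, map_div₀, val_aeval V hk hT hA, val_aeval V hk hT hC,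
    div_le_one₀ (pow_pos (zero_lt_one.trans (val_lt hT)) _), pow_le_pow_iff_right₀ (val_lt hT),
    or_iff_right hA]

theorem val_mem_odd {g : ℕ} {f : k[X]} (hf : f.natDegree = 2 * g + 1) {T y : K}
    (hK : HypF f T y) (V : ValuationSubring K) (hk : ∀ c : k, algebraMap k K c ∈ V)
    (hT : T ∉ V) (B : k[X]) {C : k[X]} (hC : C ≠ 0) :
    aeval T B * y / aeval T C ∈ V ↔ B = 0 ∨ 2 * B.natDegree + (2 * g + 1) ≤ C.natDegree * 2 := by
  by_cases hB : B = 0
  · simp [hB]
  rw [← V.valuation_le_one_iff, map_div₀, val_aeval V hk hT hC,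
    div_le_one₀ (pow_pos (zero_lt_one.trans (val_lt hT)) _),
    ← pow_le_pow_iff_left₀ zero_le zero_le two_ne_zero, val_y hf hK V hk hT hB, ← pow_mul,
    pow_le_pow_iff_right₀ (val_lt hT), or_iff_right hB]

theorem val_mem_add {g : ℕ} {f : k[X]} (hf : f.natDegree = 2 * g + 1) {T y : K}
    (hK : HypF f T y) (V : ValuationSubring K) (hk : ∀ c : k, algebraMap k K c ∈ V)
    (hT : T ∉ V) (A B : k[X]) {c : K} (hc : c ≠ 0) :
    aeval T A / c + aeval T B * y / c ∈ V ↔ aeval T A / c ∈ V ∧ aeval T B * y / c ∈ V := by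
  refine ⟨fun h => ?_, fun h => add_mem h.1 h.2⟩
  by_cases hA : A = 0
  · simpa [hA] using h
  by_cases hB : B = 0
  · simpa [hB] using h
  have hne : V.valuation (aeval T A / c) ≠ V.valuation (aeval T B * y / c) := fun e => by
    rw [map_div₀, map_div₀, div_left_inj' ((Valuation.ne_zero_iff _).2 hc)] at e
    have h1 := val_y hf hK V hk hT hB
    rw [← e, val_aeval V hk hT hA, ← pow_mul] at h1
    have h2 := pow_right_injective₀ (zero_lt_one.trans (val_lt hT)) (val_lt hT).ne' h1
    omega
  rwa [← V.valuation_le_one_iff, V.valuation.map_add_of_distinct_val hne, max_le_iff,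
    V.valuation_le_one_iff, V.valuation_le_one_iff] at h

theorem pinf_of_val {g : ℕ} {f : k[X]} (hf : f.natDegree = 2 * g + 1) {T y : K}
    (hK : HypF f T y) (V : ValuationSubring K) (hk : ∀ c : k, algebraMap k K c ∈ V)
    (hT : T ∉ V) : PInf k g T y V.toSubring := by
  refine ⟨fun A C hC h => (val_mem_even V hk hT A hC).2 (Or.inr h), ?_⟩
  have h := (val_mem_odd hf hK V hk hT 1 (C := X ^ (g + 1)) (pow_ne_zero _ X_ne_zero)).2
    (Or.inr (by rw [natDegree_one, natDegree_X_pow]; omega))
  rwa [map_one, one_mul, map_pow, aeval_X] at h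

/-- There is only one place at infinity. -/
theorem val_unique {g : ℕ} {f : k[X]} (hf : f.natDegree = 2 * g + 1) {T y : K}
    (hK : HypF f T y) (V V' : ValuationSubring K) (hk : ∀ c : k, algebraMap k K c ∈ V)
    (hk' : ∀ c : k, algebraMap k K c ∈ V') (hT : T ∉ V) (hT' : T ∉ V') : V = V' := by
  ext z
  obtain ⟨A, B, C, hC, h⟩ := hK.gen z
  have h0 := hK.trans C hC
  rw [eq_div_of_mul_eq h0 h, add_div, val_mem_add hf hK V hk hT A B h0,
    val_mem_add hf hK V' hk' hT' A B h0, val_mem_even V hk hT A hC, val_mem_even V' hk' hT' A hC,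
    val_mem_odd hf hK V hk hT B hC, val_mem_odd hf hK V' hk' hT' B hC]

open scoped TensorProduct nonZeroDivisors in
/-- An etale algebra over a normal domain is integrally closed in its total ring of fractions. -/
theorem val_normal_of_etale (A S : Type u) [CommRing A] [IsDomain A] [IsIntegrallyClosed A]
    [CommRing S] [Algebra A S] [Algebra.Etale A S] : IsIntegrallyClosed S := by
  let F := FractionRing A
  have hle : Algebra.algebraMapSubmonoid S A⁰ ≤ S⁰ := by
    rintro _ ⟨a, ha, rfl⟩
    have h1 : IsSMulRegular S a := Module.Flat.isSMulRegular_of_nonZeroDivisors ha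
    refine mem_nonZeroDivisors_iff_left.2 fun w hw => h1.right_eq_zero_of_smul ?_
    rwa [Algebra.smul_def]
  have h1 : IsArtinianRing (S ⊗[A] F) := by
    have : Module.Finite F (F ⊗[A] S) := Algebra.FormallyUnramified.finite_of_free _ _
    have : IsArtinianRing (F ⊗[A] S) := IsArtinianRing.of_finite F _
    exact (Algebra.TensorProduct.comm A F S).toRingEquiv.isArtinianRing
  have : IsFractionRing S (S ⊗[A] F) :=
    IsLocalization.of_le (Algebra.algebraMapSubmonoid S A⁰) S⁰ hle fun r hr =>
      IsArtinianRing.isUnit_of_mem_nonZeroDivisors (IsLocalization.map_nonZeroDivisors_le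
        (Algebra.algebraMapSubmonoid S A⁰) (S ⊗[A] F) ⟨r, hr, rfl⟩)
  rw [isIntegrallyClosed_iff (S ⊗[A] F)]
  intro z hz
  obtain ⟨u, hu⟩ := (TensorProduct.toIntegralClosure_bijective_of_smooth (R := A) (S := S)
    (B := F)).2 ⟨z, hz⟩
  have h2 : z = Algebra.TensorProduct.map (AlgHom.id S S) (integralClosure A F).val u :=
    (congrArg Subtype.val hu).symm
  rw [h2]
  clear hu h2
  induction u with
  | zero => exact ⟨0, by simp⟩
  | add a b ha hb =>
    obtain ⟨a', ha⟩ := ha
    obtain ⟨b', hb⟩ := hb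
    exact ⟨a' + b', by rw [map_add, map_add, ha, hb]⟩
  | tmul s c =>
    obtain ⟨a, ha⟩ := (isIntegrallyClosed_iff F).1 ‹_› c.2
    refine ⟨a • s, ?_⟩
    rw [Algebra.TensorProduct.map_tmul, Subalgebra.coe_val, ← ha, Algebra.algebraMap_eq_smul_one a,
      TensorProduct.tmul_smul, TensorProduct.smul_tmul']
    rfl

/-- A smooth domain over a field is normal. -/
theorem isIntegrallyClosed_of_smooth (S : Type u) [CommRing S] [IsDomain S] [Algebra k S]
    [Algebra.Smooth k S] : IsIntegrallyClosed S := by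
  refine IsIntegrallyClosed.of_localization_maximal fun p _ _ => ?_
  obtain ⟨f, hf, n, _, _, _⟩ :=
    Algebra.IsSmoothAt.exists_isStandardEtale_mvPolynomial (R := k) (p := p)
  have h1 := val_normal_of_etale (MvPolynomial (Fin n) k) (Localization.Away f)
  have h0 : Submonoid.powers f ≤ p.primeCompl := Submonoid.powers_le.2 hf
  have h2 : IsDomain (Localization.Away f) :=
    IsLocalization.isDomain_localization (h0.trans p.primeCompl_le_nonZeroDivisors)
  let _ := IsLocalization.localizationAlgebraOfSubmonoidLe (Localization.Away f)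
    (Localization.AtPrime p) _ _ h0
  have h3 := IsLocalization.localization_isScalarTower_of_submonoid_le (Localization.Away f)
    (Localization.AtPrime p) _ _ h0
  have h4 := IsLocalization.isLocalization_of_submonoid_le (Localization.Away f)
    (Localization.AtPrime p) _ _ h0
  exact isIntegrallyClosed_of_isLocalization (Localization.AtPrime p)
    (p.primeCompl.map (algebraMap S (Localization.Away f)))
    ((Submonoid.monotone_map p.primeCompl_le_nonZeroDivisors).trans
      (IsLocalization.map_nonZeroDivisors_le (Submonoid.powers f) _))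

end Pool.Agent.Lib.MP_2ca583_ag.Jac
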