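import Pool.Agent.Lib.MP_2ca583_ag.JS2
import Pool.Agent.Lib.MP_2ca583_ag.JAff
import Pool.Agent.Lib.MP_2ca583_ag.JVal

set_option autoImplicit false

open CategoryTheory CategoryTheory.Limits AlgebraicGeometry Polynomial

universe u

namespace Pool.Agent.Lib.MP_2ca583_ag.Jac

variable {k : Type u} [Field k] {Y : Scheme.{u}} (s : Y ⟶ Spec (CommRingCat.of k))
  {K : Type u} [Field K] [Algebra k K] {η : Spec (CommRingCat.of K) ⟶ Y}

lemma spec_centre {S : Type u} [CommRing S] (θ : S →+* K) (𝔭 : PrimeSpectrum S)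
    (V : ValuationSubring K) (h : Dom θ 𝔭 V) :
    Spec.map (CommRingCat.ofHom (θ.codRestrict V h.1)) (IsLocalRing.closedPoint V) = 𝔭 := by
  refine PrimeSpectrum.ext (Ideal.ext fun a => ?_)
  rw [h.2]
  exact V.valuation_lt_one_iff (θ.codRestrict V h.1 a)

/-- A valuation ring has at most one centre on a separated scheme. -/
lemma centre_unique [IsSeparated s] {S S' : Type u} [CommRing S] [Algebra k S] [CommRing S']
    [Algebra k S'] (c : Spec (CommRingCat.of S) ⟶ Y) (hc : c ≫ s = str k S)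
    (c' : Spec (CommRingCat.of S') ⟶ Y) (hc' : c' ≫ s = str k S') (θ : S →ₐ[k] K)
    (θ' : S' →ₐ[k] K) (hθ : Spec.map (CommRingCat.ofHom θ.toRingHom) ≫ c = η)
    (hθ' : Spec.map (CommRingCat.ofHom θ'.toRingHom) ≫ c' = η) (𝔭 : PrimeSpectrum S)
    (𝔭' : PrimeSpectrum S') (V : ValuationSubring K) (h : Dom θ.toRingHom 𝔭 V)
    (h' : Dom θ'.toRingHom 𝔭' V) : c 𝔭 = c' 𝔭' := by
  have : IsDominant (Spec.map (CommRingCat.ofHom (algebraMap V K))) := ⟨by
    refine (PrimeSpectrum.denseRange_comap_iff_ker_le_nilRadical (algebraMap V K)).2 ?_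
    rw [(RingHom.injective_iff_ker_eq_bot _).1 Subtype.val_injective]
    exact bot_le⟩
  have H : Spec.map (CommRingCat.ofHom (θ.toRingHom.codRestrict V h.1)) ≫ c
      = Spec.map (CommRingCat.ofHom (θ'.toRingHom.codRestrict V h'.1)) ≫ c' := by
    refine ext_of_isDominant_of_isSeparated s ?_
      (Spec.map (CommRingCat.ofHom (algebraMap V K))) ?_
    · simp only [Category.assoc, hc, hc', str, ← Spec.map_comp, ← CommRingCat.ofHom_comp]
      congr 2
      ext x; simp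
    · simp only [← Spec.map_comp_assoc, ← CommRingCat.ofHom_comp]
      exact hθ.trans hθ'.symm
  have h1 := congrArg (fun t : Spec (CommRingCat.of V) ⟶ Y => t (IsLocalRing.closedPoint V)) H
  rw [← spec_centre _ _ V h, ← spec_centre _ _ V h']
  exact h1

lemma chart_frac (hg : Gen η) {S S' : Type u} [CommRing S] [CommRing S']
    (c : Spec (CommRingCat.of S) ⟶ Y) [IsOpenImmersion c] (c' : Spec (CommRingCat.of S') ⟶ Y)
    [IsOpenImmersion c'] (θ : S →+* K) (θ' : S' →+* K)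
    (hθ : Spec.map (CommRingCat.ofHom θ) ≫ c = η) (hθ' : Spec.map (CommRingCat.ofHom θ') ≫ c' = η)
    (hi : Function.Injective θ) (hK : ∀ z : K, ∃ a b, b ≠ 0 ∧ z * θ b = θ a) (z : K) :
    ∃ a b, b ≠ 0 ∧ z * θ' b = θ' a := by
  have h1 := OO_chart θ c hθ hg (PrimeSpectrum.comap θ ⊥)
  have h2 := OO_chart θ' c' hθ' hg (PrimeSpectrum.comap θ' ⊥)
  have h3 : c (PrimeSpectrum.comap θ ⊥) = c' (PrimeSpectrum.comap θ' ⊥) :=
    congrArg (fun t : Spec (CommRingCat.of K) ⟶ Y => t (⊥ : PrimeSpectrum K)) (hθ.trans hθ'.symm)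
  obtain ⟨a, b, hb, h⟩ := hK z
  have h4 : z ∈ Loc θ (PrimeSpectrum.comap θ ⊥) :=
    ⟨a, b, fun hm => hb (hi ((Ideal.mem_bot.1 hm).trans (map_zero θ).symm)), h⟩
  rw [← h1, h3, h2] at h4
  obtain ⟨a', b', hb', h'⟩ := h4
  exact ⟨a', b', fun h0 => hb' (h0 ▸ Ideal.zero_mem _), h'⟩

/-- The unique point at infinity. -/
theorem infinity [Smooth s] [IsSeparated s] (hη : η ≫ s = str k K)
    [IsSchemeTheoreticallyDominant η] [QuasiCompact η] {g : ℕ} {f : k[X]}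
    (hf : f.natDegree = 2 * g + 1)
    (j : Spec (CommRingCat.of (AdjoinRoot (X ^ 2 - C f : k[X][X]))) ⟶ Y) [IsOpenImmersion j]
    (hj : j ≫ s = str k _) (θ : AdjoinRoot (X ^ 2 - C f : k[X][X]) →ₐ[k] K)
    (hθ : Spec.map (CommRingCat.ofHom θ.toRingHom) ≫ j = η)
    (hK : ∀ z : K, ∃ a b, b ≠ 0 ∧ z * θ b = θ a) :
    ∃ O : Subalgebra k K, PInf k g (θ (AdjoinRoot.of _ X)) (θ (AdjoinRoot.root _)) O.toSubring ∧
      ∃ x₀ : Y, OK s hη x₀ ≤ O ∧ ∀ x : Y, x ∉ Set.range j → x = x₀ ∧ O ≤ OK s hη x := by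
  have hg : Gen η := gen_of_dominant η
  have hi : Function.Injective θ := chart_injective _ j hθ (ev_injective η)
  have hF := hypF hf θ hi hK
  -- data at a point at infinity
  have key : ∀ x : Y, x ∉ Set.range j → ∃ (S : Type u) (_ : CommRing S) (_ : Algebra k S)
      (c : Spec (CommRingCat.of S) ⟶ Y) (𝔭 : PrimeSpectrum S) (θ' : S →ₐ[k] K),
      c ≫ s = str k S ∧ c 𝔭 = x ∧ Spec.map (CommRingCat.ofHom θ'.toRingHom) ≫ c = η ∧
      Function.Injective θ' ∧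
      (∀ z, z ∉ OO η x → ∃ V : ValuationSubring K, Dom θ'.toRingHom 𝔭 V ∧ z ∉ V) ∧
      ∀ V : ValuationSubring K, Dom θ'.toRingHom 𝔭 V →
        (∀ a : k, algebraMap k K a ∈ V) ∧ θ (AdjoinRoot.of _ X) ∉ V := by
    intro x hx
    obtain ⟨S, _, _, c, _, 𝔭, hc, rfl⟩ := exists_chart s x
    obtain ⟨θ', hθ'⟩ := exists_theta s hη hg c hc 𝔭
    have hi' : Function.Injective θ' := chart_injective _ c hθ' (ev_injective η)
    have : IsDomain S := hi'.isDomain θ'.toRingHom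
    have hsm : Smooth (str k S) := hc ▸ inferInstance
    rw [str, HasRingHomProperty.Spec_iff (P := @Smooth)] at hsm
    have : Algebra.Smooth k S := RingHom.smooth_algebraMap.1 hsm
    have := isIntegrallyClosed_of_smooth (k := k) S
    refine ⟨S, inferInstance, inferInstance, c, 𝔭, θ', hc, rfl, hθ', hi', fun z hz => ?_,
      fun V hV => ?_⟩
    · rw [OO_chart _ c hθ' hg] at hz
      exact exists_dom_notMem hi' (chart_frac hg j c _ _ hθ hθ' hi hK) 𝔭 z hz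
    · have hk : ∀ a : k, algebraMap k K a ∈ V := fun a => θ'.commutes a ▸ hV.1 (algebraMap k S a)
      refine ⟨hk, fun hT => hx ?_⟩
      obtain ⟨𝔮, h𝔮⟩ := exists_centre (θ := θ.toRingHom) V
        (hyp_mem θ V.toSubring hk hT (y_mem hF V hk hT))
      exact ⟨𝔮, centre_unique s j hj c hc θ θ' hθ hθ' 𝔮 𝔭 V h𝔮 hV⟩
  by_cases h : ∃ x₀ : Y, x₀ ∉ Set.range j
  · obtain ⟨x₀, hx₀⟩ := h
    obtain ⟨S, _, _, c, 𝔭, θ', hc, hx, hθ', hi', h1, h2⟩ := key x₀ hx₀
    refine ⟨OK s hη x₀, ⟨fun A B hB hd => ?_, ?_⟩, x₀, le_rfl, fun x hx' => ?_⟩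
    · by_contra hz
      obtain ⟨V, hV, hzV⟩ := h1 _ hz
      exact hzV ((pinf_of_val hf hF V (h2 V hV).1 (h2 V hV).2).1 A B hB hd)
    · by_contra hz
      obtain ⟨V, hV, hzV⟩ := h1 _ hz
      exact hzV (pinf_of_val hf hF V (h2 V hV).1 (h2 V hV).2).2
    · obtain ⟨S', _, _, c', 𝔭', θ'', hc', hx'', hθ'', hi'', -, h2'⟩ := key x hx'
      obtain ⟨V, hV⟩ := exists_dom (θ := θ'.toRingHom) hi' 𝔭
      obtain ⟨V', hV'⟩ := exists_dom (θ := θ''.toRingHom) hi'' 𝔭'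
      have e := val_unique hf hF V V' (h2 V hV).1 (h2' V' hV').1 (h2 V hV).2 (h2' V' hV').2
      subst e
      have e' : x = x₀ := by
        rw [← hx, ← hx'']
        exact centre_unique s c' hc' c hc θ'' θ' hθ'' hθ' 𝔭' 𝔭 V hV' hV
      exact ⟨e', e' ▸ le_rfl⟩
  · exact ⟨⊤, ⟨fun _ _ _ _ => trivial, trivial⟩, η (⊥ : PrimeSpectrum K), le_top,
      fun x hx => (h ⟨x, hx⟩).elim⟩

end Pool.Agent.Lib.MP_2ca583_ag.Jac
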