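import Pool.Agent.Lib.MP_2ca583_ag.JExa

set_option autoImplicit false

open Polynomial

universe u

namespace Pool.Agent.Lib.MP_2ca583_ag.Jac

variable {k : Type u} [Field k]

/-- The affine curve `y ^ 2 = f` is smooth for separable `f` in characteristic not two. -/
theorem smooth_hyp (h2 : (2 : k) ≠ 0) {f : k[X]} (hs : f.Separable) :
    Algebra.Smooth k (AdjoinRoot (X ^ 2 - C f : k[X][X])) := by
  refine ⟨.of_comp_surjective fun B _ _ I hI θ => ?_, inferInstance⟩
  obtain ⟨x, hx⟩ := Ideal.Quotient.mk_surjective (θ (AdjoinRoot.of _ X))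
  obtain ⟨y, hy⟩ := Ideal.Quotient.mk_surjective (θ (AdjoinRoot.root _))
  obtain ⟨a, b, hab⟩ := hs
  have hroot : (AdjoinRoot.root (X ^ 2 - C f : k[X][X])) ^ 2 = AdjoinRoot.of _ f := by
    have := AdjoinRoot.eval₂_root (X ^ 2 - C f : k[X][X])
    simpa [sub_eq_zero] using this
  have hof : ∀ q : k[X], θ (AdjoinRoot.of _ q) = Ideal.Quotient.mkₐ k I (aeval x q) := by
    intro q
    have : θ.comp (AdjoinRoot.ofAlgHom k _) = (Ideal.Quotient.mkₐ k I).comp (aeval x) := by
      ext; simp [hx]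
    exact congrArg (fun t : k[X] →ₐ[k] B ⧸ I => t q) this
  set ε := y ^ 2 - aeval x f with hε
  have hεI : ε ∈ I := by
    rw [← Ideal.Quotient.eq_zero_iff_mem, hε, map_sub, map_pow, hy, ← map_pow, hroot, hof]
    simp
  have hε2 : ε ^ 2 = 0 := by
    have := Ideal.pow_mem_pow hεI 2
    rwa [hI] at this
  have h1 : aeval x a * aeval x f + aeval x b * aeval x (derivative f) = 1 := by
    rw [← map_mul, ← map_mul, ← map_add, hab, map_one]
  have h3 : (2 : B) * algebraMap k B 2⁻¹ = 1 := by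
    rw [← map_ofNat (algebraMap k B) 2, ← map_mul, mul_inv_cancel₀ h2, map_one]
  refine ⟨AdjoinRoot.liftAlgHom _ (aeval (x + ε * aeval x b))
    (y - ε * (aeval x a * y * algebraMap k B 2⁻¹)) ?_, ?_⟩
  · have h4 := aeval_add_of_sq_eq_zero f x (ε * aeval x b) (by rw [mul_pow, hε2, zero_mul])
    simp only [eval₂_sub, eval₂_X_pow, eval₂_C, RingHom.coe_coe]
    rw [h4]
    have h5 : y ^ 2 = ε + aeval x f := by rw [hε]; ring
    linear_combination (1 - ε * aeval x a) * h5 - ε * h1 - (ε * aeval x a * y ^ 2) * h3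
      + ((aeval x a * y * algebraMap k B 2⁻¹) ^ 2 - aeval x a) * hε2
  · have h0 : Ideal.Quotient.mk I ε = 0 := Ideal.Quotient.eq_zero_iff_mem.2 hεI
    refine AdjoinRoot.algHom_ext' ?_ ?_
    · ext; simp [h0, hx]
    · simp [h0, hy]

end Pool.Agent.Lib.MP_2ca583_ag.Jac
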