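import Pool.Agent.Lib.MP_2ca583_ag.JMod0

set_option autoImplicit false

open Polynomial

universe u

namespace Pool.Agent.Lib.MP_2ca583_ag.Jac

variable {k : Type u} [Field k]

/-- Every `L`-point of the first chart is integral for `V`, or lies in the overlap and is integral
in the second chart. -/
def ValEx (k : Type u) [Field k] {R₁ R₂ R₀ : Type u} [CommRing R₁] [Algebra k R₁] [CommRing R₂]
    [Algebra k R₂] [CommRing R₀] [Algebra k R₀] (φ₁ : R₁ →ₐ[k] R₀) (φ₂ : R₂ →ₐ[k] R₀) : Prop :=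
  ∀ (L : Type u) [Field L] [Algebra k L] (V : ValuationSubring L),
    (∀ c : k, algebraMap k L c ∈ V) → ∀ θ : R₁ →ₐ[k] L,
      (∀ r, θ r ∈ V) ∨ ∃ θ₀ : R₀ →ₐ[k] L, θ₀.comp φ₁ = θ ∧ ∀ r, θ₀ (φ₂ r) ∈ V

/-- The coordinate ring of `y ^ 2 = f`. -/
abbrev Hy (f : k[X]) : Type u := AdjoinRoot (X ^ 2 - C f : k[X][X])

lemma mod_of {f : k[X]} {L : Type u} [CommRing L] [Algebra k L] (θ : Hy f →ₐ[k] L) (A : k[X]) :
    θ (AdjoinRoot.of _ A) = aeval (θ (AdjoinRoot.of _ X)) A := by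
  have : θ.comp (AdjoinRoot.ofAlgHom k _) = aeval (θ (AdjoinRoot.of _ X)) := by
    ext; simp
  exact congrArg (fun t : k[X] →ₐ[k] L => t A) this

lemma mod_sq {f : k[X]} {L : Type u} [CommRing L] [Algebra k L] (θ : Hy f →ₐ[k] L) :
    θ (AdjoinRoot.root _) ^ 2 = aeval (θ (AdjoinRoot.of _ X)) f := by
  rw [← map_pow, exa_sq, mod_of]

lemma mod_aeval_mem {L : Type u} [CommRing L] [Algebra k L] (S : Subring L)
    (hk : ∀ c : k, algebraMap k L c ∈ S) {a : L} (ha : a ∈ S) (A : k[X]) : aeval a A ∈ S := by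
  rw [aeval_eq_sum_range]
  refine S.sum_mem fun i _ => ?_
  rw [Algebra.smul_def]
  exact S.mul_mem (hk _) (S.pow_mem ha i)

lemma mod_mem {f : k[X]} {L : Type u} [CommRing L] [Algebra k L] (θ : Hy f →ₐ[k] L)
    (S : Subring L) (hk : ∀ c : k, algebraMap k L c ∈ S) (hT : θ (AdjoinRoot.of _ X) ∈ S)
    (hy : θ (AdjoinRoot.root _) ∈ S) (r : Hy f) : θ r ∈ S := by
  obtain ⟨A, B, rfl⟩ := exa_repr f r
  rw [map_add, map_mul, mod_of θ A, mod_of θ B]
  exact S.add_mem (mod_aeval_mem S hk hT A) (S.mul_mem (mod_aeval_mem S hk hT B) hy)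

lemma mod_val {f : k[X]} {L : Type u} [Field L] [Algebra k L] (θ : Hy f →ₐ[k] L)
    (V : ValuationSubring L) (hk : ∀ c : k, algebraMap k L c ∈ V)
    (hT : θ (AdjoinRoot.of _ X) ∈ V) (r : Hy f) : θ r ∈ V := by
  refine mod_mem θ V.toSubring hk hT ?_ r
  have h1 : θ (AdjoinRoot.root _) ^ 2 ∈ V.toSubring := by
    rw [mod_sq]
    exact mod_aeval_mem V.toSubring hk hT f
  rcases V.mem_or_inv_mem (θ (AdjoinRoot.root _)) with h | h
  · exact h
  · by_cases h0 : θ (AdjoinRoot.root _) = 0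
    · rw [h0]; exact V.toSubring.zero_mem
    · have h2 := V.toSubring.mul_mem h1 h
      rwa [pow_two, mul_inv_cancel_right₀ h0] at h2

lemma mod_lift (f : k[X]) {L : Type u} [CommRing L] [Algebra k L] (a b : L)
    (h : b ^ 2 = aeval a f) :
    ∃ θ : Hy f →ₐ[k] L, θ (AdjoinRoot.of _ X) = a ∧ θ (AdjoinRoot.root _) = b :=
  ⟨AdjoinRoot.liftAlgHom _ (aeval a) b (by simp [h]), by simp, by simp⟩

lemma mod_ext {f : k[X]} {L : Type u} [CommRing L] [Algebra k L] {θ θ' : Hy f →ₐ[k] L}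
    (h1 : θ (AdjoinRoot.of _ X) = θ' (AdjoinRoot.of _ X))
    (h2 : θ (AdjoinRoot.root _) = θ' (AdjoinRoot.root _)) : θ = θ' := by
  refine AlgHom.ext fun r => ?_
  obtain ⟨A, B, rfl⟩ := exa_repr f r
  rw [map_add, map_mul, map_add, map_mul, mod_of θ A, mod_of θ B, mod_of θ' A, mod_of θ' B, h1, h2]

lemma mod_away_lift {R S L : Type u} [CommRing R] [Algebra k R] [CommRing S] [Algebra k S]
    [CommRing L] [Algebra k L] (φ : R →ₐ[k] S) (t : R)
    (h : @IsLocalization.Away _ _ t S _ φ.toRingHom.toAlgebra) (θ : R →ₐ[k] L)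
    (hu : IsUnit (θ t)) : ∃ θ₀ : S →ₐ[k] L, θ₀.comp φ = θ := by
  let _ := φ.toRingHom.toAlgebra
  have h1 : ∀ r, IsLocalization.Away.lift (S := S) (g := θ.toRingHom) t hu (φ r) = θ r :=
    fun r => IsLocalization.Away.lift_eq (S := S) (g := θ.toRingHom) t hu r
  refine ⟨⟨IsLocalization.Away.lift (S := S) (g := θ.toRingHom) t hu, fun c => ?_⟩,
    AlgHom.ext h1⟩
  exact (congrArg _ (φ.commutes c).symm).trans ((h1 _).trans (θ.commutes c))

lemma mod_valEx {f₁ f₂ : k[X]} {R₀ : Type u} [CommRing R₀] [Algebra k R₀]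
    (φ₁ : Hy f₁ →ₐ[k] R₀) (φ₂ : Hy f₂ →ₐ[k] R₀)
    (h : @IsLocalization.Away _ _ (AdjoinRoot.of _ X : Hy f₁) R₀ _ φ₁.toRingHom.toAlgebra)
    (h1 : φ₁ (AdjoinRoot.of _ X) * φ₂ (AdjoinRoot.of _ X) = 1) : ValEx k φ₁ φ₂ := by
  intro L _ _ V hk θ
  by_cases hT : θ (AdjoinRoot.of _ X) ∈ V
  · exact Or.inl (mod_val θ V hk hT)
  · have h0 : θ (AdjoinRoot.of _ X) ≠ 0 := fun h0 => hT (h0 ▸ V.zero_mem)
    obtain ⟨θ₀, hθ⟩ := mod_away_lift φ₁ _ h θ (IsUnit.mk0 _ h0)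
    refine Or.inr ⟨θ₀, hθ, mod_val (θ₀.comp φ₂) V hk ?_⟩
    have h2 := congrArg θ₀ h1
    rw [map_mul, map_one, ← AlgHom.comp_apply, hθ] at h2
    rw [AlgHom.comp_apply, eq_inv_of_mul_eq_one_right h2]
    exact (V.mem_or_inv_mem _).resolve_left hT

lemma mod_regular {f : k[X]} {r : Hy f} (h : AdjoinRoot.of _ X * r = 0) : r = 0 := by
  obtain ⟨q, rfl⟩ := AdjoinRoot.mk_surjective r
  have hm : (X ^ 2 - C f : k[X][X]).Monic := monic_X_pow_sub_C f two_ne_zero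
  have h1 : (X ^ 2 - C f : k[X][X]) ∣ (X : k[X]) • q := by
    rw [← AdjoinRoot.mk_eq_zero, smul_eq_C_mul, map_mul, AdjoinRoot.mk_C, h]
  rw [← modByMonic_eq_zero_iff_dvd hm, smul_modByMonic, smul_eq_zero] at h1
  exact AdjoinRoot.mk_eq_zero.2 ((modByMonic_eq_zero_iff_dvd hm).1 (h1.resolve_left X_ne_zero))

lemma mod_sep {f : k[X]} (hs : f.Separable) : (X * f.reverse).Separable := by
  have hf0 : f ≠ 0 := hs.ne_zero
  refine separable_X.mul ?_ ?_
  · let L := AlgebraicClosure k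
    rw [← separable_map (algebraMap k L), reverse, ← reflect_map, ← natDegree_map (algebraMap k L),
      ← reverse, PerfectField.separable_iff_squarefree]
    have h1 : Squarefree (f.map (algebraMap k L)) := (hs.map (f := algebraMap k L)).squarefree
    generalize f.map (algebraMap k L) = F at h1
    intro q hq
    obtain ⟨r, hr⟩ : q * q ∣ F.mirror := hq.mul_right _
    have h2 := congrArg mirror hr
    rw [mirror_mirror, mirror_mul_of_domain, mirror_mul_of_domain] at h2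
    have h3 := h1 q.mirror ⟨_, h2⟩
    have h4 : q ≠ 0 := fun h => h3.ne_zero (by rw [h, mirror_zero])
    rw [isUnit_iff_degree_eq_zero, degree_eq_natDegree h4, ← mirror_natDegree,
      natDegree_eq_zero_of_isUnit h3]
    rfl
  · rw [irreducible_X.coprime_iff_not_dvd, X_dvd_iff, coeff_zero_reverse]
    exact leadingCoeff_ne_zero.2 hf0

lemma mod_rel {g : ℕ} {f : k[X]} (hf : f.natDegree = 2 * g + 1) {L : Type u} [CommRing L]
    [Algebra k L] {a u : L} (h : a * u = 1) :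
    aeval u (X * f.reverse) = (u ^ (g + 1)) ^ 2 * aeval a f := by
  let _ : Invertible a := ⟨u, (mul_comm u a).trans h, h⟩
  have h1 : aeval u f.reverse * a ^ (2 * g + 1) = aeval a f := by
    rw [← hf]
    exact eval₂_reverse_mul_pow (algebraMap k L) a f
  have h2 : a ^ (2 * g + 1) * u ^ (2 * g + 1) = 1 := by rw [← mul_pow, h, one_pow]
  rw [map_mul, aeval_X, ← h1]
  linear_combination (-(u * aeval u f.reverse)) * h2

/-- The chart at infinity `v ^ 2 = u ^ (2 g + 2) f (1 / u)` and the overlap of the two charts. -/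
theorem exists_charts (h2 : (2 : k) ≠ 0) {g : ℕ} {f : k[X]} (hf : f.natDegree = 2 * g + 1)
    (hs : f.Separable) :
    ∃ (R₂ R₀ : Type u) (_ : CommRing R₂) (_ : Algebra k R₂) (_ : CommRing R₀) (_ : Algebra k R₀)
      (φ₁ : AdjoinRoot (X ^ 2 - C f : k[X][X]) →ₐ[k] R₀) (φ₂ : R₂ →ₐ[k] R₀)
      (t₁ : AdjoinRoot (X ^ 2 - C f : k[X][X])) (t₂ : R₂),
      IsDomain R₂ ∧ Nontrivial R₀ ∧ Algebra.Smooth k R₂ ∧
      @IsLocalization.Away _ _ t₁ R₀ _ φ₁.toRingHom.toAlgebra ∧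
      @IsLocalization.Away _ _ t₂ R₀ _ φ₂.toRingHom.toAlgebra ∧
      ValEx k φ₁ φ₂ ∧ ValEx k φ₂ φ₁ ∧
      ∀ S : Subring R₀, (∀ r, φ₁ r ∈ S) → (∀ r, φ₂ r ∈ S) → ∀ r, r ∈ S := by
  have hd := isDomain_hyp hf
  set T : Hy f := AdjoinRoot.of _ X with hT
  have hT0 : T ≠ 0 := fun h => one_ne_zero (mod_regular (f := f) (r := 1) (by rw [← hT, h, zero_mul]))
  let R₀ := Localization.Away T
  let φ₁ : Hy f →ₐ[k] R₀ := IsScalarTower.toAlgHom k (Hy f) R₀
  have hd₀ : IsDomain R₀ :=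
    IsLocalization.isDomain_localization (powers_le_nonZeroDivisors_of_noZeroDivisors hT0)
  have haw₁ : @IsLocalization.Away _ _ T R₀ _ φ₁.toRingHom.toAlgebra :=
    @IsLocalization.Away.mk _ _ _ _ φ₁.toRingHom.toAlgebra T
      (IsLocalization.Away.algebraMap_isUnit (S := R₀) T) (IsLocalization.Away.surj (S := R₀) T)
      fun _ _ h => IsLocalization.Away.exists_of_eq (S := R₀) T h
  obtain ⟨u, hu⟩ : ∃ u : R₀, φ₁ T * u = 1 := ⟨_, IsLocalization.Away.mul_invSelf T⟩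
  have hun : ∀ n : ℕ, φ₁ T ^ n * u ^ n = 1 := fun n => by rw [← mul_pow, hu, one_pow]
  obtain ⟨φ₂, h21, h22⟩ := mod_lift (X * f.reverse) u (φ₁ (AdjoinRoot.root _) * u ^ (g + 1))
    (by rw [mod_rel hf hu, mul_pow, mod_sq, mul_comm])
  have hgen : ∀ S : Subring R₀, (∀ r, φ₁ r ∈ S) → u ∈ S → ∀ r, r ∈ S := by
    intro S h1 h2 r
    obtain ⟨n, a, ha⟩ := IsLocalization.Away.surj (S := R₀) T r
    have : r = φ₁ a * u ^ n := by
      have ha' : r * φ₁ T ^ n = φ₁ a := ha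
      rw [← ha', mul_assoc, hun, mul_one]
    rw [this]
    exact S.mul_mem (h1 a) (S.pow_mem h2 n)
  set U : Hy (X * f.reverse) := AdjoinRoot.of _ X with hU
  have hex : ∀ a b, φ₂ a = φ₂ b → ∃ n : ℕ, U ^ n * a = U ^ n * b := by
    let R' := Localization.Away U
    let ψ₂ : Hy (X * f.reverse) →ₐ[k] R' := IsScalarTower.toAlgHom k _ R'
    obtain ⟨w, hw⟩ : ∃ w : R', ψ₂ U * w = 1 := ⟨_, IsLocalization.Away.mul_invSelf U⟩
    have hw' : w * ψ₂ U = 1 := (mul_comm _ _).trans hw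
    have hwn : w ^ (g + 1) * ψ₂ U ^ (g + 1) = 1 := by rw [← mul_pow, hw', one_pow]
    obtain ⟨ψ₁, h11, h12⟩ := mod_lift f w (ψ₂ (AdjoinRoot.root _) * w ^ (g + 1)) (by
      rw [mul_pow, mod_sq, ← hU, mod_rel hf hw']
      linear_combination (aeval w f * (w ^ (g + 1) * ψ₂ U ^ (g + 1) + 1)) * hwn)
    obtain ⟨ψ, hψ⟩ := mod_away_lift φ₁ T haw₁ ψ₁ (h11 ▸ IsUnit.of_mul_eq_one _ hw')
    have hψ1 : ∀ r, ψ (φ₁ r) = ψ₁ r := fun r => congrArg (fun t : Hy f →ₐ[k] R' => t r) hψ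
    have hψu : ψ u = ψ₂ U := by
      have := congrArg ψ hu
      rw [map_mul, map_one, hψ1, h11] at this
      linear_combination ψ₂ U * this - ψ u * hw
    have hc : ψ.comp φ₂ = ψ₂ := by
      refine mod_ext ?_ ?_
      · rw [AlgHom.comp_apply, h21, hψu]
      · rw [AlgHom.comp_apply, h22, map_mul, map_pow, hψ1, h12, hψu, mul_assoc, hwn, mul_one]
    intro a b hab
    refine IsLocalization.Away.exists_of_eq (S := R') U ?_
    change ψ₂ a = ψ₂ b
    rw [← hc, AlgHom.comp_apply, AlgHom.comp_apply, hab]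
  have haw₂ : @IsLocalization.Away _ _ U R₀ _ φ₂.toRingHom.toAlgebra := by
    refine @IsLocalization.Away.mk _ _ _ _ φ₂.toRingHom.toAlgebra U
      (h21 ▸ IsUnit.of_mul_eq_one _ ((mul_comm _ _).trans hu) : IsUnit (φ₂ U)) ?_ hex
    let S : Subring R₀ :=
      { carrier := {s | ∃ (n : ℕ) (a : Hy (X * f.reverse)), s * φ₂ U ^ n = φ₂ a}
        mul_mem' := by
          rintro s t ⟨n, a, ha⟩ ⟨m, b, hb⟩
          exact ⟨n + m, a * b, by rw [map_mul φ₂, ← ha, ← hb]; ring⟩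
        one_mem' := ⟨0, 1, by simp⟩
        add_mem' := by
          rintro s t ⟨n, a, ha⟩ ⟨m, b, hb⟩
          exact ⟨n + m, a * U ^ m + b * U ^ n, by
            rw [map_add φ₂, map_mul φ₂, map_mul φ₂, map_pow φ₂, map_pow φ₂, ← ha, ← hb]; ring⟩
        zero_mem' := ⟨0, 0, by simp⟩
        neg_mem' := by
          rintro s ⟨n, a, ha⟩
          exact ⟨n, -a, by rw [map_neg φ₂, ← ha]; ring⟩ }
    refine hgen S (mod_mem φ₁ S (fun c => ⟨0, algebraMap k _ c, by simp⟩)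
      ⟨1, 1, by rw [h21, pow_one, map_one]; exact hu⟩
      ⟨g + 1, AdjoinRoot.root _, by rw [h21, h22]⟩) ⟨0, U, by rw [h21, pow_zero, mul_one]⟩
  have hinj : Function.Injective φ₂ := by
    intro a b hab
    obtain ⟨n, hn⟩ := hex a b hab
    induction n with
    | zero => simpa using hn
    | succ n ih =>
      refine ih (sub_eq_zero.1 (mod_regular ?_))
      rw [← hU]
      linear_combination hn
  have hTU : φ₁ T * φ₂ U = 1 := h21 ▸ hu
  exact ⟨Hy (X * f.reverse), R₀, inferInstance, inferInstance, inferInstance, inferInstance, φ₁, φ₂,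
    T, U, hinj.isDomain φ₂.toRingHom, inferInstance, smooth_hyp h2 (mod_sep hs), haw₁, haw₂,
    mod_valEx φ₁ φ₂ haw₁ hTU, mod_valEx φ₂ φ₁ haw₂ ((mul_comm _ _).trans hTU),
    fun S h1 h2 => hgen S h1 (h21 ▸ h2 U)⟩

end Pool.Agent.Lib.MP_2ca583_ag.Jac
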