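import Pool.Agent.Lib.MP_2ca583_ag.JBase

set_option autoImplicit false

open CategoryTheory CategoryTheory.Limits AlgebraicGeometry

universe u

namespace Pool.Agent.Lib.MP_2ca583_ag.Jac

/-- Restriction of sections of the structure sheaf to a smaller open set. -/
noncomputable def res {Y : Scheme.{u}} {U V : Y.Opens} (h : V ≤ U) : Γ(Y, U) →+* Γ(Y, V) :=
  (Y.presheaf.map (homOfLE h).op).hom

lemma res_res {Y : Scheme.{u}} {U V W : Y.Opens} (h : V ≤ U) (h' : W ≤ V) (x : Γ(Y, U)) :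
    res h' (res h x) = res (h'.trans h) x := by
  simp only [res, ← CommRingCat.comp_apply, ← Functor.map_comp]
  rfl

lemma appLE_res {Y Z : Scheme.{u}} (φ : Z ⟶ Y) {U U' : Y.Opens} {V : Z.Opens} (h : U' ≤ U)
    (e : V ≤ φ ⁻¹ᵁ U') (x : Γ(Y, U)) :
    (φ.appLE U' V e).hom (res h x)
      = (φ.appLE U V (e.trans (φ.preimage_mono h))).hom x := by
  simp only [res, ← CommRingCat.comp_apply, Scheme.Hom.map_appLE]

lemma val_eq {Y : Scheme.{u}} {A B C D W : Y.Opens} {hA : W ≤ A} {hB : W ≤ B} {hC : W ≤ C}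
    {hD : W ≤ D} {a : Un Y A} {b : Un Y B} {c : Un Y C} {d : Un Y D} :
    mulU (resU hA a) (resU hB b) = mulU (resU hC c) (resU hD d)
      ↔ res hA a.val * res hB b.val = res hC c.val * res hD d.val := Units.ext_iff

lemma val_eq' {Y : Scheme.{u}} {A B C W : Y.Opens} {hA : W ≤ A} {hB : W ≤ B} {hC : W ≤ C}
    {a : Un Y A} {b : Un Y B} {c : Un Y C} :
    mulU (resU hA a) (resU hB b) = resU hC c ↔ res hA a.val * res hB b.val = res hC c.val :=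
  Units.ext_iff

variable {Ω : Type u} [CommRing Ω] {Y : Scheme.{u}}

/-- Evaluation of sections at an `Ω`-valued point. -/
noncomputable def ev (ψ : Spec (CommRingCat.of Ω) ⟶ Y) (U : Y.Opens) (h : ⊤ ≤ ψ ⁻¹ᵁ U) :
    Γ(Y, U) →+* Ω :=
  (ψ.appLE U ⊤ h ≫ (Scheme.ΓSpecIso (CommRingCat.of Ω)).hom).hom

lemma ev_res (ψ : Spec (CommRingCat.of Ω) ⟶ Y) {U V : Y.Opens} (hV : V ≤ U) (h : ⊤ ≤ ψ ⁻¹ᵁ V)
    (x : Γ(Y, U)) : ev ψ V h (res hV x) = ev ψ U (h.trans (ψ.preimage_mono hV)) x :=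
  congrArg (Scheme.ΓSpecIso (CommRingCat.of Ω)).hom.hom (appLE_res ψ hV h x)

lemma ev_comp {Z : Scheme.{u}} (ψ : Spec (CommRingCat.of Ω) ⟶ Z) (φ : Z ⟶ Y) {U : Y.Opens}
    {V : Z.Opens} (e : V ≤ φ ⁻¹ᵁ U) (h : ⊤ ≤ ψ ⁻¹ᵁ V) (h' : ⊤ ≤ (ψ ≫ φ) ⁻¹ᵁ U) (x : Γ(Y, U)) :
    ev ψ V h ((φ.appLE U V e).hom x) = ev (ψ ≫ φ) U h' x := by
  have h1 := congrArg (fun t => (t ≫ (Scheme.ΓSpecIso (CommRingCat.of Ω)).hom).hom x)
    (Scheme.Hom.appLE_comp_appLE ψ φ U V ⊤ e h)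
  exact h1

lemma ev_spec {Ω' : Type u} [CommRing Ω'] (θ : Ω →+* Ω') (ψ : Spec (CommRingCat.of Ω) ⟶ Y)
    {U : Y.Opens} (h : ⊤ ≤ ψ ⁻¹ᵁ U) (h' : ⊤ ≤ (Spec.map (CommRingCat.ofHom θ) ≫ ψ) ⁻¹ᵁ U)
    (x : Γ(Y, U)) : ev (Spec.map (CommRingCat.ofHom θ) ≫ ψ) U h' x = θ (ev ψ U h x) := by
  rw [← ev_comp (Spec.map (CommRingCat.ofHom θ)) ψ h le_rfl h']
  have h1 := congrArg (fun t => t.hom ((ψ.appLE U ⊤ h).hom x))
    (Scheme.ΓSpecIso_naturality (CommRingCat.ofHom θ))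
  refine Eq.trans ?_ h1
  simp only [ev, Scheme.Hom.appTop, Scheme.Hom.app_eq_appLE]
  rfl

lemma ev_top {S : Type u} [CommRing S] (θ : S →+* Ω) (h) (x : S) :
    ev (Spec.map (CommRingCat.ofHom θ)) ⊤ h ((Scheme.ΓSpecIso (CommRingCat.of S)).inv.hom x)
      = θ x := by
  have h1 := congrArg (fun t => t.hom ((Scheme.ΓSpecIso (CommRingCat.of S)).inv.hom x))
    (Scheme.ΓSpecIso_naturality (CommRingCat.ofHom θ))
  refine Eq.trans ?_ (h1.trans ?_)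
  · simp only [ev, Scheme.Hom.appTop, Scheme.Hom.app_eq_appLE]
    rfl
  · simp

lemma ev_congr {ψ ψ' : Spec (CommRingCat.of Ω) ⟶ Y} (e : ψ = ψ') {U : Y.Opens} (h h')
    (x : Γ(Y, U)) : ev ψ U h x = ev ψ' U h' x := by
  subst e; rfl

/-- Every nonempty open set contains the image of `ψ`. -/
def Gen (ψ : Spec (CommRingCat.of Ω) ⟶ Y) : Prop :=
  ∀ (U : Y.Opens) (y : Y), y ∈ U → ⊤ ≤ ψ ⁻¹ᵁ U

lemma le_pre_inf {ψ : Spec (CommRingCat.of Ω) ⟶ Y} {U V : Y.Opens} (h : ⊤ ≤ ψ ⁻¹ᵁ U)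
    (h' : ⊤ ≤ ψ ⁻¹ᵁ V) : ⊤ ≤ ψ ⁻¹ᵁ (U ⊓ V) := le_inf h h'

/-- The values at `ψ` of the functions regular near `y`. -/
def OO (ψ : Spec (CommRingCat.of Ω) ⟶ Y) (y : Y) : Subring Ω where
  carrier := {z | ∃ (W : Y.Opens) (_ : y ∈ W) (h : ⊤ ≤ ψ ⁻¹ᵁ W) (a : Γ(Y, W)), ev ψ W h a = z}
  mul_mem' := by
    rintro _ _ ⟨W, hW, h, a, rfl⟩ ⟨W', hW', h', a', rfl⟩
    refine ⟨W ⊓ W', ⟨hW, hW'⟩, le_pre_inf h h', res inf_le_left a * res inf_le_right a', ?_⟩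
    rw [map_mul, ev_res, ev_res]
  one_mem' := ⟨⊤, trivial, le_rfl, 1, map_one _⟩
  add_mem' := by
    rintro _ _ ⟨W, hW, h, a, rfl⟩ ⟨W', hW', h', a', rfl⟩
    refine ⟨W ⊓ W', ⟨hW, hW'⟩, le_pre_inf h h', res inf_le_left a + res inf_le_right a', ?_⟩
    rw [map_add, ev_res, ev_res]
  zero_mem' := ⟨⊤, trivial, le_rfl, 0, map_zero _⟩
  neg_mem' := by
    rintro _ ⟨W, hW, h, a, rfl⟩
    exact ⟨W, hW, h, -a, map_neg _ _⟩

lemma ev_mem (ψ : Spec (CommRingCat.of Ω) ⟶ Y) {y : Y} {W : Y.Opens} (hy : y ∈ W)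
    (h : ⊤ ≤ ψ ⁻¹ᵁ W) (a : Γ(Y, W)) : ev ψ W h a ∈ OO ψ y := ⟨W, hy, h, a, rfl⟩

lemma isU_ev (ψ : Spec (CommRingCat.of Ω) ⟶ Y) {y : Y} {W : Y.Opens} (hy : y ∈ W)
    (h : ⊤ ≤ ψ ⁻¹ᵁ W) (a : Γ(Y, W)ˣ) : IsU (OO ψ y) (Units.map (ev ψ W h).toMonoidHom a) :=
  ⟨ev_mem ψ hy h a, ev_mem ψ hy h (a⁻¹ : Γ(Y, W)ˣ)⟩

/-- The value at `ψ` of a transition function. -/
noncomputable def tr (ψ : Spec (CommRingCat.of Ω) ⟶ Y) (L : Cocycle Y) (a b : Y)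
    (h : ⊤ ≤ ψ ⁻¹ᵁ (L.U a ⊓ L.U b)) : Ωˣ :=
  Units.map (ev ψ (L.U a ⊓ L.U b) h).toMonoidHom (L.g a b)

lemma tr_val (ψ : Spec (CommRingCat.of Ω) ⟶ Y) (L : Cocycle Y) (a b : Y)
    (h : ⊤ ≤ ψ ⁻¹ᵁ (L.U a ⊓ L.U b)) : (tr ψ L a b h : Ω) = ev ψ _ h (L.g a b) := rfl

lemma Gen.two {ψ : Spec (CommRingCat.of Ω) ⟶ Y} (hg : Gen ψ) (L : Cocycle Y) (a b : Y) :
    ⊤ ≤ ψ ⁻¹ᵁ (L.U a ⊓ L.U b) := le_pre_inf (hg _ _ (L.mem a)) (hg _ _ (L.mem b))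

lemma tr_cocycle (ψ : Spec (CommRingCat.of Ω) ⟶ Y) (L : Cocycle Y) (a b c : Y) (h₁ h₂ h₃) :
    tr ψ L a b h₁ * tr ψ L b c h₂ = tr ψ L a c h₃ := by
  ext
  have h := congrArg (ev ψ ((L.U a ⊓ L.U b) ⊓ (L.U b ⊓ L.U c)) (le_pre_inf h₁ h₂))
    (val_eq'.1 (L.cocycle a b c ((L.U a ⊓ L.U b) ⊓ (L.U b ⊓ L.U c))
      (inf_le_left.trans inf_le_left) (inf_le_left.trans inf_le_right)
      (inf_le_right.trans inf_le_right)))
  rw [map_mul, ev_res, ev_res, ev_res] at h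
  exact h

lemma tr_self (ψ : Spec (CommRingCat.of Ω) ⟶ Y) (L : Cocycle Y) {a b : Y} (e : a = b) (h) :
    tr ψ L a b h = 1 := by
  subst e
  exact mul_eq_left.1 (tr_cocycle ψ L a a a h h h)

lemma isU_tr (ψ : Spec (CommRingCat.of Ω) ⟶ Y) (L : Cocycle Y) {a b : Y} (hb : b ∈ L.U a) (h) :
    IsU (OO ψ b) (tr ψ L a b h) :=
  isU_ev ψ (W := L.U a ⊓ L.U b) ⟨hb, L.mem b⟩ h _

lemma tr_mul (ψ : Spec (CommRingCat.of Ω) ⟶ Y) (L M : Cocycle Y) (a b : Y) (h h₁ h₂) :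
    tr ψ (L.mul M) a b h = tr ψ L a b h₁ * tr ψ M a b h₂ := by
  ext
  exact (map_mul (ev ψ _ h) _ _).trans (congrArg₂ (· * ·) (ev_res ψ _ h _) (ev_res ψ _ h _))

lemma tr_pull {Z : Scheme.{u}} (ψ : Spec (CommRingCat.of Ω) ⟶ Z) (φ : Z ⟶ Y) (L : Cocycle Y)
    (a b : Z) (h h') : tr ψ (L.pull φ) a b h = tr (ψ ≫ φ) L (φ a) (φ b) h' := by
  ext
  exact ev_comp ψ φ _ h h' _

lemma tr_spec {Ω' : Type u} [CommRing Ω'] (θ : Ω →+* Ω') (ψ : Spec (CommRingCat.of Ω) ⟶ Y)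
    {ψ' : Spec (CommRingCat.of Ω') ⟶ Y} (e : ψ' = Spec.map (CommRingCat.ofHom θ) ≫ ψ)
    (L : Cocycle Y) {a b a' b' : Y} (ea : a' = a) (eb : b' = b) (h h') :
    (tr ψ' L a' b' h' : Ω') = θ (tr ψ L a b h) := by
  subst e ea eb
  exact ev_spec θ ψ h h' _

lemma Cohom.exists_tr {ψ : Spec (CommRingCat.of Ω) ⟶ Y} (hg : Gen ψ) {L M : Cocycle Y}
    (h : Cohom L M) : ∃ σ : Y → Ωˣ, (∀ y, IsU (OO ψ y) (σ y)) ∧ ∀ a b,
      tr ψ L a b (hg.two L a b) * σ b = σ a * tr ψ M a b (hg.two M a b) := by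
  obtain ⟨V, hV, hL, hM, s, hs⟩ := h
  refine ⟨fun y => Units.map (ev ψ (V y) (hg _ _ (hV y))).toMonoidHom (s y),
    fun y => isU_ev ψ (hV y) _ _, fun a b => ?_⟩
  ext
  have h := congrArg (ev ψ (V a ⊓ V b) (le_pre_inf (hg _ _ (hV a)) (hg _ _ (hV b))))
    (val_eq.1 (hs a b (V a ⊓ V b) inf_le_left inf_le_right))
  rw [map_mul, map_mul, ev_res, ev_res, ev_res, ev_res] at h
  exact h

lemma cohom_of_tr {ψ : Spec (CommRingCat.of Ω) ⟶ Y} (hg : Gen ψ)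
    (hi : ∀ U h, Function.Injective (ev ψ U h)) {L M : Cocycle Y} (σ : Y → Ωˣ)
    (hσ : ∀ y, IsU (OO ψ y) (σ y))
    (H : ∀ a b, tr ψ L a b (hg.two L a b) * σ b = σ a * tr ψ M a b (hg.two M a b)) :
    Cohom L M := by
  have key : ∀ y, ∃ (V : Y.Opens) (hy : y ∈ V) (_ : V ≤ L.U y) (_ : V ≤ M.U y) (s : Γ(Y, V)ˣ),
      ev ψ V (hg _ _ hy) s = σ y := by
    intro y
    obtain ⟨⟨W, hW, h, a, ha⟩, ⟨W', hW', h', a', ha'⟩⟩ := hσ y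
    have hy : y ∈ (W ⊓ W') ⊓ (L.U y ⊓ M.U y) := ⟨⟨hW, hW'⟩, L.mem y, M.mem y⟩
    have h1 : res (inf_le_left.trans inf_le_left : (W ⊓ W') ⊓ (L.U y ⊓ M.U y) ≤ W) a
        * res (inf_le_left.trans inf_le_right) a' = 1 := by
      apply hi _ (hg _ _ hy)
      rw [map_mul, ev_res, ev_res, ha, ha', map_one, Units.mul_inv]
    refine ⟨_, hy, inf_le_right.trans inf_le_left, inf_le_right.trans inf_le_right,
      Units.mkOfMulEqOne _ _ h1, ?_⟩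
    rw [Units.val_mkOfMulEqOne, ev_res, ha]
  choose V hV hL hM s hs using key
  refine ⟨V, hV, hL, hM, s, fun a b W ha hb => val_eq.2 ?_⟩
  by_cases hW : W = ⊥
  · subst hW
    exact Subsingleton.elim _ _
  · obtain ⟨w, hw⟩ : ∃ w, w ∈ W := by
      by_contra hne
      exact hW (eq_bot_iff.2 fun w hw => (hne ⟨w, hw⟩).elim)
    apply hi W (hg _ _ hw)
    rw [map_mul, map_mul, ev_res, ev_res, ev_res, ev_res, hs, hs]
    exact congrArg Units.val (H a b)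

lemma Gen.of_comp {Z : Scheme.{u}} {ψ : Spec (CommRingCat.of Ω) ⟶ Z} {c : Z ⟶ Y}
    [IsOpenImmersion c] (hg : Gen (ψ ≫ c)) : Gen ψ := by
  intro U z hz
  have h := hg (c ''ᵁ U) (c z) ((Scheme.Hom.apply_mem_image_iff c).2 hz)
  rwa [Scheme.Hom.comp_preimage, Scheme.Hom.preimage_image_eq] at h

lemma ev_appIso {Z : Scheme.{u}} (ψ : Spec (CommRingCat.of Ω) ⟶ Z) (c : Z ⟶ Y)
    [IsOpenImmersion c] (W : Z.Opens) (h h') (a : Γ(Z, W)) :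
    ev (ψ ≫ c) (c ''ᵁ W) h' ((c.appIso W).inv.hom a) = ev ψ W h a := by
  have e : W ≤ c ⁻¹ᵁ c ''ᵁ W := (c.preimage_image_eq W).ge
  rw [← ev_comp ψ c e h]
  congr 1
  have h1 := congrArg (fun t => t.hom a) (c.appIso_inv_appLE (U := W) (V := W) e)
  refine h1.trans ?_
  simp

lemma OO_comp {Z : Scheme.{u}} (ψ : Spec (CommRingCat.of Ω) ⟶ Z) (c : Z ⟶ Y)
    [IsOpenImmersion c] (z : Z) : OO (ψ ≫ c) (c z) = OO ψ z := by
  ext t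
  constructor
  · rintro ⟨W, hW, h, a, rfl⟩
    exact ⟨c ⁻¹ᵁ W, hW, h, (c.appLE W _ le_rfl).hom a, ev_comp ψ c le_rfl h h a⟩
  · rintro ⟨W, hW, h, a, rfl⟩
    exact ⟨c ''ᵁ W, (Scheme.Hom.apply_mem_image_iff c).2 hW,
      h.trans (ψ.preimage_mono (c.preimage_image_eq W).ge), (c.appIso W).inv.hom a,
      ev_appIso ψ c W h _ a⟩

lemma chart_injective {S : Type u} [CommRing S] (θ : S →+* Ω) (c : Spec (CommRingCat.of S) ⟶ Y)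
    [IsOpenImmersion c] {ψ : Spec (CommRingCat.of Ω) ⟶ Y}
    (e : Spec.map (CommRingCat.ofHom θ) ≫ c = ψ) (hi : ∀ U h, Function.Injective (ev ψ U h)) :
    Function.Injective θ := by
  subst e
  intro a b hab
  have h' : ⊤ ≤ (Spec.map (CommRingCat.ofHom θ) ≫ c) ⁻¹ᵁ (c ''ᵁ ⊤) := by
    rw [Scheme.Hom.comp_preimage, Scheme.Hom.preimage_image_eq]; exact le_rfl
  rw [← ev_top θ le_rfl, ← ev_top θ le_rfl, ← ev_appIso _ c ⊤ le_rfl h',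
    ← ev_appIso _ c ⊤ le_rfl h'] at hab
  exact (ConcreteCategory.bijective_of_isIso (Scheme.ΓSpecIso (CommRingCat.of S)).inv).1
    ((ConcreteCategory.bijective_of_isIso (c.appIso ⊤).inv).1 (hi _ _ hab))

lemma mem_basic {S : Type u} [CommRing S] (𝔭 : PrimeSpectrum S)
    (r : Γ(Spec (CommRingCat.of S), ⊤)) :
    (𝔭 : Spec (CommRingCat.of S)) ∈ (Spec (CommRingCat.of S)).basicOpen r
      ↔ (Scheme.ΓSpecIso (CommRingCat.of S)).hom.hom r ∉ 𝔭.asIdeal := by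
  rw [basicOpen_eq_of_affine']
  rfl

lemma OO_spec {S : Type u} [CommRing S] (θ : S →+* Ω)
    (hg : Gen (Spec.map (CommRingCat.ofHom θ))) (𝔭 : PrimeSpectrum S) :
    OO (Spec.map (CommRingCat.ofHom θ)) (𝔭 : Spec (CommRingCat.of S)) = Loc θ 𝔭 := by
  have htop : ∀ (r : Γ(Spec (CommRingCat.of S), ⊤)) h,
      ev (Spec.map (CommRingCat.ofHom θ)) ⊤ h r
        = θ ((Scheme.ΓSpecIso (CommRingCat.of S)).hom.hom r) := by
    intro r h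
    rw [← ev_top θ h]
    simp
  ext z
  constructor
  · rintro ⟨W, hW, h, a, rfl⟩
    obtain ⟨r, hr, h𝔭⟩ := (isAffineOpen_top (Spec (CommRingCat.of S))).exists_basicOpen_le
      (V := W) ⟨𝔭, hW⟩ trivial
    obtain ⟨⟨t, _, n, rfl⟩, ht⟩ := IsLocalization.surj (Submonoid.powers r)
      (S := Γ(Spec (CommRingCat.of S), (Spec (CommRingCat.of S)).basicOpen r)) (res hr a)
    have h1 := congrArg (ev (Spec.map (CommRingCat.ofHom θ)) _ (hg _ _ h𝔭)) ht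
    have h2 : ∀ x : Γ(Spec (CommRingCat.of S), ⊤),
        algebraMap _ Γ(Spec (CommRingCat.of S), (Spec (CommRingCat.of S)).basicOpen r) x
          = res le_top x := fun _ => rfl
    rw [map_mul, h2, h2, ev_res, ev_res, ev_res, htop, htop] at h1
    refine ⟨_, _, ?_, h1⟩
    rw [map_pow]
    exact fun hm => (mem_basic 𝔭 r).1 h𝔭 (𝔭.2.mem_of_pow_mem _ hm)
  · rintro ⟨a, b, hb, h⟩
    set r := (Scheme.ΓSpecIso (CommRingCat.of S)).inv.hom b with hr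
    have h𝔭 : (𝔭 : Spec (CommRingCat.of S)) ∈ (Spec (CommRingCat.of S)).basicOpen r := by
      rw [mem_basic, hr]; simpa using hb
    obtain ⟨v, hv⟩ : IsUnit (res (le_top : (Spec (CommRingCat.of S)).basicOpen r ≤ ⊤) r) :=
      RingedSpace.isUnit_res_basicOpen (Spec (CommRingCat.of S)).toRingedSpace r
    refine ⟨_, h𝔭, hg _ _ h𝔭,
      res le_top ((Scheme.ΓSpecIso (CommRingCat.of S)).inv.hom a) * (v⁻¹).val, ?_⟩
    have h1 : θ b * ev (Spec.map (CommRingCat.ofHom θ)) _ (hg _ _ h𝔭) (v⁻¹).val = 1 := by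
      rw [← ev_top θ le_rfl b, ← hr, ← ev_res _ le_top (hg _ _ h𝔭), ← hv, ← map_mul,
        Units.mul_inv, map_one]
    rw [map_mul, ev_res, ev_top, ← h, mul_assoc, h1, mul_one]

/-- The chart lemma. -/
lemma OO_chart {S : Type u} [CommRing S] (θ : S →+* Ω) (c : Spec (CommRingCat.of S) ⟶ Y)
    [IsOpenImmersion c] {ψ : Spec (CommRingCat.of Ω) ⟶ Y}
    (e : Spec.map (CommRingCat.ofHom θ) ≫ c = ψ) (hg : Gen ψ) (𝔭 : PrimeSpectrum S) :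
    OO ψ (c 𝔭) = Loc θ 𝔭 := by
  subst e
  rw [← OO_spec θ hg.of_comp 𝔭]
  exact OO_comp _ c _

lemma gen_of_dominant (ψ : Spec (CommRingCat.of Ω) ⟶ Y) [IsDominant ψ]
    [Subsingleton (PrimeSpectrum Ω)] : Gen ψ := by
  intro U y hy t _
  obtain ⟨w, hw⟩ := ψ.denseRange.exists_mem_open U.isOpen ⟨y, hy⟩
  have : t = w := Subsingleton.elim (α := PrimeSpectrum Ω) _ _
  subst this
  exact hw

lemma ev_injective (ψ : Spec (CommRingCat.of Ω) ⟶ Y) [IsSchemeTheoreticallyDominant ψ]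
    [QuasiCompact ψ] (U : Y.Opens) (h : ⊤ ≤ ψ ⁻¹ᵁ U) : Function.Injective (ev ψ U h) := by
  have h1 : Function.Injective (Scheme.ΓSpecIso (CommRingCat.of Ω)).hom.hom :=
    (ConcreteCategory.bijective_of_isIso (Scheme.ΓSpecIso (CommRingCat.of Ω)).hom).1
  have h2 : Function.Injective (res h : Γ(Spec (CommRingCat.of Ω), ψ ⁻¹ᵁ U) →+* _) := by
    intro a b hab
    have := congrArg (res (le_top : ψ ⁻¹ᵁ U ≤ ⊤)) hab
    rw [res_res, res_res] at this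
    simpa [res] using this
  exact h1.comp (h2.comp (ψ.app_injective U))

end Pool.Agent.Lib.MP_2ca583_ag.Jac
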