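import Pool.Agent.Lib.MP_2ca583_ag.Core

set_option autoImplicit false

open Polynomial CommRing
open QuadraticAlgebra hiding C_mul C_pow C_ofNat C_add C_neg C_sub

namespace Pool.Agent.Lib.MP_2ca583_ag

section General

variable {R K : Type*} [CommRing R] [IsDomain R] [Field K] [Algebra R K] [IsFractionRing R K]

lemma root_mem {p : ℕ} (hroot : ∀ r s : R, s ≠ 0 → s ^ p ∣ r ^ p → s ∣ r) {z : K}
    (hz : z ^ p ∈ (1 : Submodule R K)) : z ∈ (1 : Submodule R K) := by
  obtain ⟨t, ht⟩ := Submodule.mem_one.1 hz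
  obtain ⟨r, s, hs, rfl⟩ := IsFractionRing.div_surjective (A := R) z
  have hs0 : s ≠ 0 := nonZeroDivisors.ne_zero hs
  have hs1 : algebraMap R K s ≠ 0 := IsFractionRing.to_map_ne_zero_of_mem_nonZeroDivisors hs
  have h1 : s ^ p ∣ r ^ p := by
    refine ⟨t, IsFractionRing.injective R K ?_⟩
    rw [map_mul, map_pow, map_pow, ht, div_pow]
    field_simp
  obtain ⟨c, rfl⟩ := hroot r s hs0 h1
  refine Submodule.mem_one.2 ⟨c, ?_⟩
  rw [map_mul]; field_simp

lemma unit_eq_one {p : ℕ} (hroot : ∀ r s : R, s ≠ 0 → s ^ p ∣ r ^ p → s ∣ r)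
    (J : (Submodule R K)ˣ) (hJ : J ^ p = 1) : J = 1 := by
  have key : ∀ J : (Submodule R K)ˣ, J ^ p = 1 → (J : Submodule R K) ≤ 1 := by
    intro J hJ z hz
    apply root_mem hroot
    have := Submodule.pow_mem_pow (J : Submodule R K) hz p
    rwa [← Units.val_pow_eq_pow_val, hJ] at this
  have h1 := key J hJ
  have h2 := key J⁻¹ (by rw [inv_pow, hJ, inv_one])
  apply Units.ext
  refine le_antisymm h1 ?_
  calc ((1 : (Submodule R K)ˣ) : Submodule R K) = (J : Submodule R K) * (J⁻¹ : (Submodule R K)ˣ) := by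
        rw [← Units.val_mul, mul_inv_cancel]
    _ ≤ (J : Submodule R K) * 1 := mul_le_mul_right h2 _
    _ = J := mul_one _

/-- The principal invertible submodule generated by a unit of the fraction field. -/
noncomputable abbrev prin (R : Type*) {K : Type*} [CommRing R] [Field K] [Algebra R K] :
    Kˣ →* (Submodule R K)ˣ := Units.map (Submodule.spanSingleton R).toMonoidHom

omit [IsDomain R] [IsFractionRing R K] in
lemma coe_prin (x : Kˣ) : (prin R x : Submodule R K) = Submodule.span R {(x : K)} := rfl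

omit [IsDomain R] in
lemma toPic_prin (x : Kˣ) : Submodule.unitsToPic R K (prin R x) = 1 := by
  rw [← MonoidHom.mem_ker, Submodule.ker_unitsToPic]
  exact ⟨x, rfl⟩

lemma exists_rep {p : ℕ} [hp : Fact p.Prime] [CharP R p]
    (hroot : ∀ r s : R, s ≠ 0 → s ^ p ∣ r ^ p → s ∣ r) (δ : R → R)
    (hadd : ∀ a b, δ (a + b) = δ a + δ b) (hmul : ∀ a b, δ (a ^ p * b) = a ^ p * δ b)
    (c : Pic R) (hc : c ^ p = 1) :
    ∃ (I : (Submodule R K)ˣ) (a : R) (x : Kˣ), Submodule.unitsToPic R K I = c ∧ a ≠ 0 ∧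
      (x : K) = algebraMap R K a ∧ I ^ p = prin R x ∧ ∃ v : R, δ a = v * a := by
  have : CharP K p := charP_of_injective_algebraMap (IsFractionRing.injective R K) p
  obtain ⟨I₀, hI₀⟩ : c ∈ (Submodule.unitsToPic R K).range := by
    rw [Submodule.range_unitsToPic, relPic_eq_top]; trivial
  have h1 : I₀ ^ p ∈ (Submodule.unitsToPic R K).ker := by
    rw [MonoidHom.mem_ker, map_pow, hI₀, hc]
  rw [Submodule.ker_unitsToPic] at h1
  obtain ⟨α, hα⟩ := h1
  obtain ⟨r, s, hs, hrs⟩ := IsFractionRing.div_surjective (A := R) (α : K)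
  have hs0 : s ≠ 0 := nonZeroDivisors.ne_zero hs
  have hs1 : algebraMap R K s ≠ 0 := IsFractionRing.to_map_ne_zero_of_mem_nonZeroDivisors hs
  have hr0 : r ≠ 0 := by
    rintro rfl
    apply α.ne_zero
    rw [← hrs]; simp
  obtain ⟨n, hn⟩ : ∃ n, p = n + 1 := ⟨p - 1, (Nat.sub_add_cancel hp.out.pos).symm⟩
  set I : (Submodule R K)ˣ := prin R (Units.mk0 _ hs1) * I₀ with hI
  set x : Kˣ := (Units.mk0 _ hs1) ^ p * α with hx
  have hxa : (x : K) = algebraMap R K (s ^ n * r) := by
    rw [hx, Units.val_mul, Units.val_pow_eq_pow_val, Units.val_mk0, ← hrs, hn, map_mul, map_pow]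
    field_simp
    ring
  have hIp : I ^ p = prin R x := by
    rw [hI, hx, mul_pow, map_mul, map_pow, ← hα]
  set a := s ^ n * r with ha
  refine ⟨I, a, x, ?_, mul_ne_zero (pow_ne_zero _ hs0) hr0, hxa, hIp, ?_⟩
  · rw [hI, map_mul, toPic_prin, one_mul, hI₀]
  have hmem : ∀ z ∈ (I : Submodule R K), ∃ t : R, z ^ p = algebraMap R K (t * a) := by
    intro z hz
    have := Submodule.pow_mem_pow (I : Submodule R K) hz p
    rw [← Units.val_pow_eq_pow_val, hIp, coe_prin, Submodule.mem_span_singleton] at this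
    obtain ⟨t, ht⟩ := this
    exact ⟨t, by rw [← ht, hxa, Algebra.smul_def, ← map_mul]⟩
  have hmem' : ∀ z ∈ ((I⁻¹ : (Submodule R K)ˣ) : Submodule R K),
      ∃ t : R, algebraMap R K t = algebraMap R K a * z ^ p := by
    intro z hz
    have h2 := Submodule.pow_mem_pow _ hz p
    have h3 : algebraMap R K a ∈ ((I ^ p : (Submodule R K)ˣ) : Submodule R K) := by
      rw [hIp, coe_prin, hxa]; exact Submodule.mem_span_singleton_self _
    have h4 := Submodule.mul_mem_mul h3 h2
    rw [← Units.val_pow_eq_pow_val, ← Units.val_mul, ← mul_pow, mul_inv_cancel, one_pow] at h4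
    exact Submodule.mem_one.1 h4
  have key : ∀ z ∈ (I : Submodule R K) * ((I⁻¹ : (Submodule R K)ˣ) : Submodule R K),
      ∃ t : R, algebraMap R K t = algebraMap R K a * z ^ p ∧ a ∣ δ t := by
    intro z hz
    refine Submodule.mul_induction_on hz ?_ ?_
    · intro b hb c hc
      obtain ⟨t, ht⟩ := hmem b hb
      obtain ⟨t', ht'⟩ := hmem' c hc
      obtain ⟨b', hb'⟩ := Submodule.mem_one.1
        (root_mem hroot (z := b) (Submodule.mem_one.2 ⟨_, ht.symm⟩))
      have hb'' : b' ^ p = t * a := by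
        apply IsFractionRing.injective R K
        rw [map_pow, hb', ht]
      refine ⟨b' ^ p * t', ?_, ?_⟩
      · rw [map_mul, map_pow, hb', ht']; ring
      · rw [hmul, hb'']
        exact Dvd.intro (t * δ t') (by ring)
    · rintro z w ⟨t, ht, hd⟩ ⟨t', ht', hd'⟩
      refine ⟨t + t', ?_, ?_⟩
      · rw [map_add, ht, ht', add_pow_char]; ring
      · rw [hadd]; exact dvd_add hd hd'
  obtain ⟨t, ht, v, hv⟩ := key 1 (by
    rw [← Units.val_mul, mul_inv_cancel]
    exact Submodule.one_le.1 le_rfl)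
  rw [one_pow, mul_one] at ht
  rw [IsFractionRing.injective R K ht] at hv
  exact ⟨v, by rw [hv, mul_comm]⟩

lemma toPic_eq {p : ℕ} (hroot : ∀ r s : R, s ≠ 0 → s ^ p ∣ r ^ p → s ∣ r)
    {I J : (Submodule R K)ˣ} {x y w z : Kˣ} (hI : I ^ p = prin R x) (hJ : J ^ p = prin R y)
    (h : x * w ^ p = y * z ^ p) :
    Submodule.unitsToPic R K I = Submodule.unitsToPic R K J := by
  have h1 : (I * prin R w * (J * prin R z)⁻¹) ^ p = 1 := by
    rw [mul_pow, inv_pow, mul_pow, mul_pow, hI, hJ, ← map_pow, ← map_pow, ← map_mul, ← map_mul, h,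
      mul_inv_cancel]
  have h2 := congrArg (Submodule.unitsToPic R K) (mul_inv_eq_one.1 (unit_eq_one hroot _ h1))
  rwa [map_mul, map_mul, toPic_prin, toPic_prin, mul_one, mul_one] at h2

end General

variable {k : Type*} [Field k]

lemma card_pic_RR [IsAlgClosed k] {p m g : ℕ} [hp : Fact p.Prime] [CharP k p]
    (hpm : p = 2 * m + 1) {f : k[X]} (hf : f.natDegree = 2 * g + 1) (hsq : Squarefree f)
    (u₀ : k[X]) (hu₀ : u₀ ≠ 0) (hdeg : u₀.degree < g)
    (hex : hasseDeriv (p - 1) (u₀ * f ^ m) = 0) :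
    {c : Pic (RR f) | c ^ p = 1}.encard ≤ (p : ℕ∞) ^ (g - 1) := by
  have := isDomain_RR hf
  have hroot : ∀ r s : RR f, s ≠ 0 → s ^ p ∣ r ^ p → s ∣ r :=
    fun r s hs h => core3 hpm hf hsq hs h
  have hmul : ∀ a b : RR f, del f (a ^ p * b) = a ^ p * del f b := by
    intro a b; rw [del_mul, del_pow_char]; simp
  have hrep := exists_rep (K := FractionRing (RR f)) hroot (del f) (del_add f) hmul
  choose! I a x hI ha hx hIp v hv using hrep
  refine le_trans ?_ (card_fixed p g
    ((hasseDeriv (p - 1)).comp (LinearMap.mulRight k (f ^ m))) u₀ hu₀ hdeg hex)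
  refine Set.encard_le_encard_of_injOn (f := fun c => (v c).re) ?_ ?_
  · intro c hc
    obtain ⟨-, h2, h3⟩ := core1 hpm hf (ha c hc) (hv c hc)
    exact ⟨h2, h3⟩
  · intro c hc d hd hcd
    have hc1 := (core1 hpm hf (ha c hc) (hv c hc)).1
    have hd1 := (core1 hpm hf (ha d hd) (hv d hd)).1
    have hvv : v c = v d := QuadraticAlgebra.ext hcd (hc1.trans hd1.symm)
    have hst : star (v d) = v d := by
      apply QuadraticAlgebra.ext <;> simp [hd1]
    have hdstar : del f (star (a d)) = -(v d * star (a d)) := by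
      rw [del_star, hv d hd, star_mul', hst]
    obtain ⟨w₁, hw₁⟩ := core2 hpm (z := a c * star (a d)) (by
      rw [del_mul, hdstar, hv c hc, hvv]; ring)
    obtain ⟨w₂, hw₂⟩ := core2 hpm (z := a d * star (a d)) (by
      rw [del_mul, hdstar, hv d hd]; ring)
    have hom : (ω : RR f) ≠ 0 := ne_zero_iff.2 (Or.inr (by simp))
    have hsd : star (a d) ≠ 0 := by simpa using ha d hd
    have hw₁0 : w₁ ≠ 0 := by
      rintro rfl
      rw [zero_pow hp.out.ne_zero] at hw₁
      exact mul_ne_zero (mul_ne_zero (ha c hc) hsd) (pow_ne_zero _ hom) hw₁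
    have hw₂0 : w₂ ≠ 0 := by
      rintro rfl
      rw [zero_pow hp.out.ne_zero] at hw₂
      exact mul_ne_zero (mul_ne_zero (ha d hd) hsd) (pow_ne_zero _ hom) hw₂
    have inj := IsFractionRing.injective (RR f) (FractionRing (RR f))
    rw [← hI c hc, ← hI d hd]
    refine toPic_eq hroot (hIp c hc) (hIp d hd)
      (w := Units.mk0 (algebraMap _ _ w₂) ((map_ne_zero_iff _ inj).2 hw₂0))
      (z := Units.mk0 (algebraMap _ _ w₁) ((map_ne_zero_iff _ inj).2 hw₁0)) ?_
    apply Units.ext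
    simp only [Units.val_mul, Units.val_pow_eq_pow_val, Units.val_mk0, hx c hc, hx d hd]
    have e : a c * w₂ ^ p = a d * w₁ ^ p := by rw [← hw₁, ← hw₂]; ring
    rw [← map_pow, ← map_pow, ← map_mul, ← map_mul, e]

/-- The comparison with `AdjoinRoot`. -/
noncomputable def toRR (f : k[X]) : AdjoinRoot (X ^ 2 - C f : k[X][X]) →+* RR f :=
  AdjoinRoot.lift (algebraMap k[X] (RR f)) ω (by
    simp only [eval₂_sub, eval₂_X_pow, eval₂_C]
    rw [QuadraticAlgebra.algebraMap_eq]
    apply QuadraticAlgebra.ext <;> simp [pow_two])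

noncomputable def ofRR (f : k[X]) : RR f →ₐ[k[X]] AdjoinRoot (X ^ 2 - C f : k[X][X]) :=
  QuadraticAlgebra.lift ⟨AdjoinRoot.root _, by
    have := AdjoinRoot.eval₂_root (X ^ 2 - C f : k[X][X])
    simp only [eval₂_sub, eval₂_X_pow, eval₂_C] at this
    rw [zero_smul, add_zero, ← pow_two, Algebra.smul_def, mul_one, AdjoinRoot.algebraMap_eq]
    exact sub_eq_zero.1 this⟩

lemma ofRR_comp_toRR (f : k[X]) : (ofRR f).toRingHom.comp (toRR f) = RingHom.id _ := by
  apply AdjoinRoot.ringHom_ext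
  · refine RingHom.ext fun r => ?_
    simp only [toRR, RingHom.comp_apply, AdjoinRoot.lift_of, RingHom.id_apply]
    exact (ofRR f).commutes r
  · simp [toRR, ofRR]

lemma card_pic [IsAlgClosed k] {p m g : ℕ} [hp : Fact p.Prime] [CharP k p]
    (hpm : p = 2 * m + 1) {f : k[X]} (hf : f.natDegree = 2 * g + 1) (hsq : Squarefree f)
    (u₀ : k[X]) (hu₀ : u₀ ≠ 0) (hdeg : u₀.degree < g)
    (hex : hasseDeriv (p - 1) (u₀ * f ^ m) = 0) :
    {c : Pic (AdjoinRoot (X ^ 2 - C f : k[X][X])) | c ^ p = 1}.encard ≤ (p : ℕ∞) ^ (g - 1) := by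
  refine le_trans ?_ (card_pic_RR hpm hf hsq u₀ hu₀ hdeg hex)
  refine Set.encard_le_encard_of_injOn (f := Pic.mapRingHom (toRR f)) ?_ ?_
  · intro c hc
    change Pic.mapRingHom (toRR f) c ^ p = 1
    rw [← map_pow, hc, map_one]
  · intro c _ d _ h
    have := congrArg (Pic.mapRingHom (ofRR f).toRingHom) h
    rwa [Pic.mapRingHom_mapRingHom, Pic.mapRingHom_mapRingHom, ofRR_comp_toRR,
      Pic.mapRingHom_id_apply, Pic.mapRingHom_id_apply] at this

end Pool.Agent.Lib.MP_2ca583_ag
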