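import Pool.Agent.Lib.MP_2ca583_ag.JCnt

set_option autoImplicit false

open Polynomial

universe u

namespace Pool.Agent.Lib.MP_2ca583_ag.Jac

variable {k : Type u} [Field k]

/-- Up to `p ^ j`-th powers, `f ^ ((p ^ j - 1) / 2)` is a short sum of polynomials of small degree. -/
def Sparse (p g : ℕ) (f : k[X]) (N : ℕ) : Prop :=
  ∃ (j M L : ℕ) (ι : Type) (_ : Fintype ι) (D : k[X]) (W G : ι → k[X]),
    p ^ j = 2 * M + 1 ∧ D ≠ 0 ∧ Fintype.card ι * L ≤ N ∧
    (∀ t, (G t).natDegree + g + 1 ≤ p ^ j * (L + 1)) ∧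
    f ^ M * D ^ p ^ j = ∑ t, W t ^ p ^ j * G t

lemma sp_sum {K : Type u} [Field K] [Algebra k K] (T : K) {E : k[X]} {L : ℕ}
    (hE : E.degree < L) : aeval T E = ∑ i : Fin L, E.coeff i • T ^ (i : ℕ) := by
  have h : E = ∑ i ∈ Finset.range L, monomial i (E.coeff i) := by
    ext n
    rw [finsetSum_coeff]
    simp only [coeff_monomial, Finset.sum_ite_eq', Finset.mem_range]
    split_ifs with hn
    · rfl
    · exact coeff_eq_zero_of_degree_lt (hE.trans_le (by exact_mod_cast not_lt.1 hn))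
  conv_lhs => rw [h]
  rw [map_sum, Finset.sum_range (fun i => aeval T (monomial i (E.coeff i)))]
  refine Finset.sum_congr rfl fun i _ => ?_
  rw [aeval_monomial, Algebra.smul_def]

section Count

variable {K : Type u} [Field K] [Algebra k K] {g : ℕ} {f : k[X]} {T y : K}

lemma sp_term {p : ℕ} [Fact p.Prime] [CharP K p] (hK : HypF f T y) {R O : Subalgebra k K}
    (hT : T ∈ R) (hy : y ∈ R) (hO : PInf k g T y O.toSubring) (j L : ℕ) (U D G : k[X])
    (hD : D ≠ 0) (hG : G.natDegree + g + 1 ≤ p ^ j * (L + 1)) :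
    ∃ e : Fin L → k, ∃ r ∈ R, ∃ o ∈ O, r + o = (aeval T U / aeval T D) ^ p ^ j * aeval T G * y
      - ∑ i : Fin L, e i • (T ^ ((i : ℕ) * p ^ j) * aeval T G * y / T ^ (L * p ^ j)) := by
  have hp : p.Prime := Fact.out
  have hQ : 0 < p ^ j := pow_pos hp.pos j
  have hT0 := cnt_T_ne hK
  have hD0 := hK.trans D hD
  have hdiv := EuclideanDomain.div_add_mod (U * X ^ L) D
  obtain ⟨hi, lo, hlo, hE⟩ := cnt_split (U * X ^ L / D) L
  set Rm := U * X ^ L % D with hRm
  have hC : (D * X ^ L) ^ p ^ j ≠ 0 := pow_ne_zero _ (mul_ne_zero hD (pow_ne_zero _ X_ne_zero))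
  have hCd : ((D * X ^ L) ^ p ^ j).natDegree = p ^ j * (D.natDegree + L) := by
    rw [natDegree_pow, natDegree_mul hD (pow_ne_zero _ X_ne_zero), natDegree_X_pow]
  have hmem : aeval T (Rm ^ p ^ j * G) * y / aeval T ((D * X ^ L) ^ p ^ j) ∈ O := by
    by_cases h0 : Rm = 0
    · rw [h0, zero_pow hQ.ne']; simp
    · have h1 : Rm.natDegree < D.natDegree := natDegree_lt_natDegree h0 (degree_mod_lt _ hD)
      refine cnt_memO hK hO hC (n := p ^ j * Rm.natDegree + G.natDegree + 1) ?_ ?_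
      · refine degree_le_natDegree.trans_lt ?_
        have h2 := natDegree_mul_le (p := Rm ^ p ^ j) (q := G)
        rw [natDegree_pow] at h2
        exact_mod_cast Nat.lt_succ_of_le h2
      · rw [hCd]
        have h2 := Nat.mul_le_mul_left (p ^ j) (Nat.succ_le_of_lt h1)
        rw [Nat.succ_eq_add_one] at h2
        nlinarith
  refine ⟨fun i => lo.coeff i ^ p ^ j, aeval T (hi ^ p ^ j * G) * y,
    R.mul_mem (cnt_aeval_mem hT _) hy, _, hmem, ?_⟩
  have h1 : aeval T U / aeval T D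
      = aeval T hi + aeval T lo / T ^ L + aeval T Rm / (aeval T D * T ^ L) := by
    have h2 := congrArg (aeval T) hdiv
    rw [hE] at h2
    simp only [map_add, map_mul, map_pow, aeval_X] at h2
    field_simp
    linear_combination -h2
  have h2 : aeval T lo ^ p ^ j = ∑ i : Fin L, lo.coeff i ^ p ^ j • T ^ ((i : ℕ) * p ^ j) := by
    rw [sp_sum T hlo, sum_pow_char_pow]
    refine Finset.sum_congr rfl fun i _ => ?_
    rw [_root_.smul_pow, pow_mul]
  have h3 : ∑ i : Fin L, lo.coeff i ^ p ^ j •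
      (T ^ ((i : ℕ) * p ^ j) * aeval T G * y / T ^ (L * p ^ j))
      = aeval T lo ^ p ^ j * aeval T G * y / T ^ (L * p ^ j) := by
    rw [h2, Finset.sum_mul, Finset.sum_mul, Finset.sum_div]
    refine Finset.sum_congr rfl fun i _ => ?_
    rw [smul_mul_assoc, smul_mul_assoc, smul_div_assoc]
  rw [h3, h1, add_pow_char_pow, add_pow_char_pow]
  simp only [map_mul, map_pow, aeval_X, div_pow, pow_mul]
  ring

end Count

/-- Counting Frobenius-fixed classes in `K / (R + O)` for a sparse `f`. -/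
theorem card_le_sparse {K : Type u} [Field K] [Algebra k K] {p g : ℕ} [Fact p.Prime] [CharP k p]
    {f : k[X]} {T y : K} (hK : HypF f T y)
    (R O : Subalgebra k K) (hT : T ∈ R) (hy : y ∈ R) (hO : PInf k g T y O.toSubring)
    {n : ℕ} (hf : Sparse p g f n) {ι : Type*} (S : Set ι) (φ : ι → K)
    (hφ : ∀ i ∈ S, ∃ r ∈ R, ∃ o ∈ O, φ i ^ p - φ i = r + o)
    (hinj : ∀ i ∈ S, ∀ j ∈ S, (∃ r ∈ R, ∃ o ∈ O, φ i - φ j = r + o) → i = j) :
    S.encard ≤ (p : ℕ∞) ^ n := by
  classical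
  have hp : p.Prime := Fact.out
  have : CharP K p := charP_of_injective_algebraMap (algebraMap k K).injective p
  obtain ⟨j, M, L, κ, _, D, W, G, hM, hD, hn, hG, hsum⟩ := hf
  set N : Submodule k K := R.toSubmodule ⊔ O.toSubmodule with hN
  have hmem : ∀ z : K, z ∈ N ↔ ∃ r ∈ R, ∃ o ∈ O, r + o = z := fun z => Submodule.mem_sup
  let Φ : K →ₛₗ[frobenius k p] K :=
    { toFun := fun z => z ^ p
      map_add' := fun a b => add_pow_char a b p
      map_smul' := fun c a => by rw [_root_.smul_pow, frobenius_def] }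
  have hΦ : N ≤ N.comap Φ := by
    intro z hz
    obtain ⟨r, hr, o, ho, rfl⟩ := (hmem z).1 hz
    exact (hmem _).2 ⟨r ^ p, R.pow_mem hr p, o ^ p, O.pow_mem ho p, (add_pow_char r o p).symm⟩
  let F : (K ⧸ N) →+ (K ⧸ N) := (N.mapQ N Φ hΦ).toAddMonoidHom
  have hF : ∀ (c : k) (v : K ⧸ N), F (c • v) = c ^ p • F v := fun c v =>
    (N.mapQ N Φ hΦ).map_smulₛₗ c v
  have hFmk : ∀ z : K, F (N.mkQ z) = N.mkQ (z ^ p) := fun z => rfl
  have hiter : ∀ z : K, F (N.mkQ z) = N.mkQ z → ∀ i : ℕ, N.mkQ (z ^ p ^ i) = N.mkQ z := by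
    intro z hz i
    induction i with
    | zero => rw [pow_zero, pow_one]
    | succ i ih => rw [pow_succ, pow_mul, ← hFmk, ih, hz]
  let b : κ × Fin L → K ⧸ N := fun x =>
    N.mkQ (T ^ ((x.2 : ℕ) * p ^ j) * aeval T (G x.1) * y / T ^ (L * p ^ j))
  let V : Submodule k (K ⧸ N) := Submodule.span k (Set.range b)
  have hVfin : Module.Finite k V := Module.Finite.span_of_finite k (Set.finite_range b)
  have hVrank : Module.finrank k V ≤ n := by
    refine le_trans (finrank_range_le_card b) ?_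
    rwa [Fintype.card_prod, Fintype.card_fin]
  refine le_trans ?_ (card_fix p F hF V n hVrank)
  refine Set.encard_le_encard_of_injOn (f := fun i => N.mkQ (φ i)) ?_ ?_
  · intro i hi
    have hfix : F (N.mkQ (φ i)) = N.mkQ (φ i) := by
      obtain ⟨r, hr, o, ho, h⟩ := hφ i hi
      rw [hFmk]
      exact (Submodule.Quotient.eq N).2 ((hmem _).2 ⟨r, hr, o, ho, h.symm⟩)
    refine ⟨?_, hfix⟩
    obtain ⟨q, hq⟩ := cnt_gen hK hT hO (φ i)
    have h1 : N.mkQ (φ i) = N.mkQ (aeval T q * y / T ^ g) :=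
      (Submodule.Quotient.eq N).2 ((hmem _).2 hq)
    have hDX : D * X ^ g ≠ 0 := mul_ne_zero hD (pow_ne_zero _ X_ne_zero)
    have h2 : (aeval T q * y / T ^ g) ^ p ^ j
        = ∑ t, (aeval T (q * W t) / aeval T (D * X ^ g)) ^ p ^ j * aeval T (G t) * y := by
      have hT0 := cnt_T_ne hK
      have hD0 := hK.trans D hD
      have h3 := congrArg (aeval T) hsum
      simp only [map_mul, map_pow, map_sum, ← hK.sq] at h3
      have h4 : y ^ p ^ j = (y ^ 2) ^ M * y := by rw [hM]; ring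
      have h5 : ∀ t, (aeval T (q * W t) / aeval T (D * X ^ g)) ^ p ^ j * aeval T (G t) * y
          = (aeval T q ^ p ^ j * y / (aeval T D ^ p ^ j * (T ^ g) ^ p ^ j))
            * (aeval T (W t) ^ p ^ j * aeval T (G t)) := fun t => by
        simp only [map_mul, map_pow, aeval_X, div_pow, mul_pow]
        ring
      rw [Finset.sum_congr rfl fun t _ => h5 t, ← Finset.mul_sum, ← h3, div_pow, mul_pow, h4]
      field_simp
    change N.mkQ (φ i) ∈ V
    rw [h1, ← hiter _ (by rw [← h1, hfix]) j, h2, map_sum]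
    refine V.sum_mem fun t _ => ?_
    obtain ⟨e, he⟩ := sp_term hK hT hy hO j L (q * W t) (D * X ^ g) (G t) hDX (hG t)
    have h3 := (Submodule.Quotient.eq N).2 ((hmem _).2 he)
    change N.mkQ _ = N.mkQ _ at h3
    rw [h3, map_sum]
    refine V.sum_mem fun x _ => ?_
    rw [map_smul]
    exact V.smul_mem _ (Submodule.subset_span ⟨(t, x), rfl⟩)
  · intro i hi j hj hij
    obtain ⟨r, hr, o, ho, h⟩ := (hmem _).1 ((Submodule.Quotient.eq N).1 hij)
    exact hinj i hi j hj ⟨r, hr, o, ho, h.symm⟩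

end Pool.Agent.Lib.MP_2ca583_ag.Jac
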