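import Pool.Agent.Lib.MP_2ca583_ag.JM
import Pool.Agent.Lib.MP_2ca583_ag.SCnt

set_option autoImplicit false

open CategoryTheory CategoryTheory.Limits AlgebraicGeometry Polynomial TensorProduct

universe u

namespace Pool.Agent.Lib.MP_2ca583_ag.Jac

variable {k : Type u} [Field k] {Y : Scheme.{u}} (s : Y ⟶ Spec (CommRingCat.of k))
  {K : Type u} [Field K] [Algebra k K] {η : Spec (CommRingCat.of K) ⟶ Y}
  (hη : η ≫ s = str k K) (p : ℕ) [hp : Fact p.Prime] [CharP k p]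

variable [IsSchemeTheoreticallyDominant η] [QuasiCompact η]

include hη in
theorem homMu_sparse_aux [Smooth s] [IsSeparated s] {g : ℕ} {f : k[X]}
    (hf : f.natDegree = 2 * g + 1)
    (j : Spec (CommRingCat.of (AdjoinRoot (X ^ 2 - C f : k[X][X]))) ⟶ Y) [IsOpenImmersion j]
    (hj : j ≫ s = str k _) (θ : AdjoinRoot (X ^ 2 - C f : k[X][X]) →ₐ[k] K)
    (hθ : Spec.map (CommRingCat.ofHom θ.toRingHom) ≫ j = η)
    (hK : ∀ z : K, ∃ a b, b ≠ 0 ∧ z * θ b = θ a) {n : ℕ} (hn : Sparse p g f n) :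
    (homMu s p).encard ≤ (p : ℕ∞) ^ n := by
  have := mu_nontrivial (k := k) p
  have : CharP K p := charP_of_injective_algebraMap (algebraMap k K).injective p
  have hg : Gen η := gen_of_dominant η
  have hi : Function.Injective θ := chart_injective _ j hθ (ev_injective η)
  have hg₁ := tens_gen s p _ (mu_pow p) hη
  have hinj := fst_injective s p _ (mu_pow (k := k) p)
  obtain ⟨O, hO, x₀, hx₀, hinf⟩ := infinity s hη hf j hj θ hθ hK
  obtain ⟨a, hadd, hmem, hA1, hA2⟩ := exists_inv (k := k) p K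
  choose ι hι using fst_surjective s (Mu k p)
  set π := pullback.fst s (str k (Mu k p)) with hπ
  set ψ := tens s (Mu k p) η hη with hψ
  have hOO : ∀ (y : ↥(pullback s (str k (Mu k p)))) (w : (K ⊗[k] Mu k p)ˣ),
      IsU (OO ψ y) w ↔ IsU (Sub (OK s hη (π y)) (Mu k p)) w := fun y w =>
    and_congr (OO_tens s p _ (mu_pow p) hη y _) (OO_tens s p _ (mu_pow p) hη y _)
  have hloc : ∀ (𝔭 : PrimeSpectrum _) (z : K), z ∈ OK s hη (j 𝔭) ↔ z ∈ Loc θ.toRingHom 𝔭 :=
    fun 𝔭 z => by rw [mem_OK, OO_chart _ j hθ hg]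
  let v : Cocycle (pullback s (str k (Mu k p))) → ↥(pullback s (str k (Mu k p)))
      → (K ⊗[k] Mu k p)ˣ := fun L y => tr ψ L (ι x₀) y (hg₁.two L (ι x₀) y)
  have hv : ∀ L y y', v L y * tr ψ L y y' (hg₁.two L y y') = v L y' := fun L y y' =>
    tr_cocycle ψ L _ _ _ _ _ _
  have hκ : ∀ L, ∃ κ : K, ∀ 𝔭, a (v L (ι (j 𝔭))) - κ ∈ Loc θ.toRingHom 𝔭 := by
    intro L
    refine exists_global hi _ fun 𝔭 => ⟨j ⁻¹' (π '' L.U (ι (j 𝔭))), ?_, ?_, ?_⟩
    · exact (π.isOpenMap _ (L.U _).isOpen).preimage j.continuous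
    · exact ⟨_, L.mem _, hι _⟩
    · rintro 𝔮 ⟨y, hy, hy'⟩
      obtain rfl : y = ι (j 𝔮) := hinj (hy'.trans (hι _).symm)
      have h1 := hmem _ _ ((hOO _ _).1 (isU_tr ψ L hy (hg₁.two L _ _)))
      rw [hι, hloc] at h1
      rw [← hv L (ι (j 𝔭)) (ι (j 𝔮)), hadd, sub_add_cancel_left]
      exact neg_mem h1
  choose κ hκ using hκ
  choose rep hrep using Pic.exists_mk (Z := pullback s (str k (Mu k p)))
  refine card_le_sparse (hypF hf θ hi hK) θ.range O ⟨_, rfl⟩ ⟨_, rfl⟩ hO hn _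
    (fun c => a (v (rep c) (ι x₀)) - κ (rep c)) (fun c hc => ?_) (fun c hc c' hc' h => ?_)
  · obtain ⟨γ, hγ⟩ := hA1 _ _ _ (mult_of_mem s hη p (rep c) (by rwa [hrep]) (ι x₀))
    have h1 : κ (rep c) ^ p - κ (rep c) - γ ∈ θ.toRingHom.range := by
      refine mem_range_of_loc _ fun 𝔭 => ?_
      have h2 := hγ (ι (j 𝔭))
      rw [hι, hloc] at h2
      have h3 := hκ (rep c) 𝔭
      have h4 := pow_mem h3 p
      rw [sub_pow_char] at h4
      have h5 := add_mem (sub_mem h2 h4) h3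
      rwa [show ∀ t : K, t ^ p - t - γ - (t ^ p - κ (rep c) ^ p) + (t - κ (rep c))
        = κ (rep c) ^ p - κ (rep c) - γ from fun t => by ring] at h5
    have h2 := hγ (ι x₀)
    rw [hι] at h2
    refine ⟨_, neg_mem h1, _, hx₀ h2, ?_⟩
    rw [sub_pow_char]; ring
  · obtain ⟨r, ⟨r, rfl⟩, o, ho, h⟩ := h
    obtain ⟨w, hw⟩ := hA2 _ _ _ _ (mult_of_mem s hη p (rep c) (by rwa [hrep]) (ι x₀))
      (mult_of_mem s hη p (rep c') (by rwa [hrep]) (ι x₀))
      ⟨κ (rep c) - κ (rep c') + θ r, fun y => by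
        by_cases hy : π y ∈ Set.range j
        · obtain ⟨𝔭, h𝔭⟩ := hy
          obtain rfl : y = ι (j 𝔭) := hinj (h𝔭.symm.trans (hι _).symm)
          rw [hι]
          refine (hloc 𝔭 _).2 ?_
          have h1 := sub_mem (sub_mem (hκ (rep c) 𝔭) (hκ (rep c') 𝔭)) (map_mem_Loc θ.toRingHom 𝔭 r)
          rwa [show ∀ t t' : K, t - κ (rep c) - (t' - κ (rep c')) - θ.toRingHom r
            = t - t' - (κ (rep c) - κ (rep c') + θ r) from fun t t' => by simp; ring] at h1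
        · obtain ⟨h1, h2⟩ := hinf _ hy
          obtain rfl : y = ι x₀ := hinj (h1.trans (hι _).symm)
          have h3 : a (v (rep c) (ι x₀)) - a (v (rep c') (ι x₀)) - (κ (rep c) - κ (rep c') + θ r) = o := by
            have h4 : _ = θ r + o := h
            linear_combination h4
          exact h2 (h3 ▸ ho)⟩
    obtain ⟨_, _⟩ := tens_dom s (Mu k p) hη
    rw [← hrep c, ← hrep c']
    refine Pic.sound (cohom_of_tr hg₁ (ev_injective ψ)
      (fun y => (v (rep c) y * (v (rep c') y)⁻¹ * w)⁻¹) (fun y => ((hOO _ _).2 (hw y)).inv)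
      fun y y' => ?_)
    rw [← hv (rep c) y y', ← hv (rep c') y y']
    exact group_aux _ _ _ _ _

theorem homMu_sparse [IsIntegral Y] [Smooth s] [IsSeparated s] {g : ℕ}
    {f : k[X]} (hf : f.natDegree = 2 * g + 1)
    (j : Spec (CommRingCat.of (AdjoinRoot (X ^ 2 - C f : k[X][X]))) ⟶ Y) [IsOpenImmersion j]
    (hj : j ≫ s = str k _) {n : ℕ} (hn : Sparse p g f n) :
    (homMu s p).encard ≤ (p : ℕ∞) ^ n := by
  have := isDomain_hyp hf
  let θ := IsScalarTower.toAlgHom k (AdjoinRoot (X ^ 2 - C f : k[X][X]))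
    (FractionRing (AdjoinRoot (X ^ 2 - C f : k[X][X])))
  have hi : Function.Injective θ := IsFractionRing.injective _ _
  have : IsDominant (Spec.map (CommRingCat.ofHom θ.toRingHom)) := ⟨by
    refine (PrimeSpectrum.denseRange_comap_iff_ker_le_nilRadical θ.toRingHom).2 ?_
    rw [(RingHom.injective_iff_ker_eq_bot θ.toRingHom).1 hi]
    exact bot_le⟩
  have : IsDominant j := ⟨j.isOpenEmbedding.isOpen_range.dense ⟨_, (⊥ : PrimeSpectrum _), rfl⟩⟩
  have : IsSchemeTheoreticallyDominant (Spec.map (CommRingCat.ofHom θ.toRingHom) ≫ j) :=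
    .of_isDominant _
  refine homMu_sparse_aux s (η := Spec.map (CommRingCat.ofHom θ.toRingHom) ≫ j)
    (by rw [Category.assoc, hj, spec_str]) p hf j hj θ rfl (fun z => ?_) hn
  obtain ⟨⟨a, b⟩, h⟩ := IsLocalization.surj
    (nonZeroDivisors (AdjoinRoot (X ^ 2 - C f : k[X][X]))) z
  exact ⟨a, b, nonZeroDivisors.ne_zero b.2, h⟩

end Pool.Agent.Lib.MP_2ca583_ag.Jac
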