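import Pool.Agent.Lib.MP_2ca583_ag.AMain
import Pool.Agent.Lib.MP_2ca583_ag.SM

set_option autoImplicit false

open CategoryTheory AlgebraicGeometry Polynomial OnePoint

universe u

namespace Pool.Agent.Lib.MP_2ca583_ag.AnyPt

variable {k : Type u} [Field k]

/-- In characteristic `p = 2 m + 1` the power `(a + b) ^ ((p ^ j - 1) / 2)` has `(m + 1) ^ j`
terms. -/
lemma sparse_pow {p m : ℕ} [hp : Fact p.Prime] (hpm : p = 2 * m + 1) {R : Type u} [CommRing R]
    [CharP R p] (a b : R) (j : ℕ) :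
    ∃ (M : ℕ) (ι : Type) (_ : Fintype ι) (c α β : ι → ℕ), p ^ j = 2 * M + 1 ∧
      Fintype.card ι = (m + 1) ^ j ∧ (∀ t, α t + β t = M) ∧
      (a + b) ^ M = ∑ t, (c t : R) * (a ^ α t * b ^ β t) := by
  induction j with
  | zero =>
    exact ⟨0, Unit, inferInstance, fun _ => 1, fun _ => 0, fun _ => 0, by simp, by simp,
      fun _ => rfl, by simp⟩
  | succ j ih =>
    obtain ⟨M, ι, _, c, α, β, h1, h2, h3, h4⟩ := ih
    refine ⟨M * p + m, ι × Fin (m + 1), inferInstance, fun x => c x.1 ^ p * m.choose x.2,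
      fun x => α x.1 * p + x.2, fun x => β x.1 * p + (m - x.2), ?_, ?_, fun x => ?_, ?_⟩
    · rw [pow_succ, h1]
      nth_rewrite 1 [hpm]
      nth_rewrite 1 [hpm]
      ring
    · rw [Fintype.card_prod, h2, Fintype.card_fin, pow_succ]
    · have h5 := x.2.2
      beta_reduce
      rw [← h3 x.1, add_mul]
      omega
    · rw [pow_add, pow_mul, h4, sum_pow_char, add_pow, Finset.sum_range
        (fun s => a ^ s * b ^ (m - s) * (m.choose s : R)), Finset.sum_mul_sum,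
        Fintype.sum_prod_type]
      refine Finset.sum_congr rfl fun t _ => Finset.sum_congr rfl fun s _ => ?_
      push_cast
      ring

lemma sparse_of {p m : ℕ} [hp : Fact p.Prime] (hpm : p = 2 * m + 1) [CharP k p]
    {g ε ν r j n : ℕ} (hεν : ε + ν = 2 * g + 1) (hn : g ≤ n * p ^ j) {A D P₁ P₂ Q : k[X]}
    (hA : A.natDegree ≤ 1) (hD : D.natDegree ≤ 1) (hQ : Q ≠ 0)
    (hF : A ^ ε * D * (A ^ ν + D ^ ν) = P₁ * Q) (h1 : Q.natDegree ≤ r) (h2 : P₂.natDegree ≤ r) :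
    Jac.Sparse p g (P₁ * P₂) ((m + 1) ^ j * (r + n)) := by
  obtain ⟨M, ι, _, c, α, β, hM, hc, hαβ, hsum⟩ := sparse_pow hpm (A ^ ν) (D ^ ν) j
  have hq : 0 < p ^ j := pow_pos hp.out.pos j
  generalize hqq : p ^ j = q at hM hn hq
  refine ⟨j, M, r + n, ι, inferInstance, Q,
    fun t => A ^ ((ε * M + ν * α t) / q) * D ^ ((M + ν * β t) / q),
    fun t => (c t : k[X]) * (A ^ ((ε * M + ν * α t) % q) * D ^ ((M + ν * β t) % q))
      * (Q ^ (M + 1) * P₂ ^ M), hqq.trans hM, hQ, by rw [hc], fun t => ?_, ?_⟩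
  · rw [hqq]
    beta_reduce
    have e1 := Nat.div_add_mod (ε * M + ν * α t) q
    have e2 := Nat.div_add_mod (M + ν * β t) q
    have l1 := Nat.mod_lt (ε * M + ν * α t) hq
    have l2 := Nat.mod_lt (M + ν * β t) hq
    generalize (ε * M + ν * α t) % q = x at e1 l1 ⊢
    generalize (M + ν * β t) % q = y at e2 l2 ⊢
    generalize (ε * M + ν * α t) / q = x' at e1
    generalize (M + ν * β t) / q = y' at e2
    have hdeg : ((c t : k[X]) * (A ^ x * D ^ y) * (Q ^ (M + 1) * P₂ ^ M)).natDegree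
        ≤ 0 + (x * 1 + y * 1) + ((M + 1) * r + M * r) :=
      natDegree_mul_le_of_le (natDegree_mul_le_of_le (natDegree_natCast _).le
        (natDegree_mul_le_of_le (natDegree_pow_le_of_le x hA) (natDegree_pow_le_of_le y hD)))
        (natDegree_mul_le_of_le (natDegree_pow_le_of_le _ h1) (natDegree_pow_le_of_le _ h2))
    have e3 : q * (x' + y') + (x + y + g + 1) = q * (g + 1) := by
      have e4 : ν * α t + ν * β t = ν * M := by rw [← mul_add, hαβ]
      have e5 : ε * M + ν * M = (2 * g + 1) * M := by rw [← add_mul, hεν]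
      rw [mul_add, hM] at *
      nlinarith
    have e6 : q ∣ x + y + g + 1 :=
      (Nat.dvd_add_right (Dvd.intro _ rfl)).1 (e3 ▸ Dvd.intro _ rfl)
    obtain ⟨w, hw⟩ := e6
    have e7 : w < n + 2 := by
      refine lt_of_mul_lt_mul_left (a := q) ?_ (Nat.zero_le _)
      rw [← hw, mul_add, mul_comm q n]
      omega
    have e8 : q * w ≤ q * (n + 1) := Nat.mul_le_mul_left q (by omega)
    have e9 : (M + 1) * r + M * r = q * r := by rw [hM]; ring
    have e10 : q * (r + n + 1) = q * r + q * (n + 1) := by ring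
    omega
  · rw [hqq]
    have e1 : (P₁ * P₂) ^ M * Q ^ q = (P₁ * Q) ^ M * (Q ^ (M + 1) * P₂ ^ M) := by
      rw [hM]; ring
    rw [e1, ← hF, mul_pow, hsum, Finset.mul_sum, Finset.sum_mul]
    refine Finset.sum_congr rfl fun t _ => ?_
    have e2 : (A ^ ε * D) ^ M * ((A ^ ν) ^ α t * (D ^ ν) ^ β t)
        = A ^ (ε * M + ν * α t) * D ^ (M + ν * β t) := by ring
    have e3 : A ^ (ε * M + ν * α t) * D ^ (M + ν * β t)
        = (A ^ ((ε * M + ν * α t) / q) * D ^ ((M + ν * β t) / q)) ^ q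
          * (A ^ ((ε * M + ν * α t) % q) * D ^ ((M + ν * β t) % q)) := by
      conv_lhs => rw [← Nat.div_add_mod' (ε * M + ν * α t) q, ← Nat.div_add_mod' (M + ν * β t) q]
      generalize (ε * M + ν * α t) % q = x
      generalize (M + ν * β t) % q = y
      generalize (ε * M + ν * α t) / q = x'
      generalize (M + ν * β t) / q = y'
      ring
    linear_combination (c t : k[X]) * (Q ^ (M + 1) * P₂ ^ M) * (e2.trans e3)

variable [DecidableEq k]

/-- Every curve obtained by moving branch points is sparse. -/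
theorem data_sparse (p : ℕ) [hp : Fact p.Prime] {m : ℕ} (hpm : p = 2 * m + 1) [IsAlgClosed k]
    [CharP k p] (g : ℕ) (hg : 1 ≤ g) :
    ∃ B : Set (OnePoint k), ∞ ∈ B ∧ B.ncard = 2 * g + 2 ∧ ∀ B' : Set (OnePoint k),
      B'.ncard = 2 * g + 2 → ∀ (γ : GL (Fin 2) k) (Λ : Finset k),
      (∀ z : OnePoint k, γ • z ∈ B' ↔ z = ∞ ∨ ∃ l ∈ Λ, z = OnePoint.some l) →
      ∀ j n : ℕ, g ≤ n * p ^ j →
        Jac.Sparse p g (∏ l ∈ Λ, (X - C l)) ((m + 1) ^ j * ((B' \ B).ncard + n)) := by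
  classical
  obtain ⟨ε, ν, S, hεν, hν, hS, hS'⟩ := exists_base (k := k) p (2 * g + 1) (by omega)
  refine ⟨{z | z = ∞ ∨ ∃ l ∈ S, z = OnePoint.some l}, Or.inl rfl, by rw [(ncard_chart S).1, hS],
    fun B' hB' γ Λ hγ j n hn => ?_⟩
  set B : Set (OnePoint k) := {z | z = ∞ ∨ ∃ l ∈ S, z = OnePoint.some l} with hB
  have hΛ : Λ.card = 2 * g + 1 := by have := chart_card hγ; omega
  have hdet : γ 0 0 * γ 1 1 - γ 0 1 * γ 1 0 ≠ 0 := by
    have := γ.det_ne_zero
    rwa [Matrix.det_fin_two] at this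
  have hnat : ∀ T : Finset k, (∏ l ∈ T, (X - C l) : k[X]).natDegree = T.card := by
    intro T
    rw [natDegree_prod_of_monic _ _ (fun l _ => monic_X_sub_C l)]
    simp
  have hmonic : ∀ T : Finset k, (∏ l ∈ T, (X - C l) : k[X]).Monic :=
    fun T => monic_prod_of_monic _ _ (fun l _ => monic_X_sub_C l)
  have hF0 := form_ne hdet ε hν
  obtain ⟨hF, hFc⟩ := form_deg (γ 0 0) (γ 0 1) (γ 1 0) (γ 1 1) ε ν
  set Λ₁ : Finset k := Λ.filter fun t : k => γ • (t : OnePoint k) ∈ B with hΛ₁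
  set Λ₂ : Finset k := Λ.filter fun t : k => ¬ γ • (t : OnePoint k) ∈ B with hΛ₂
  have hdvd : (∏ l ∈ Λ₁, (X - C l) : k[X]) ∣ (C (γ 0 0) * X + C (γ 0 1)) ^ ε *
      (C (γ 1 0) * X + C (γ 1 1)) *
      ((C (γ 0 0) * X + C (γ 0 1)) ^ ν + (C (γ 1 0) * X + C (γ 1 1)) ^ ν) := by
    rw [Finset.prod_eq_multiset_prod, Multiset.prod_X_sub_C_dvd_iff_le_roots hF0]
    refine (Multiset.le_iff_subset Λ₁.nodup).2 fun t ht => (mem_roots hF0).2 ?_
    have h1 := (Finset.mem_filter.1 ht).2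
    rw [smul_some_eq_ite] at h1
    simpa using hom_zero hS' h1
  obtain ⟨Q, hQ⟩ := hdvd
  have hQ0 : Q ≠ 0 := fun h => hF0 (by rw [hQ, h, mul_zero])
  have hQd := natDegree_mul (hmonic Λ₁).ne_zero hQ0
  rw [← hQ, hnat] at hQd
  have hsum := Finset.card_filter_add_card_filter_not (s := Λ)
    (fun t : k => γ • (t : OnePoint k) ∈ B)
  rw [← hΛ₁, ← hΛ₂, hΛ] at hsum
  have hprod : (∏ l ∈ Λ, (X - C l) : k[X]) = (∏ l ∈ Λ₁, (X - C l)) * ∏ l ∈ Λ₂, (X - C l) :=
    (Finset.prod_filter_mul_prod_filter_not Λ _ _).symm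
  have hfin : {z : OnePoint k | γ • z ∈ B' \ B}.Finite :=
    (ncard_chart Λ).2.2.subset fun z hz => (hγ z).1 hz.1
  have hsub : ∀ t ∈ Λ₂, γ • (t : OnePoint k) ∈ B' \ B := fun t ht =>
    ⟨(hγ _).2 (Or.inr ⟨t, (Finset.mem_filter.1 ht).1, rfl⟩), (Finset.mem_filter.1 ht).2⟩
  have key : Q.natDegree ≤ (B' \ B).ncard ∧ Λ₂.card ≤ (B' \ B).ncard := by
    rw [← ncard_smul γ]
    by_cases hinf : γ • (∞ : OnePoint k) ∈ B
    · have h1 : Λ₂.card ≤ {z : OnePoint k | γ • z ∈ B' \ B}.ncard := by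
        rw [← (ncard_chart Λ₂).2.1]
        refine Set.ncard_le_ncard ?_ hfin
        rintro z ⟨t, ht, rfl⟩
        exact hsub t ht
      rw [smul_infty_eq_ite] at hinf
      have h2 := natDegree_le_pred hF (hFc.trans (hom_zero hS' hinf))
      omega
    · have h1 : Λ₂.card + 1 ≤ {z : OnePoint k | γ • z ∈ B' \ B}.ncard := by
        rw [← (ncard_chart Λ₂).1]
        refine Set.ncard_le_ncard ?_ hfin
        rintro z (rfl | ⟨t, ht, rfl⟩)
        · exact ⟨(hγ _).2 (Or.inl rfl), hinf⟩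
        · exact hsub t ht
      omega
  rw [hprod]
  exact sparse_of hpm hεν hn (lin_deg _ _) (lin_deg _ _) hQ0 hQ key.1 ((hnat _).trans_le key.2)

theorem main_sparse (p : ℕ) (hp : p.Prime) (hp2 : 2 < p) [IsAlgClosed k] [CharP k p] (g : ℕ)
    (hg : 1 ≤ g) :
    ∃ B : Set (OnePoint k), ∞ ∈ B ∧ B.ncard = 2 * g + 2 ∧ ∀ B' : Set (OnePoint k),
      B'.ncard = 2 * g + 2 →
      (∃ (Y : Scheme.{u}) (s : Y ⟶ Spec (CommRingCat.of k)), Jac.IsModel B' s) ∧
      ∀ (Y : Scheme.{u}) (s : Y ⟶ Spec (CommRingCat.of k)), Jac.IsModel B' s →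
        ∀ j n : ℕ, g ≤ n * p ^ j →
          (Jac.homMu s p).encard ≤ (p : ℕ∞) ^ (((p + 1) / 2) ^ j * ((B' \ B).ncard + n)) := by
  have : Fact p.Prime := ⟨hp⟩
  obtain ⟨m, hm⟩ := hp.odd_of_ne_two (by omega)
  obtain ⟨B, hB0, hB, H⟩ := data_sparse (k := k) p hm g hg
  have hnat : ∀ T : Finset k, (∏ l ∈ T, (X - C l) : k[X]).natDegree = T.card := by
    intro T
    rw [natDegree_prod_of_monic _ _ (fun l _ => monic_X_sub_C l)]
    simp
  have h2 : (2 : k) ≠ 0 := fun h => by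
    have h2 := (CharP.cast_eq_zero_iff k p 2).1 (by exact_mod_cast h)
    have := Nat.le_of_dvd two_pos h2
    omega
  refine ⟨B, hB0, hB, fun B' hB' => ⟨?_, ?_⟩⟩
  · obtain ⟨γ, Λ, hγ⟩ := exists_chart (Set.finite_of_ncard_ne_zero (by omega : B'.ncard ≠ 0))
      (Set.nonempty_of_ncard_ne_zero (by omega))
    have hΛ : Λ.card = 2 * g + 1 := by have := chart_card hγ; omega
    obtain ⟨Y, s, j, h1, h3, h4, h5, h6⟩ := Jac.exists_model h2 ((hnat Λ).trans hΛ)
      (separable_prod_X_sub_C_iff'.2 (fun x _ y _ h => h))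
    exact ⟨Y, s, h1, h3, h4, γ, Λ, j, hγ, h5, h6⟩
  · rintro Y s ⟨h1, h3, h4, γ, Λ, j, hγ, h5, h6⟩ i n hn
    have hΛ : Λ.card = 2 * g + 1 := by have := chart_card hγ; omega
    rw [show (p + 1) / 2 = m + 1 by omega]
    exact Jac.homMu_sparse s p ((hnat Λ).trans hΛ) j h6 (H B' hB' γ Λ hγ i n hn)

omit [DecidableEq k] in
lemma rate_aux {p : ℕ} (hp : p.Prime) (hp2 : 2 < p) {g r : ℕ} (hr : 1 ≤ r) (hrg : r ≤ g) :
    ∃ j : ℕ, g ≤ r * p ^ j ∧ ((((p + 1) / 2) ^ j * (r + r) : ℕ) : ℝ)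
      ≤ (p + 1) * r * ((g : ℝ) / r) ^ Real.logb p ((p + 1) / 2) := by
  classical
  obtain ⟨m, hm⟩ := hp.odd_of_ne_two (by omega)
  have hex : ∃ j : ℕ, g ≤ r * p ^ j :=
    ⟨g, (Nat.lt_pow_self hp.one_lt).le.trans (Nat.le_mul_of_pos_left _ hr)⟩
  have hp1 : (1 : ℝ) < p := by exact_mod_cast hp.one_lt
  have hr0 : (0 : ℝ) < r := by exact_mod_cast hr
  have hm1 : ((p : ℝ) + 1) / 2 = m + 1 := by rw [hm]; push_cast; ring
  have hm0 : (0 : ℝ) ≤ m := Nat.cast_nonneg m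
  have hβ : 0 ≤ Real.logb p (((p : ℝ) + 1) / 2) := Real.logb_nonneg hp1 (by linarith)
  have hpow : (p : ℝ) ^ Real.logb p (((p : ℝ) + 1) / 2) = m + 1 := by
    rw [Real.rpow_logb (by linarith) hp1.ne' (by linarith), hm1]
  refine ⟨Nat.find hex, Nat.find_spec hex, ?_⟩
  rw [show (p + 1) / 2 = m + 1 by omega]
  have key : ((m : ℝ) + 1) ^ Nat.find hex
      ≤ (m + 1) * ((g : ℝ) / r) ^ Real.logb p (((p : ℝ) + 1) / 2) := by
    rcases h : Nat.find hex with _ | i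
    · have h1 : (1 : ℝ) ≤ (g : ℝ) / r := (one_le_div hr0).2 (by exact_mod_cast hrg)
      have h2 := Real.one_le_rpow h1 hβ
      rw [pow_zero]
      nlinarith
    · have h1 : ¬ g ≤ r * p ^ i := Nat.find_min hex (by omega)
      have h2 : (p : ℝ) ^ i ≤ (g : ℝ) / r := by
        rw [le_div_iff₀ hr0, mul_comm]
        exact_mod_cast (not_le.1 h1).le
      have h3 := Real.rpow_le_rpow (by positivity) h2 hβ
      rw [← Real.rpow_natCast, ← Real.rpow_mul (by linarith), mul_comm,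
        Real.rpow_mul (by linarith), hpow, Real.rpow_natCast] at h3
      rw [pow_succ, mul_comm]
      exact mul_le_mul_of_nonneg_left h3 (by linarith)
  have hp' : (p : ℝ) + 1 = 2 * (m + 1) := by linarith
  push_cast
  generalize ((g : ℝ) / r) ^ Real.logb p (((p : ℝ) + 1) / 2) = w at key ⊢
  rw [hp']
  nlinarith

end Pool.Agent.Lib.MP_2ca583_ag.AnyPt
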